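import Mathlib

set_option autoImplicit false

/-! Definitions: pp formulas, algebraically compact modules, definable classes. -/

namespace Pool.Agent.Helper232.RZ

/-- pp formula in `n` variables `x`: there is `y` with `A x + B y = 0`. -/
structure PP (R : Type) (n : ℕ) where
  m : ℕ
  p : ℕ
  A : Fin m → Fin n → R
  B : Fin m → Fin p → R

/-- `φ` holds at `x`. -/
def PP.H {R : Type} [Ring R] {n : ℕ} (φ : PP R n) {M : Type} [AddCommGroup M] [Module R M]
    (x : Fin n → M) : Prop :=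
  ∃ y : Fin φ.p → M, ∀ i, (∑ j, φ.A i j • x j) + ∑ l, φ.B i l • y l = 0

/-- a pp formula in one variable holds at `a`. -/
def PP.h {R : Type} [Ring R] (φ : PP R 1) {M : Type} [AddCommGroup M] [Module R M] (a : M) : Prop :=
  φ.H (fun _ : Fin 1 => a)

/-- algebraically compact modules -/
def AC (R : Type) [Ring R] (N : Type) [AddCommGroup N] [Module R N] : Prop :=
  ∀ (I J : Type) (a : J → I →₀ R) (b : J → N),
    (∀ F : Finset J, ∃ x : I → N, ∀ j ∈ F, ((a j).sum fun i r => r • x i) = b j) →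
    ∃ x : I → N, ∀ j, ((a j).sum fun i r => r • x i) = b j

/-- indecomposable modules -/
def Indec (R : Type) [Ring R] (N : Type) [AddCommGroup N] [Module R N] : Prop :=
  Nontrivial N ∧ ∀ A B : Submodule R N, IsCompl A B → A = ⊥ ∨ B = ⊥

/-- the class of modules given by a set of pairs of pp formulas: the first implies the second -/
def InD {R : Type} [Ring R] (Q : Set (Σ n : ℕ, PP R n × PP R n)) (M : Type) [AddCommGroup M]
    [Module R M] : Prop :=
  ∀ q ∈ Q, ∀ x : Fin q.1 → M, q.2.1.H x → q.2.2.H x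

/-- `N` is the only indecomposable algebraically compact module of the class -/
structure Uniq {R : Type} [Ring R] (Q : Set (Σ n : ℕ, PP R n × PP R n)) (N : Type)
    [AddCommGroup N] [Module R N] : Prop where
  ac : AC R N
  ind : Indec R N
  mem : InD Q N
  uniq : ∀ (M : Type) [AddCommGroup M] [Module R M], Indec R M → AC R M → InD Q M →
    Nonempty (M ≃ₗ[R] N)

/-- all non-invertible endomorphisms map `b` into `θ(N)` -/
def Vt {R : Type} [Ring R] {N : Type} [AddCommGroup N] [Module R N] (θ : PP R 1) (b : N) : Prop :=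
  ∀ f : Module.End R N, ¬ IsUnit f → θ.h (f b)

/-- formulas over a subring are formulas over the ring -/
def PP.up {R : Type} [Ring R] {R0 : Subring R} {n : ℕ} (φ : PP R0 n) : PP R n :=
  ⟨φ.m, φ.p, fun i j => (φ.A i j : R), fun i l => (φ.B i l : R)⟩

/-- `R = R0 ⊗ k` over `k0`, `k` is flat over `k0`, in terms of equations -/
structure Desc {k R : Type} [CommRing k] [Ring R] [Algebra k R] (k0 : Subring k) (R0 : Subring R)
    (d : ℕ) (g : Fin d → R) : Prop where
  map : ∀ c ∈ k0, algebraMap k R c ∈ R0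
  flat : ∀ (q m : ℕ) (α : Fin q → Fin m → k) (w : Fin m → k), (∀ t i, α t i ∈ k0) →
    (∀ t, ∑ i, α t i * w i = 0) →
    ∃ (r : ℕ) (v : Fin r → k) (c : Fin m → Fin r → k), (∀ i j, c i j ∈ k0) ∧
      (∀ i, w i = ∑ j, c i j * v j) ∧ ∀ t j, ∑ i, α t i * c i j = 0
  gmem : ∀ j, g j ∈ R0
  gen : ∀ s : R, ∃ c : Fin d → k, s = ∑ j, algebraMap k R (c j) * g j
  gen0 : ∀ s ∈ R0, ∃ c : Fin d → k, (∀ j, c j ∈ k0) ∧ s = ∑ j, algebraMap k R (c j) * g j
  rel : ∀ c : Fin d → k, ∑ j, algebraMap k R (c j) * g j = 0 →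
    ∃ (r : ℕ) (v : Fin r → k) (ρ : Fin r → Fin d → k), (∀ t j, ρ t j ∈ k0) ∧
      (∀ t, ∑ j, algebraMap k R (ρ t j) * g j = 0) ∧ ∀ j, c j = ∑ t, v t * ρ t j

/-- `M1` is the `R`-module of `k0`-linear maps from `k` to the `R0`-module `M0`, `ev w` is the
evaluation at `w`. -/
structure Coind {k R : Type} [CommRing k] [Ring R] [Algebra k R] (k0 : Subring k)
    (R0 : Subring R) (hm : ∀ c ∈ k0, algebraMap k R c ∈ R0) (M0 : Type) [AddCommGroup M0]
    [Module R0 M0] (M1 : Type) [AddCommGroup M1] [Module R M1] (ev : k → M1 →+ M0) : Prop where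
  zsm : ∀ (w z : k) (f : M1), ev w (algebraMap k R z • f) = ev (w * z) f
  rsm : ∀ (w : k) (r : R0) (f : M1), ev w ((r : R) • f) = r • ev w f
  add : ∀ (w w' : k) (f : M1), ev (w + w') f = ev w f + ev w' f
  sm0 : ∀ (c : k0) (w : k) (f : M1),
    ev ((c : k) * w) f = (⟨algebraMap k R c, hm c c.2⟩ : R0) • ev w f
  ext : ∀ f : M1, (∀ w, ev w f = 0) → f = 0
  lift : ∀ F : k → M0, (∀ w w', F (w + w') = F w + F w') →
    (∀ (c : k0) (w : k), F ((c : k) * w) = (⟨algebraMap k R c, hm c c.2⟩ : R0) • F w) →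
    ∃ f : M1, ∀ w, ev w f = F w

/-- the circle -/
abbrev TT : Type := AddCircle (1 : ℝ)

/-- double dual of an abelian group -/
def DD (M : Type) [AddCommGroup M] : Type := (M →+ TT) →+ TT

noncomputable instance (M : Type) [AddCommGroup M] : AddCommGroup (DD M) :=
  inferInstanceAs (AddCommGroup ((M →+ TT) →+ TT))

/-- multiplication by `r` -/
def rmul {R : Type} [Ring R] {M : Type} [AddCommGroup M] [Module R M] (r : R) : M →+ M :=
  DistribMulAction.toAddMonoidHom M r

/-- the functional `Ξ` applied to `χ` -/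
def DD.ap {M : Type} [AddCommGroup M] (Ξ : DD M) (χ : M →+ TT) : TT :=
  (show (M →+ TT) →+ TT from Ξ) χ

noncomputable instance {R : Type} [Ring R] {M : Type} [AddCommGroup M] [Module R M] :
    Module R (DD M) where
  smul r Ξ := (show (M →+ TT) →+ TT from Ξ).comp (AddMonoidHom.compHom' (rmul r))
  one_smul Ξ := by
    show (show (M →+ TT) →+ TT from Ξ).comp (AddMonoidHom.compHom' (rmul (1:R))) = _
    refine AddMonoidHom.ext fun χ => ?_
    show (show (M →+ TT) →+ TT from Ξ) (χ.comp (rmul (1:R))) = _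
    congr 1
    ext m
    show χ ((1:R) • m) = _
    rw [one_smul]
  mul_smul r s Ξ := by
    refine AddMonoidHom.ext fun χ => ?_
    show (show (M →+ TT) →+ TT from Ξ) (χ.comp (rmul (r * s))) =
      (show (M →+ TT) →+ TT from Ξ) ((χ.comp (rmul r)).comp (rmul s))
    congr 1
    ext m
    show χ ((r * s) • m) = χ (r • s • m)
    rw [mul_smul]
  smul_zero r := by
    refine AddMonoidHom.ext fun χ => ?_
    rfl
  smul_add r Ξ Ξ' := by
    refine AddMonoidHom.ext fun χ => ?_
    rfl
  add_smul r s Ξ := by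
    refine AddMonoidHom.ext fun χ => ?_
    show (show (M →+ TT) →+ TT from Ξ) (χ.comp (rmul (r + s))) =
      (show (M →+ TT) →+ TT from Ξ) (χ.comp (rmul r)) + (show (M →+ TT) →+ TT from Ξ) (χ.comp (rmul s))
    rw [← map_add]
    congr 1
    ext m
    show χ ((r + s) • m) = χ (r • m) + χ (s • m)
    rw [add_smul, map_add]
  zero_smul Ξ := by
    refine AddMonoidHom.ext fun χ => ?_
    show (show (M →+ TT) →+ TT from Ξ) (χ.comp (rmul (0:R))) = 0
    have : χ.comp (rmul (0:R)) = 0 := by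
      ext m
      show χ ((0:R) • m) = 0
      rw [zero_smul, map_zero]
    rw [this, map_zero]

theorem DD.smul_ap {R : Type} [Ring R] {M : Type} [AddCommGroup M] [Module R M] (r : R) (Ξ : DD M)
    (χ : M →+ TT) : (r • Ξ).ap χ = Ξ.ap (χ.comp (rmul r)) := rfl

theorem DD.add_ap {M : Type} [AddCommGroup M] (Ξ Ξ' : DD M)
    (χ : M →+ TT) : (Ξ + Ξ').ap χ = Ξ.ap χ + Ξ'.ap χ := rfl

end Pool.Agent.Helper232.RZ
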