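import Mathlib
import Pool.Agent.Helper232.RZ.Defs

set_option autoImplicit false

namespace Pool.Agent.Helper232.RZ


/-- additive and `R0`-linear maps -/
def coind_S {R : Type} [Ring R] (R0 : Subring R) (M0 : Type) [AddCommGroup M0] [Module R0 M0] :
    AddSubgroup (R →+ M0) where
  carrier := {f | ∀ (r : R0) (s : R), f ((r : R) * s) = r • f s}
  add_mem' := by
    intro a b ha hb r s
    rw [AddMonoidHom.add_apply, AddMonoidHom.add_apply, ha, hb, smul_add]
  zero_mem' := by
    intro r s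
    rw [AddMonoidHom.zero_apply, AddMonoidHom.zero_apply, smul_zero]
  neg_mem' := by
    intro a ha r s
    rw [AddMonoidHom.neg_apply, AddMonoidHom.neg_apply, ha, smul_neg]

instance coind_mod {R : Type} [Ring R] (R0 : Subring R) (M0 : Type) [AddCommGroup M0]
    [Module R0 M0] : Module R (coind_S R0 M0) where
  smul s f := ⟨f.1.comp (AddMonoidHom.mulRight s), by
    intro r t
    show f.1 ((r : R) * t * s) = r • f.1 (t * s)
    rw [mul_assoc]
    exact f.2 r (t * s)⟩
  one_smul f := by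
    apply Subtype.ext
    refine AddMonoidHom.ext fun t => ?_
    show f.1 (t * 1) = f.1 t
    rw [mul_one]
  mul_smul s s' f := by
    apply Subtype.ext
    refine AddMonoidHom.ext fun t => ?_
    show f.1 (t * (s * s')) = f.1 (t * s * s')
    rw [mul_assoc]
  smul_zero s := by
    apply Subtype.ext
    rfl
  smul_add s f f' := by
    apply Subtype.ext
    rfl
  add_smul s s' f := by
    apply Subtype.ext
    refine AddMonoidHom.ext fun t => ?_
    show f.1 (t * (s + s')) = f.1 (t * s) + f.1 (t * s')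
    rw [mul_add, map_add]
  zero_smul f := by
    apply Subtype.ext
    refine AddMonoidHom.ext fun t => ?_
    show f.1 (t * 0) = 0
    rw [mul_zero, map_zero]

/-- evaluation -/
def coind_ev {k R : Type} [CommRing k] [Ring R] [Algebra k R] (R0 : Subring R) (M0 : Type)
    [AddCommGroup M0] [Module R0 M0] (w : k) : coind_S R0 M0 →+ M0 where
  toFun f := f.1 (algebraMap k R w)
  map_zero' := rfl
  map_add' _ _ := rfl

theorem coind_lift {k R : Type} [CommRing k] [Ring R] [Algebra k R] (k0 : Subring k)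
    (R0 : Subring R) (d : ℕ) (g : Fin d → R) (hD : Desc k0 R0 d g) (M0 : Type) [AddCommGroup M0]
    [Module R0 M0] (F : k →+ M0)
    (hF : ∀ (c : k0) (w : k), F ((c : k) * w) = (⟨algebraMap k R c, hD.map c c.2⟩ : R0) • F w) :
    ∃ f : coind_S R0 M0, ∀ w, f.1 (algebraMap k R w) = F w := by
  obtain ⟨Φ, hΦ⟩ : ∃ Φ : (Fin d → k) → M0, Φ = fun c => ∑ j, (⟨g j, hD.gmem j⟩ : R0) • F (c j) :=
    ⟨_, rfl⟩
  have hF' : ∀ (c : k) (hc : c ∈ k0) (w : k), F (w * c) = (⟨algebraMap k R c, hD.map c hc⟩ : R0) • F w := by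
    intro c hc w
    rw [mul_comm]
    exact hF ⟨c, hc⟩ w
  have hadd : ∀ c c', Φ (c + c') = Φ c + Φ c' := by
    intro c c'
    rw [hΦ]
    simp only [Pi.add_apply, map_add, smul_add, Finset.sum_add_distrib]
  have hz : ∀ c : Fin d → k, ∑ j, algebraMap k R (c j) * g j = 0 → Φ c = 0 := by
    intro c hc
    obtain ⟨r, v, ρ, hρ, hρ0, hcv⟩ := hD.rel c hc
    rw [hΦ]
    beta_reduce
    have h1 : ∀ j, (⟨g j, hD.gmem j⟩ : R0) • F (c j) = ∑ t, ((⟨g j, hD.gmem j⟩ : R0) *
        ⟨algebraMap k R (ρ t j), hD.map _ (hρ t j)⟩) • F (v t) := by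
      intro j
      rw [hcv, map_sum, Finset.smul_sum]
      refine Finset.sum_congr rfl fun t _ => ?_
      rw [hF' _ (hρ t j), mul_smul]
    rw [Finset.sum_congr rfl fun j _ => h1 j, Finset.sum_comm]
    refine Finset.sum_eq_zero fun t _ => ?_
    rw [← Finset.sum_smul]
    have h2 : ∑ j, (⟨g j, hD.gmem j⟩ : R0) * ⟨algebraMap k R (ρ t j), hD.map _ (hρ t j)⟩ = 0 := by
      apply Subtype.ext
      rw [AddSubmonoidClass.coe_finsetSum]
      refine Eq.trans ?_ (hρ0 t)
      refine Finset.sum_congr rfl fun j _ => ?_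
      exact (Algebra.commutes (ρ t j) (g j)).symm
    rw [h2, zero_smul]
  have hwd : ∀ c c' : Fin d → k, ∑ j, algebraMap k R (c j) * g j = ∑ j, algebraMap k R (c' j) * g j →
      Φ c = Φ c' := by
    intro c c' h
    have h1 : Φ (c - c') = 0 := by
      apply hz
      rw [← sub_eq_zero, ← Finset.sum_sub_distrib] at h
      refine Eq.trans ?_ h
      refine Finset.sum_congr rfl fun j _ => ?_
      rw [Pi.sub_apply, map_sub, sub_mul]
    have h2 := hadd (c - c') c'
    rw [sub_add_cancel, h1, zero_add] at h2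
    exact h2
  choose cf hcf using hD.gen
  have hfs : ∀ (s : R) (c : Fin d → k), s = ∑ j, algebraMap k R (c j) * g j → Φ (cf s) = Φ c := by
    intro s c hc
    apply hwd
    rw [← hcf, ← hc]
  have hfadd : ∀ s s', Φ (cf (s + s')) = Φ (cf s) + Φ (cf s') := by
    intro s s'
    rw [← hadd]
    apply hfs
    conv_lhs => rw [hcf s, hcf s']
    rw [← Finset.sum_add_distrib]
    refine Finset.sum_congr rfl fun j _ => ?_
    rw [Pi.add_apply, map_add, add_mul]
  have hflin : ∀ (r : R0) (s : R), Φ (cf ((r : R) * s)) = r • Φ (cf s) := by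
    intro r s
    have hμ : ∀ j, ∃ μ : Fin d → k, (∀ l, μ l ∈ k0) ∧
        (r : R) * g j = ∑ l, algebraMap k R (μ l) * g l := fun j =>
      hD.gen0 _ (R0.mul_mem r.2 (hD.gmem j))
    choose μ hμ0 hμ using hμ
    have h1 : (r : R) * s = ∑ l, algebraMap k R (∑ j, cf s j * μ j l) * g l := by
      conv_lhs => rw [hcf s, Finset.mul_sum]
      have h2 : ∀ j, (r : R) * (algebraMap k R (cf s j) * g j) =
          ∑ l, algebraMap k R (cf s j * μ j l) * g l := by
        intro j
        rw [← mul_assoc, ← Algebra.commutes, mul_assoc, hμ, Finset.mul_sum]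
        refine Finset.sum_congr rfl fun l _ => ?_
        rw [map_mul, mul_assoc]
      rw [Finset.sum_congr rfl fun j _ => h2 j, Finset.sum_comm]
      refine Finset.sum_congr rfl fun l _ => ?_
      rw [map_sum, Finset.sum_mul]
    rw [hfs _ _ h1, hΦ]
    beta_reduce
    have h3 : ∀ l, (⟨g l, hD.gmem l⟩ : R0) • F (∑ j, cf s j * μ j l) =
        ∑ j, ((⟨g l, hD.gmem l⟩ : R0) * ⟨algebraMap k R (μ j l), hD.map _ (hμ0 j l)⟩) •
          F (cf s j) := by
      intro l
      rw [map_sum, Finset.smul_sum]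
      refine Finset.sum_congr rfl fun j _ => ?_
      rw [hF' _ (hμ0 j l), mul_smul]
    rw [Finset.sum_congr rfl fun l _ => h3 l, Finset.sum_comm, Finset.smul_sum]
    refine Finset.sum_congr rfl fun j _ => ?_
    rw [← Finset.sum_smul, ← mul_smul]
    congr 1
    apply Subtype.ext
    rw [AddSubmonoidClass.coe_finsetSum]
    refine Eq.trans ?_ (hμ j).symm
    refine Finset.sum_congr rfl fun l _ => ?_
    exact (Algebra.commutes (μ j l) (g l)).symm
  refine ⟨⟨AddMonoidHom.mk' (fun s => Φ (cf s)) hfadd, hflin⟩, ?_⟩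
  intro w
  show Φ (cf (algebraMap k R w)) = F w
  obtain ⟨u, hu0, hu⟩ := hD.gen0 1 R0.one_mem
  have h1 : algebraMap k R w = ∑ j, algebraMap k R (w * u j) * g j := by
    calc algebraMap k R w = algebraMap k R w * 1 := (mul_one _).symm
      _ = algebraMap k R w * ∑ j, algebraMap k R (u j) * g j := by rw [← hu]
      _ = _ := by
        rw [Finset.mul_sum]
        refine Finset.sum_congr rfl fun j _ => ?_
        rw [map_mul, mul_assoc]
  rw [hfs _ _ h1, hΦ]
  beta_reduce
  have h2 : ∀ j, (⟨g j, hD.gmem j⟩ : R0) • F (w * u j) =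
      ((⟨g j, hD.gmem j⟩ : R0) * ⟨algebraMap k R (u j), hD.map _ (hu0 j)⟩) • F w := by
    intro j
    rw [hF' _ (hu0 j), mul_smul]
  rw [Finset.sum_congr rfl fun j _ => h2 j, ← Finset.sum_smul]
  have h3 : ∑ j, (⟨g j, hD.gmem j⟩ : R0) * ⟨algebraMap k R (u j), hD.map _ (hu0 j)⟩ = 1 := by
    apply Subtype.ext
    rw [AddSubmonoidClass.coe_finsetSum]
    refine Eq.trans ?_ hu.symm
    refine Finset.sum_congr rfl fun j _ => ?_
    exact (Algebra.commutes (u j) (g j)).symm
  rw [h3, one_smul]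

theorem coind {k R : Type} [CommRing k] [Ring R] [Algebra k R] (k0 : Subring k) (R0 : Subring R)
    (d : ℕ) (g : Fin d → R) (hD : Desc k0 R0 d g) (M0 : Type) [AddCommGroup M0] [Module R0 M0] :
    ∃ (M1 : Type) (_ : AddCommGroup M1) (_ : Module R M1) (ev : k → M1 →+ M0),
      Coind k0 R0 hD.map M0 M1 ev := by
  refine ⟨coind_S R0 M0, inferInstance, coind_mod R0 M0, fun w => coind_ev (R := R) R0 M0 w, ?_⟩
  refine ⟨?_, ?_, ?_, ?_, ?_, ?_⟩
  · intro w z f
    show f.1 (algebraMap k R w * algebraMap k R z) = f.1 (algebraMap k R (w * z))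
    rw [map_mul (algebraMap k R)]
  · intro w r f
    show f.1 (algebraMap k R w * (r : R)) = r • f.1 (algebraMap k R w)
    rw [Algebra.commutes]
    exact f.2 r _
  · intro w w' f
    show f.1 (algebraMap k R (w + w')) = f.1 (algebraMap k R w) + f.1 (algebraMap k R w')
    rw [map_add (algebraMap k R), map_add]
  · intro c w f
    show f.1 (algebraMap k R ((c : k) * w)) = _
    rw [map_mul (algebraMap k R)]
    exact f.2 ⟨algebraMap k R c, hD.map c c.2⟩ _
  · intro f hf
    apply Subtype.ext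
    refine AddMonoidHom.ext fun s => ?_
    show f.1 s = 0
    obtain ⟨c, hc⟩ := hD.gen s
    rw [hc, map_sum]
    refine Finset.sum_eq_zero fun j _ => ?_
    rw [Algebra.commutes]
    have h1 : f.1 (g j * algebraMap k R (c j)) = (⟨g j, hD.gmem j⟩ : R0) • f.1 (algebraMap k R (c j)) :=
      f.2 ⟨g j, hD.gmem j⟩ _
    have h2 : f.1 (algebraMap k R (c j)) = 0 := hf (c j)
    rw [h1, h2, smul_zero]
  · intro F hF1 hF2
    obtain ⟨f, hf⟩ := coind_lift k0 R0 d g hD M0 (AddMonoidHom.mk' F hF1) hF2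
    exact ⟨f, hf⟩

end Pool.Agent.Helper232.RZ
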