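import Mathlib
import Pool.Agent.Helper232.RZ.Defs

set_option autoImplicit false

namespace Pool.Agent.Helper232.RZ


private theorem coind_mem_flat {k : Type} [CommRing k] (k0 : Subring k)
    (hflat : ∀ (q m : ℕ) (α : Fin q → Fin m → k) (w : Fin m → k), (∀ t i, α t i ∈ k0) →
      (∀ t, ∑ i, α t i * w i = 0) →
      ∃ (r : ℕ) (v : Fin r → k) (c : Fin m → Fin r → k), (∀ i j, c i j ∈ k0) ∧
      (∀ i, w i = ∑ j, c i j * v j) ∧ ∀ t j, ∑ i, α t i * c i j = 0)
    (S : Finset k) (T : Finset (k → k)) (hT : ∀ ρ ∈ T, (∀ w, ρ w ∈ k0) ∧ ∑ w ∈ S, ρ w * w = 0) :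
    ∃ (r : ℕ) (v : Fin r → k) (cc : k → Fin r → k), (∀ w j, cc w j ∈ k0) ∧
      (∀ w ∈ S, w = ∑ j, cc w j * v j) ∧ ∀ ρ ∈ T, ∀ j, ∑ w ∈ S, ρ w * cc w j = 0 := by
  classical
  obtain ⟨r, v, c, hc, hw, hr⟩ := hflat T.card S.card
    (fun t i => (T.equivFin.symm t : k → k) (S.equivFin.symm i : k))
    (fun i => (S.equivFin.symm i : k))
    (fun t i => (hT _ (T.equivFin.symm t).2).1 _)
    (fun t => by
      rw [← (hT _ (T.equivFin.symm t).2).2, ← Finset.sum_coe_sort S]
      exact Equiv.sum_comp S.equivFin.symm
        (fun w : S => (T.equivFin.symm t : k → k) (w : k) * (w : k)))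
  refine ⟨r, v, fun w j => if h : w ∈ S then c (S.equivFin ⟨w, h⟩) j else 0, ?_, ?_, ?_⟩
  · intro w j
    dsimp only
    split_ifs with h
    · exact hc _ _
    · exact k0.zero_mem
  · intro w hwS
    have h1 := hw (S.equivFin ⟨w, hwS⟩)
    rw [Equiv.symm_apply_apply] at h1
    simp only [dif_pos hwS]
    exact h1
  · intro ρ hρ j
    have h1 := hr (T.equivFin ⟨ρ, hρ⟩) j
    rw [← Finset.sum_coe_sort S, ← h1, ← Equiv.sum_comp S.equivFin.symm]
    refine Finset.sum_congr rfl fun i _ => ?_
    simp

private theorem coind_mem_lc1 {R : Type} [Ring R] {I M : Type} [AddCommGroup M] [Module R M]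
    (u : I → M) (a b c : I) :
    ((Finsupp.single a (1 : R) - Finsupp.single b 1 - Finsupp.single c 1 : I →₀ R).sum
      fun i r => r • u i) = u a - u b - u c := by
  rw [← Finsupp.linearCombination_apply, map_sub, map_sub, Finsupp.linearCombination_single,
    Finsupp.linearCombination_single, Finsupp.linearCombination_single, one_smul, one_smul,
    one_smul]

private theorem coind_mem_lc2 {R : Type} [Ring R] {I M : Type} [AddCommGroup M] [Module R M]
    (u : I → M) (a b : I) (s : R) :
    ((Finsupp.single a (1 : R) - Finsupp.single b s : I →₀ R).sum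
      fun i r => r • u i) = u a - s • u b := by
  rw [← Finsupp.linearCombination_apply, map_sub, Finsupp.linearCombination_single,
    Finsupp.linearCombination_single, one_smul]

private theorem coind_mem_lc3 {R : Type} [Ring R] {I M : Type} [AddCommGroup M] [Module R M]
    (u : I → M) {p : ℕ} (a : Fin p → I) (s : Fin p → R) :
    ((∑ l, Finsupp.single (a l) (s l) : I →₀ R).sum
      fun i r => r • u i) = ∑ l, s l • u (a l) := by
  rw [← Finsupp.linearCombination_apply, map_sum]
  exact Finset.sum_congr rfl fun l _ => Finsupp.linearCombination_single _ _ _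

private theorem coind_mem_sing {k : Type} [CommRing k] [DecidableEq k] (S : Finset k) (a : k)
    (ha : a ∈ S) (z : k) (X : k → k) : ∑ u ∈ S, (Pi.single a z : k → k) u * X u = z * X a := by
  rw [Finset.sum_eq_single a]
  · rw [Pi.single_eq_same]
  · intro b _ hb
    rw [Pi.single_eq_of_ne hb, zero_mul]
  · intro h
    exact absurd ha h

theorem coind_mem {k R : Type} [CommRing k] [Ring R] [Algebra k R] (k0 : Subring k) (R0 : Subring R)
    (d : ℕ) (g : Fin d → R) (hD : Desc k0 R0 d g) (M0 : Type) [AddCommGroup M0] [Module R0 M0]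
    (M1 : Type) [AddCommGroup M1] [Module R M1] (ev : k → M1 →+ M0)
    (hC : Coind k0 R0 hD.map M0 M1 ev) (hM0 : AC R0 M0) {n : ℕ} (φ ψ : PP R0 n)
    (h : ∀ x : Fin n → M0, φ.H x → ψ.H x) : ∀ x : Fin n → M1, φ.up.H x → ψ.up.H x := by
  classical
  intro x hx
  obtain ⟨y, hy⟩ := hx
  have h0 : ∀ w : k, ψ.H (fun j => ev w (x j)) := by
    intro w
    apply h
    refine ⟨fun l => ev w (y l), fun i => ?_⟩
    have h1 := congrArg (ev w) (hy i)
    rw [map_add, map_sum, map_sum, map_zero] at h1
    rw [← h1]
    congr 1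
    · exact Finset.sum_congr rfl fun j _ => (hC.rsm w (φ.A i j) (x j)).symm
    · exact Finset.sum_congr rfl fun l _ => (hC.rsm w (φ.B i l) (y l)).symm
  choose Y0 hY0 using h0
  have key : ∃ Y : k × Fin ψ.p → M0, (∀ w w' l, Y (w + w', l) = Y (w, l) + Y (w', l)) ∧
      (∀ (c : k0) w l, Y ((c:k) * w, l) =
        (⟨algebraMap k R c, hD.map c c.2⟩ : R0) • Y (w, l)) ∧
      ∀ w i, ∑ j, ψ.A i j • ev w (x j) + ∑ l, ψ.B i l • Y (w, l) = 0 := by
    obtain ⟨Y, hY⟩ := hM0 (k × Fin ψ.p)
      ((k × k × Fin ψ.p) ⊕ ((k0 × k × Fin ψ.p) ⊕ (k × Fin ψ.m)))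
      (Sum.elim (fun q => Finsupp.single (q.1 + q.2.1, q.2.2) 1 - Finsupp.single (q.1, q.2.2) 1
          - Finsupp.single (q.2.1, q.2.2) 1)
        (Sum.elim (fun q => Finsupp.single ((q.1 : k) * q.2.1, q.2.2) 1 -
            Finsupp.single (q.2.1, q.2.2) (⟨algebraMap k R q.1, hD.map _ q.1.2⟩ : R0))
          (fun q => ∑ l, Finsupp.single (q.1, l) (ψ.B q.2 l))))
      (Sum.elim (fun _ => 0) (Sum.elim (fun _ => 0) (fun q => - ∑ j, ψ.A q.2 j • ev q.1 (x j))))
      (by
        intro F
        obtain ⟨r, v, cc, hcc, hv, hr⟩ := coind_mem_flat k0 hD.flat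
          (F.biUnion (Sum.elim (fun q : k × k × Fin ψ.p => ({q.1, q.2.1, q.1 + q.2.1} : Finset k))
            (Sum.elim (fun q : k0 × k × Fin ψ.p => ({q.2.1, (q.1 : k) * q.2.1} : Finset k))
              (fun q : k × Fin ψ.m => ({q.1} : Finset k)))))
          (F.image (Sum.elim (fun q : k × k × Fin ψ.p => ((Pi.single (q.1 + q.2.1) 1 : k → k)
              - (Pi.single q.1 1 : k → k) - (Pi.single q.2.1 1 : k → k) : k → k))
            (Sum.elim (fun q : k0 × k × Fin ψ.p => ((Pi.single ((q.1 : k) * q.2.1) 1 : k → k)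
              - (Pi.single q.2.1 (q.1 : k) : k → k) : k → k))
                (fun q : k × Fin ψ.m => (0 : k → k)))))
          (by
            intro ρ hρ
            rw [Finset.mem_image] at hρ
            obtain ⟨e, he, rfl⟩ := hρ
            have hsing : ∀ (a z w : k), z ∈ k0 → (Pi.single a z : k → k) w ∈ k0 := by
              intro a z w hz
              by_cases hw : w = a
              · rw [hw, Pi.single_eq_same]; exact hz
              · rw [Pi.single_eq_of_ne hw]; exact k0.zero_mem
            rcases e with ⟨w, w', l⟩ | ⟨c, w, l⟩ | ⟨w, i⟩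
            · simp only [Sum.elim_inl]
              constructor
              · intro u
                simp only [Pi.sub_apply]
                exact k0.sub_mem (k0.sub_mem (hsing _ _ _ k0.one_mem) (hsing _ _ _ k0.one_mem))
                  (hsing _ _ _ k0.one_mem)
              · simp only [Pi.sub_apply, sub_mul, Finset.sum_sub_distrib]
                rw [coind_mem_sing _ _ (Finset.mem_biUnion.2 ⟨_, he, by simp⟩) 1 (fun u => u),
                  coind_mem_sing _ _ (Finset.mem_biUnion.2 ⟨_, he, by simp⟩) 1 (fun u => u),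
                  coind_mem_sing _ _ (Finset.mem_biUnion.2 ⟨_, he, by simp⟩) 1 (fun u => u)]
                ring
            · simp only [Sum.elim_inl, Sum.elim_inr]
              constructor
              · intro u
                simp only [Pi.sub_apply]
                exact k0.sub_mem (hsing _ _ _ k0.one_mem) (hsing _ _ _ c.2)
              · simp only [Pi.sub_apply, sub_mul, Finset.sum_sub_distrib]
                rw [coind_mem_sing _ _ (Finset.mem_biUnion.2 ⟨_, he, by simp⟩) 1 (fun u => u),
                  coind_mem_sing _ _ (Finset.mem_biUnion.2 ⟨_, he, by simp⟩) _ (fun u => u)]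
                ring
            · simp only [Sum.elim_inr]
              exact ⟨fun u => k0.zero_mem, by simp⟩)
        refine ⟨fun q => ∑ j, (⟨algebraMap k R (cc q.1 j), hD.map _ (hcc _ _)⟩ : R0) •
          Y0 (v j) q.2, ?_⟩
        intro e he
        rcases e with ⟨w, w', l⟩ | ⟨c, w, l⟩ | ⟨w, i⟩
        · simp only [Sum.elim_inl]
          rw [coind_mem_lc1, ← Finset.sum_sub_distrib, ← Finset.sum_sub_distrib]
          refine Finset.sum_eq_zero fun j _ => ?_
          rw [← sub_smul, ← sub_smul]
          have h2 := hr _ (Finset.mem_image_of_mem _ he) j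
          simp only [Sum.elim_inl, Pi.sub_apply, sub_mul, Finset.sum_sub_distrib] at h2
          rw [coind_mem_sing _ _ (Finset.mem_biUnion.2 ⟨_, he, by simp⟩) 1 (fun u => cc u j),
            coind_mem_sing _ _ (Finset.mem_biUnion.2 ⟨_, he, by simp⟩) 1 (fun u => cc u j),
            coind_mem_sing _ _ (Finset.mem_biUnion.2 ⟨_, he, by simp⟩) 1 (fun u => cc u j)] at h2
          rw [one_mul, one_mul, one_mul] at h2
          have h3 : ((⟨algebraMap k R (cc (w + w') j), hD.map _ (hcc _ _)⟩ : R0) -
            ⟨algebraMap k R (cc w j), hD.map _ (hcc _ _)⟩ -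
            ⟨algebraMap k R (cc w' j), hD.map _ (hcc _ _)⟩) = 0 := by
            apply Subtype.ext
            show algebraMap k R (cc (w + w') j) - algebraMap k R (cc w j)
              - algebraMap k R (cc w' j) = 0
            rw [← map_sub, ← map_sub, h2, map_zero]
          rw [h3, zero_smul]
        · simp only [Sum.elim_inl, Sum.elim_inr]
          rw [coind_mem_lc2, Finset.smul_sum, ← Finset.sum_sub_distrib]
          refine Finset.sum_eq_zero fun j _ => ?_
          rw [smul_smul, ← sub_smul]
          have h2 := hr _ (Finset.mem_image_of_mem _ he) j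
          simp only [Sum.elim_inl, Sum.elim_inr, Pi.sub_apply, sub_mul,
            Finset.sum_sub_distrib] at h2
          rw [coind_mem_sing _ _ (Finset.mem_biUnion.2 ⟨_, he, by simp⟩) 1 (fun u => cc u j),
            coind_mem_sing _ _ (Finset.mem_biUnion.2 ⟨_, he, by simp⟩) _ (fun u => cc u j)] at h2
          rw [one_mul] at h2
          have h3 : ((⟨algebraMap k R (cc ((c : k) * w) j), hD.map _ (hcc _ _)⟩ : R0) -
            ⟨algebraMap k R (c : k), hD.map _ c.2⟩ *
            ⟨algebraMap k R (cc w j), hD.map _ (hcc _ _)⟩) = 0 := by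
            apply Subtype.ext
            show algebraMap k R (cc ((c : k) * w) j) - algebraMap k R (c : k) *
              algebraMap k R (cc w j) = 0
            rw [← map_mul, ← map_sub, h2, map_zero]
          rw [h3, zero_smul]
        · simp only [Sum.elim_inr]
          rw [coind_mem_lc3]
          have hwS := hv w (Finset.mem_biUnion.2 ⟨_, he, by simp⟩)
          have hcomm : ∀ (a : k) (ha : a ∈ k0) (b : R0) (m : M0),
              b • ((⟨algebraMap k R a, hD.map _ ha⟩ : R0) • m) =
              (⟨algebraMap k R a, hD.map _ ha⟩ : R0) • (b • m) := by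
            intro a ha b m
            rw [smul_smul, smul_smul]
            congr 1
            apply Subtype.ext
            show (b : R) * algebraMap k R a = algebraMap k R a * b
            exact (Algebra.commutes a (b : R)).symm
          have hev : ∀ f : M1, ev w f =
              ∑ j, (⟨algebraMap k R (cc w j), hD.map _ (hcc _ _)⟩ : R0) • ev (v j) f := by
            intro f
            have h5 : ∀ u : k, ev u f =
              (AddMonoidHom.mk' (fun w => ev w f) (fun w w' => hC.add w w' f)) u := fun u => rfl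
            conv_lhs => rw [h5 w, hwS, map_sum]
            refine Finset.sum_congr rfl fun j _ => ?_
            exact hC.sm0 ⟨cc w j, hcc w j⟩ (v j) f
          have h6 : ∀ j : Fin r, ∑ l, ψ.B i l • Y0 (v j) l = - ∑ j', ψ.A i j' • ev (v j) (x j') := by
            intro j
            rw [eq_neg_iff_add_eq_zero, add_comm]
            exact hY0 (v j) i
          have h7 : ∀ l : Fin ψ.p, ψ.B i l • ∑ j, (⟨algebraMap k R (cc w j), hD.map _ (hcc _ _)⟩ : R0) •
              Y0 (v j) l = ∑ j, (⟨algebraMap k R (cc w j), hD.map _ (hcc _ _)⟩ : R0) •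
              (ψ.B i l • Y0 (v j) l) := by
            intro l
            rw [Finset.smul_sum]
            exact Finset.sum_congr rfl fun j _ => hcomm _ (hcc _ _) _ _
          rw [Finset.sum_congr rfl fun l _ => h7 l, Finset.sum_comm]
          have h8 : ∀ j : Fin r, ∑ l, (⟨algebraMap k R (cc w j), hD.map _ (hcc _ _)⟩ : R0) •
              (ψ.B i l • Y0 (v j) l) = - ∑ j', ψ.A i j' •
                ((⟨algebraMap k R (cc w j), hD.map _ (hcc _ _)⟩ : R0) • ev (v j) (x j')) := by
            intro j
            rw [← Finset.smul_sum, h6 j, smul_neg, Finset.smul_sum]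
            congr 1
            exact Finset.sum_congr rfl fun j' _ => (hcomm _ (hcc _ _) _ _).symm
          rw [Finset.sum_congr rfl fun j _ => h8 j, Finset.sum_neg_distrib, Finset.sum_comm]
          congr 1
          refine Finset.sum_congr rfl fun j' _ => ?_
          rw [← Finset.smul_sum, ← hev])
    refine ⟨Y, fun w w' l => ?_, fun c w l => ?_, fun w i => ?_⟩
    · have h1 := hY (Sum.inl (w, w', l))
      simp only [Sum.elim_inl] at h1
      rw [coind_mem_lc1] at h1
      rw [sub_sub, sub_eq_zero] at h1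
      exact h1
    · have h1 := hY (Sum.inr (Sum.inl (c, w, l)))
      simp only [Sum.elim_inl, Sum.elim_inr] at h1
      rw [coind_mem_lc2] at h1
      rw [sub_eq_zero] at h1
      exact h1
    · have h1 := hY (Sum.inr (Sum.inr (w, i)))
      simp only [Sum.elim_inr] at h1
      rw [coind_mem_lc3] at h1
      rw [h1, add_neg_cancel]
  obtain ⟨Y, hY1, hY2, hY3⟩ := key
  have hz : ∀ l : Fin ψ.p, ∃ f : M1, ∀ w, ev w f = Y (w, l) := fun l =>
    hC.lift (fun w => Y (w, l)) (fun w w' => hY1 w w' l) (fun c w => hY2 c w l)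
  choose z hz using hz
  refine ⟨z, fun i => ?_⟩
  apply hC.ext
  intro w
  rw [map_add, map_sum, map_sum, ← hY3 w i]
  congr 1
  · exact Finset.sum_congr rfl fun j _ => hC.rsm w (ψ.A i j) (x j)
  · refine Finset.sum_congr rfl fun l _ => ?_
    rw [← hz l w]
    exact hC.rsm w (ψ.B i l) (z l)

end Pool.Agent.Helper232.RZ
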