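import Mathlib
import Pool.Agent.Helper232.RZ.Defs
import Pool.Agent.Helper232.RZ.N_coind
import Pool.Agent.Helper232.RZ.N_coind_mem

set_option autoImplicit false

namespace Pool.Agent.Helper232.RZ


theorem full_sol {k R : Type} [CommRing k] [Ring R] [Algebra k R] (k0 : Subring k) (R0 : Subring R)
    (d : ℕ) (g : Fin d → R) (hD : Desc k0 R0 d g) {n : ℕ} (φ ψ : PP R0 n) (θ : PP R0 1)
    (m p : ℕ) (a : Fin m → Fin d → k) (b : Fin m → Fin p → Fin d → k)
    (hσ : ∀ (M : Type) [AddCommGroup M] [Module R M], (∀ x : Fin n → M, φ.up.H x → ψ.up.H x) →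
      ∀ (y : M) (z : Fin p → M), (∀ i, (∑ j, algebraMap k R (a i j) * g j) • y +
        ∑ l, (∑ j, algebraMap k R (b i l j) * g j) • z l = 0) → θ.up.h y)
    (M0 : Type) [AddCommGroup M0] [Module R0 M0] (hM0 : AC R0 M0)
    (h : ∀ x : Fin n → M0, φ.H x → ψ.H x) (Y : k → M0) (Z : k → Fin p → M0)
    (hY : ∀ w w', Y (w + w') = Y w + Y w') (hZ : ∀ w w' l, Z (w + w') l = Z w l + Z w' l)
    (hY0 : ∀ (c : k0) (w : k), Y ((c : k) * w) = (⟨algebraMap k R c, hD.map c c.2⟩ : R0) • Y w)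
    (hZ0 : ∀ (c : k0) (w : k) (l : Fin p),
      Z ((c : k) * w) l = (⟨algebraMap k R c, hD.map c c.2⟩ : R0) • Z w l)
    (heq : ∀ (i : Fin m) (w : k), ∑ j, (⟨g j, hD.gmem j⟩ : R0) • Y (a i j * w) +
      ∑ l, ∑ j, (⟨g j, hD.gmem j⟩ : R0) • Z (b i l j * w) l = 0) : θ.h (Y 1) := by
  obtain ⟨M1, i1, i2, ev, hC⟩ := coind k0 R0 d g hD M0
  obtain ⟨y, hy⟩ := hC.lift Y hY hY0
  have hzex : ∀ l, ∃ f : M1, ∀ w, ev w f = Z w l := fun l =>
    hC.lift (fun w => Z w l) (fun w w' => hZ w w' l) (fun c w => hZ0 c w l)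
  choose z hz using hzex
  have key : ∀ (c : Fin d → k) (f : M1) (w : k),
      ev w ((∑ j, algebraMap k R (c j) * g j) • f) =
        ∑ j, (⟨g j, hD.gmem j⟩ : R0) • ev (c j * w) f := by
    intro c f w
    rw [Finset.sum_smul, map_sum]
    refine Finset.sum_congr rfl fun j _ => ?_
    rw [mul_smul, hC.zsm]
    have := hC.rsm (w * c j) (⟨g j, hD.gmem j⟩ : R0) f
    rw [mul_comm (c j) w, ← this]
  have heqs : ∀ i, (∑ j, algebraMap k R (a i j) * g j) • y +
        ∑ l, (∑ j, algebraMap k R (b i l j) * g j) • z l = 0 := by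
    intro i
    apply hC.ext
    intro w
    rw [map_add, map_sum, key]
    simp only [key, hy, hz]
    exact heq i w
  have hθ : θ.up.h y := hσ M1 (coind_mem k0 R0 d g hD M0 M1 ev hC hM0 φ ψ h) y z heqs
  obtain ⟨u, hu⟩ := hθ
  refine ⟨fun l => ev 1 (u l), fun i => ?_⟩
  have h1 := congrArg (ev 1) (hu i)
  rw [map_add, map_sum, map_sum, map_zero] at h1
  rw [← h1]
  congr 1
  · refine Finset.sum_congr rfl fun j _ => ?_
    rw [← hy 1]
    exact (hC.rsm 1 (θ.A i j) y).symm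
  · refine Finset.sum_congr rfl fun l _ => ?_
    exact (hC.rsm 1 (θ.B i l) (u l)).symm

end Pool.Agent.Helper232.RZ
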