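import Mathlib
import Pool.Agent.Helper232.RZ.Defs

set_option autoImplicit false

namespace Pool.Agent.Helper232.RZ


theorem sysPP_key {R : Type} [Ring R] {M : Type} [AddCommGroup M] [Module R M] {I : Type}
    (a : I →₀ R) (W : Finset I) (h : a.support ⊆ W) (u : I → M) :
    (a.sum fun i r => r • u i) =
      ∑ l : Fin W.card, a (W.equivFin.symm l : I) • u (W.equivFin.symm l : I) := by
  rw [Finsupp.sum_of_support_subset a h _ (fun i _ => zero_smul R (u i)),
    ← Finset.sum_coe_sort W (fun i => a i • u i)]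
  exact (Equiv.sum_comp W.equivFin.symm (fun i : W => a (i : I) • u (i : I))).symm

theorem sysPP {R : Type} [Ring R] {n : ℕ} (I J : Type) (F : Finset J) (α : J → I →₀ R)
    (β : J → Fin n → R) :
    ∃ φ : PP R n, ∀ (M : Type) [AddCommGroup M] [Module R M] (x : Fin n → M),
      φ.H x ↔ ∃ u : I → M, ∀ j ∈ F, ((α j).sum fun i r => r • u i) + ∑ i, β j i • x i = 0 := by
  classical
  let W : Finset I := F.biUnion (fun j => (α j).support)
  have hW : ∀ j ∈ F, (α j).support ⊆ W := fun j hj =>
    Finset.subset_biUnion_of_mem (fun j => (α j).support) hj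
  refine ⟨⟨F.card, W.card, fun i j => β (F.equivFin.symm i : J) j,
    fun i l => α (F.equivFin.symm i : J) (W.equivFin.symm l : I)⟩, ?_⟩
  intro M _ _ x
  constructor
  · rintro ⟨y, hy⟩
    refine ⟨fun i => if h : i ∈ W then y (W.equivFin ⟨i, h⟩) else 0, ?_⟩
    intro j hj
    rw [sysPP_key (α j) W (hW j hj)]
    have h1 := hy (F.equivFin ⟨j, hj⟩)
    simp only [Equiv.symm_apply_apply] at h1
    rw [add_comm]
    rw [← h1]
    congr 1
    apply Finset.sum_congr rfl
    intro l _
    rw [dif_pos (W.equivFin.symm l).2]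
    simp
  · rintro ⟨u, hu⟩
    refine ⟨fun l => u (W.equivFin.symm l : I), ?_⟩
    intro i
    have h1 := hu (F.equivFin.symm i : J) (F.equivFin.symm i).2
    rw [sysPP_key (α (F.equivFin.symm i : J)) W (hW _ (F.equivFin.symm i).2)] at h1
    rw [add_comm] at h1
    exact h1

end Pool.Agent.Helper232.RZ
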