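import Mathlib
import Pool.Agent.Helper232.RZ.Defs
import Pool.Agent.Helper232.RZ.N_sysPP

set_option autoImplicit false

namespace Pool.Agent.Helper232.RZ


private theorem formulas_sys {R : Type} [Ring R] {n : ℕ} (I J : Type) [Fintype I] [Fintype J]
    (α : J → I → R) (β : J → Fin n → R) :
    ∃ φ : PP R n, ∀ (M : Type) [AddCommGroup M] [Module R M] (x : Fin n → M),
      φ.H x ↔ ∃ u : I → M, ∀ j, (∑ i, α j i • u i) + ∑ i, β j i • x i = 0 := by
  classical
  obtain ⟨φ, hφ⟩ := sysPP I J Finset.univ (fun j => Finsupp.equivFunOnFinite.symm (α j)) β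
  refine ⟨φ, fun M _ _ x => ?_⟩
  rw [hφ M x]
  refine exists_congr fun u => ?_
  have hs : ∀ j, ((Finsupp.equivFunOnFinite.symm (α j)).sum fun i r => r • u i) =
      ∑ i, α j i • u i := by
    intro j
    rw [Finsupp.sum_fintype]
    · rfl
    · intro i; exact zero_smul _ _
  constructor
  · intro h j
    have h1 := h j (Finset.mem_univ j)
    rw [hs] at h1
    exact h1
  · intro h j _
    rw [hs]
    exact h j

private theorem formulas_main {R : Type} [Ring R] (ρ : PP R 2) (θ : PP R 1) :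
    ∃ ζ : PP R 1, ∀ (M : Type) [AddCommGroup M] [Module R M] (x : M),
      ζ.h x ↔ ∃ y : M, ρ.H ![x, y] ∧ θ.h y := by
  obtain ⟨φ, hφ⟩ := formulas_sys (R := R) (n := 1) (Unit ⊕ (Fin ρ.p ⊕ Fin θ.p)) (Fin ρ.m ⊕ Fin θ.m)
    (fun j i => match j, i with
      | Sum.inl a, Sum.inl _ => ρ.A a 1
      | Sum.inl a, Sum.inr (Sum.inl l) => ρ.B a l
      | Sum.inl _, Sum.inr (Sum.inr _) => 0
      | Sum.inr a, Sum.inl _ => θ.A a 0
      | Sum.inr _, Sum.inr (Sum.inl _) => 0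
      | Sum.inr a, Sum.inr (Sum.inr l) => θ.B a l)
    (fun j _ => match j with
      | Sum.inl a => ρ.A a 0
      | Sum.inr _ => 0)
  refine ⟨φ, fun M _ _ x => ?_⟩
  unfold PP.h
  rw [hφ M]
  constructor
  · rintro ⟨u, hu⟩
    refine ⟨u (Sum.inl ()), ⟨fun l => u (Sum.inr (Sum.inl l)), fun i => ?_⟩,
      ⟨fun l => u (Sum.inr (Sum.inr l)), fun i => ?_⟩⟩
    · have h := hu (Sum.inl i)
      simp only [Fintype.sum_sum_type, Finset.univ_unique, Finset.sum_singleton, zero_smul,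
        Finset.sum_const_zero, add_zero] at h
      rw [Fin.sum_univ_two]
      simp only [Matrix.cons_val_zero, Matrix.cons_val_one]
      rw [← h]
      abel_nf
      try rfl
    · have h := hu (Sum.inr i)
      simp only [Fintype.sum_sum_type, Finset.univ_unique, Finset.sum_singleton, zero_smul,
        Finset.sum_const_zero, add_zero, zero_add] at h
      rw [Fin.sum_univ_one]
      exact h
  · rintro ⟨y, ⟨v, hv⟩, ⟨w, hw⟩⟩
    refine ⟨fun i => match i with
      | Sum.inl _ => y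
      | Sum.inr (Sum.inl l) => v l
      | Sum.inr (Sum.inr l) => w l, fun j => ?_⟩
    rcases j with i | i
    · have h := hv i
      rw [Fin.sum_univ_two] at h
      simp only [Matrix.cons_val_zero, Matrix.cons_val_one] at h
      simp only [Fintype.sum_sum_type, Finset.univ_unique, Finset.sum_singleton, zero_smul,
        Finset.sum_const_zero, add_zero]
      rw [← h]
      abel_nf
      try rfl
    · have h := hw i
      rw [Fin.sum_univ_one] at h
      simp only [Fintype.sum_sum_type, Finset.univ_unique, Finset.sum_singleton, zero_smul,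
        Finset.sum_const_zero, add_zero, zero_add]
      exact h

private theorem formulas_zero {R : Type} [Ring R] :
    ∃ ζ : PP R 1, ∀ (M : Type) [AddCommGroup M] [Module R M] (x : M), ζ.h x ↔ x = 0 := by
  refine ⟨⟨1, 0, fun _ _ => 1, fun _ l => l.elim0⟩, fun M _ _ x => ?_⟩
  unfold PP.h PP.H
  simp

private theorem formulas_top {R : Type} [Ring R] :
    ∃ ζ : PP R 1, ∀ (M : Type) [AddCommGroup M] [Module R M] (x : M), ζ.h x := by
  refine ⟨⟨0, 0, fun _ _ => 1, fun _ l => l.elim0⟩, fun M _ _ x => ?_⟩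
  exact ⟨fun _ => 0, fun i => i.elim0⟩

theorem formulas {R : Type} [Ring R] :
    (∃ ζ : PP R 1, ∀ (M : Type) [AddCommGroup M] [Module R M] (x : M), ζ.h x ↔ x = 0) ∧
    (∃ ζ : PP R 1, ∀ (M : Type) [AddCommGroup M] [Module R M] (x : M), ζ.h x) ∧
    (∀ τ θ : PP R 1, ∃ ζ : PP R 1, ∀ (M : Type) [AddCommGroup M] [Module R M] (x : M),
      ζ.h x ↔ ∃ u t : M, τ.h u ∧ θ.h t ∧ x = u + t) ∧
    (∀ ρ : PP R 2, ∃ ζ : PP R 1, ∀ (M : Type) [AddCommGroup M] [Module R M] (y : M),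
      ζ.h y ↔ ρ.H ![0, y]) ∧
    (∀ ρ : PP R 2, ∃ ζ : PP R 1, ∀ (M : Type) [AddCommGroup M] [Module R M] (x : M),
      ζ.h x ↔ ρ.H ![x, 0]) ∧
    (∀ ρ : PP R 2, ∃ ζ : PP R 1, ∀ (M : Type) [AddCommGroup M] [Module R M] (x : M),
      ζ.h x ↔ ∃ y : M, ρ.H ![x, y]) ∧
    (∀ (ρ : PP R 2) (θ : PP R 1), ∃ ζ : PP R 1, ∀ (M : Type) [AddCommGroup M] [Module R M] (x : M),
      ζ.h x ↔ ∃ y : M, ρ.H ![x, y] ∧ θ.h y) := by
  refine ⟨formulas_zero, formulas_top, ?_, ?_, ?_, ?_, fun ρ θ => formulas_main ρ θ⟩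
  · intro τ θ
    obtain ⟨ζ, hζ⟩ := formulas_main (R := R)
      ⟨θ.m, θ.p, fun i j => if j = 0 then θ.A i 0 else - θ.A i 0, θ.B⟩ τ
    refine ⟨ζ, fun M _ _ x => ?_⟩
    rw [hζ M x]
    have key : ∀ y : M, PP.H (⟨θ.m, θ.p, fun i j => if j = 0 then θ.A i 0 else - θ.A i 0, θ.B⟩ :
        PP R 2) ![x, y] ↔ θ.h (x - y) := by
      intro y
      unfold PP.h PP.H
      refine exists_congr fun v => forall_congr' fun i => ?_
      rw [Fin.sum_univ_two, Fin.sum_univ_one]
      simp only [Matrix.cons_val_zero, Matrix.cons_val_one, if_true, one_ne_zero, if_false,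
        neg_smul, sub_eq_add_neg, smul_add, smul_neg]
    constructor
    · rintro ⟨y, h1, h2⟩
      exact ⟨y, x - y, h2, (key y).1 h1, by abel⟩
    · rintro ⟨u, t, h1, h2, rfl⟩
      refine ⟨u, (key u).2 ?_, h1⟩
      have : u + t - u = t := by abel
      rw [this]; exact h2
  · intro ρ
    refine ⟨⟨ρ.m, ρ.p, fun i _ => ρ.A i 1, ρ.B⟩, fun M _ _ x => ?_⟩
    unfold PP.h PP.H
    refine exists_congr fun v => forall_congr' fun i => ?_
    rw [Fin.sum_univ_two, Fin.sum_univ_one]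
    simp
  · intro ρ
    refine ⟨⟨ρ.m, ρ.p, fun i _ => ρ.A i 0, ρ.B⟩, fun M _ _ x => ?_⟩
    unfold PP.h PP.H
    refine exists_congr fun v => forall_congr' fun i => ?_
    rw [Fin.sum_univ_two, Fin.sum_univ_one]
    simp
  · intro ρ
    obtain ⟨tp, htp⟩ := formulas_top (R := R)
    obtain ⟨ζ, hζ⟩ := formulas_main ρ tp
    refine ⟨ζ, fun M _ _ x => ?_⟩
    rw [hζ M x]
    exact ⟨fun ⟨y, h, _⟩ => ⟨y, h⟩, fun ⟨y, h⟩ => ⟨y, h, htp M y⟩⟩

end Pool.Agent.Helper232.RZ
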