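import Mathlib
import Pool.Agent.Helper232.RZ.Defs

set_option autoImplicit false

namespace Pool.Agent.Helper232.RZ


theorem H_add {R : Type} [Ring R] {M : Type} [AddCommGroup M] [Module R M] {n : ℕ} (φ : PP R n)
    (x x' : Fin n → M) : (φ.H x → φ.H x' → φ.H (fun i => x i + x' i)) ∧
      (φ.H x → φ.H (fun i => - x i)) ∧ φ.H (fun _ => (0 : M)) ∧
      (∀ z : R, (∀ r : R, z * r = r * z) → φ.H x → φ.H (fun i => z • x i)) := by
  refine ⟨?_, ?_, ?_, ?_⟩
  · rintro ⟨y, hy⟩ ⟨y', hy'⟩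
    refine ⟨fun l => y l + y' l, fun i => ?_⟩
    have h1 := hy i
    have h2 := hy' i
    simp only [smul_add, Finset.sum_add_distrib]
    calc _ = ((∑ j, φ.A i j • x j) + ∑ l, φ.B i l • y l) +
        ((∑ j, φ.A i j • x' j) + ∑ l, φ.B i l • y' l) := by abel
      _ = 0 := by rw [h1, h2, add_zero]
  · rintro ⟨y, hy⟩
    refine ⟨fun l => - y l, fun i => ?_⟩
    simp only [smul_neg, Finset.sum_neg_distrib]
    rw [← neg_add, hy i, neg_zero]
  · refine ⟨fun _ => 0, fun i => ?_⟩
    simp only [smul_zero, Finset.sum_const_zero, add_zero]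
  · rintro z hz ⟨y, hy⟩
    refine ⟨fun l => z • y l, fun i => ?_⟩
    have e1 : ∀ j, φ.A i j • z • x j = z • φ.A i j • x j := by
      intro j
      rw [smul_smul, smul_smul, hz]
    have e2 : ∀ l, φ.B i l • z • y l = z • φ.B i l • y l := by
      intro l
      rw [smul_smul, smul_smul, hz]
    simp only [e1, e2]
    rw [← Finset.smul_sum, ← Finset.smul_sum, ← smul_add, hy i, smul_zero]

end Pool.Agent.Helper232.RZ
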