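import Mathlib
import Pool.Agent.Helper232.RZ.Defs

set_option autoImplicit false

namespace Pool.Agent.Helper232.RZ


private theorem circ_sep_J : ∃ J : AddCircle (1 : ℚ) →+ AddCircle (1 : ℝ), ∀ x, J x = 0 → x = 0 := by
  let c : ℚ →+ ℝ := (Rat.castHom ℝ).toAddMonoidHom
  have hle : AddSubgroup.zmultiples (1 : ℚ) ≤ (AddSubgroup.zmultiples (1 : ℝ)).comap c := by
    intro q hq
    obtain ⟨n, hn⟩ := AddSubgroup.mem_zmultiples_iff.mp hq
    rw [AddSubgroup.mem_comap]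
    refine AddSubgroup.mem_zmultiples_iff.mpr ⟨n, ?_⟩
    rw [← hn]
    show n • (1 : ℝ) = ((n • (1 : ℚ) : ℚ) : ℝ)
    simp
  refine ⟨QuotientAddGroup.map _ _ c hle, fun x hx => ?_⟩
  obtain ⟨q, rfl⟩ := QuotientAddGroup.mk_surjective x
  have h1 : ((c q : ℝ) : AddCircle (1 : ℝ)) = 0 := hx
  rw [AddCircle.coe_eq_zero_iff] at h1
  obtain ⟨n, hn⟩ := h1
  show ((q : ℚ) : AddCircle (1 : ℚ)) = 0
  rw [AddCircle.coe_eq_zero_iff]
  refine ⟨n, ?_⟩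
  have h2 : n • (1 : ℝ) = ((q : ℚ) : ℝ) := hn
  have h3 : ((n : ℚ) : ℝ) = ((q : ℚ) : ℝ) := by
    rw [← h2]; simp
  have h4 : (n : ℚ) = q := by exact_mod_cast h3
  rw [← h4]; simp

theorem circ_sep {B : Type} [AddCommGroup B] (b : B) (hb : b ≠ 0) : ∃ G : B →+ TT, G b ≠ 0 := by
  obtain ⟨c, hc⟩ := CharacterModule.exists_character_apply_ne_zero_of_ne_zero hb
  obtain ⟨J, hJ⟩ := circ_sep_J
  let c' : B →+ AddCircle (1 : ℚ) := c
  refine ⟨J.comp c', fun h => hc ?_⟩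
  exact hJ _ h

end Pool.Agent.Helper232.RZ
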