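import Mathlib
import Pool.Agent.Helper232.RZ.Defs

set_option autoImplicit false

namespace Pool.Agent.Helper232.RZ


private theorem dd_ac_ap_sum {R : Type} [Ring R] {M : Type} [AddCommGroup M] [Module R M]
    {I : Type} (a : I →₀ R) (y : I → DD M) (χ : M →+ TT) :
    DD.ap (a.sum fun i r => r • y i) χ = a.sum fun i r => (y i).ap (χ.comp (rmul r)) := by
  have h1 : ∀ Ξ : DD M, DD.ap Ξ χ = (AddMonoidHom.mk' (fun Ξ : DD M => DD.ap Ξ χ) (fun _ _ => rfl)) Ξ :=
    fun _ => rfl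
  rw [h1]
  unfold Finsupp.sum
  rw [map_sum]
  rfl

theorem dd_ac {R : Type} [Ring R] (M : Type) [AddCommGroup M] [Module R M] : AC R (DD M) := by
  intro I J a b hfin
  haveI : Fact ((0 : ℝ) < 1) := ⟨one_pos⟩
  haveI : CompactSpace TT := inferInstance
  obtain ⟨s, hs⟩ : ∃ s : Set (I → (M →+ TT) → TT),
    s = {x | ∀ (i : I) (χ χ' : M →+ TT), x i (χ + χ') = x i χ + x i χ'} := ⟨_, rfl⟩
  obtain ⟨t, ht⟩ : ∃ t : J → Set (I → (M →+ TT) → TT),
    t = fun j => {x | ∀ χ : M →+ TT, ((a j).sum fun i r => x i (χ.comp (rmul r))) = (b j).ap χ} :=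
    ⟨_, rfl⟩
  have hsc : IsClosed s := by
    rw [hs]
    simp only [Set.setOf_forall]
    refine isClosed_iInter fun i => isClosed_iInter fun χ => isClosed_iInter fun χ' => ?_
    exact isClosed_eq (by fun_prop) (by fun_prop)
  have htc : ∀ j, IsClosed (t j) := by
    intro j
    rw [ht]
    simp only [Set.setOf_forall]
    refine isClosed_iInter fun χ => ?_
    refine isClosed_eq ?_ continuous_const
    unfold Finsupp.sum
    refine continuous_finset_sum _ fun i _ => ?_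
    fun_prop
  have key : (s ∩ ⋂ j, t j).Nonempty := by
    refine hsc.isCompact.inter_iInter_nonempty t htc ?_
    intro F
    obtain ⟨x, hx⟩ := hfin F
    refine ⟨fun i χ => (x i).ap χ, ?_, ?_⟩
    · rw [hs]
      intro i χ χ'
      exact map_add (show (M →+ TT) →+ TT from x i) χ χ'
    · rw [Set.mem_iInter₂]
      intro j hj
      rw [ht]
      intro χ
      rw [← hx j hj, dd_ac_ap_sum]
  obtain ⟨x, hx1, hx2⟩ := key
  rw [hs] at hx1
  refine ⟨fun i => (AddMonoidHom.mk' (x i) (hx1 i) : (M →+ TT) →+ TT), fun j => ?_⟩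
  have h2 := Set.mem_iInter.1 hx2 j
  rw [ht] at h2
  refine AddMonoidHom.ext fun χ => ?_
  show DD.ap _ χ = DD.ap (b j) χ
  rw [dd_ac_ap_sum, ← h2 χ]
  rfl

end Pool.Agent.Helper232.RZ
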