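import Mathlib
import Pool.Agent.Helper232.RZ.Defs

set_option autoImplicit false

namespace Pool.Agent.Helper232.RZ


theorem circ_ext {A B : Type} [AddCommGroup A] [AddCommGroup B] (f : A →+ B) (g : A →+ TT)
    (h : ∀ a, f a = 0 → g a = 0) : ∃ G : B →+ TT, ∀ a, G (f a) = g a := by
  obtain ⟨G, hG⟩ := (Module.Baer.of_divisible TT).extension_property_addMonoidHom
    (QuotientAddGroup.kerLift f) (QuotientAddGroup.kerLift_injective f)
    (QuotientAddGroup.lift f.ker g (fun a ha => h a ha))
  refine ⟨G, fun a => ?_⟩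
  have h1 := DFunLike.congr_fun hG (QuotientAddGroup.mk a)
  simpa using h1

end Pool.Agent.Helper232.RZ
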