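import Mathlib
import Pool.Agent.Helper232.RZ.Defs
import Pool.Agent.Helper232.RZ.N_circ_ext

set_option autoImplicit false

namespace Pool.Agent.Helper232.RZ


theorem dd_char_ap_sum {M : Type} [AddCommGroup M] {ι : Type} (s : Finset ι) (Ξ : DD M)
    (χ : ι → (M →+ TT)) : Ξ.ap (∑ i ∈ s, χ i) = ∑ i ∈ s, Ξ.ap (χ i) :=
  map_sum (show (M →+ TT) →+ TT from Ξ) χ s

theorem dd_char_ap_zero {M : Type} [AddCommGroup M] (Ξ : DD M) : Ξ.ap 0 = 0 :=
  map_zero (show (M →+ TT) →+ TT from Ξ)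

theorem dd_char_sum_ap {M : Type} [AddCommGroup M] {ι : Type} (s : Finset ι) (Ξ : ι → DD M)
    (χ : M →+ TT) : (∑ i ∈ s, Ξ i).ap χ = ∑ i ∈ s, (Ξ i).ap χ :=
  map_sum (AddMonoidHom.mk' (fun Ξ : DD M => Ξ.ap χ) (fun a b => DD.add_ap a b χ)) Ξ s

theorem dd_char_zero_ap {M : Type} [AddCommGroup M] (χ : M →+ TT) : (0 : DD M).ap χ = 0 :=
  map_zero (AddMonoidHom.mk' (fun Ξ : DD M => Ξ.ap χ) (fun a b => DD.add_ap a b χ))

theorem dd_char_ext {M : Type} [AddCommGroup M] (Ξ : DD M) (h : ∀ χ : M →+ TT, Ξ.ap χ = 0) :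
    Ξ = 0 :=
  AddMonoidHom.ext (f := (show (M →+ TT) →+ TT from Ξ)) (g := 0) h

theorem dd_char_pi {X : Type} [AddCommGroup X] {m : ℕ} (G : (Fin m → X) →+ TT) (z : Fin m → X) :
    G z = ∑ i, G (Pi.single i (z i)) := by
  conv_lhs => rw [← Finset.univ_sum_single z]
  rw [map_sum]

theorem dd_char_mp {R : Type} [Ring R] {M : Type} [AddCommGroup M] [Module R M] {n : ℕ}
    (φ : PP R n) (Ξ : Fin n → DD M) (hΞ : φ.H Ξ) (χ : Fin n → (M →+ TT))
    (hχ : ∀ x : Fin n → M, φ.H x → ∑ j, χ j (x j) = 0) : ∑ j, (Ξ j).ap (χ j) = 0 := by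
  obtain ⟨Υ, hΥ⟩ := hΞ
  let f : (Fin n → M) × (Fin φ.p → M) →+ (Fin φ.m → M) := AddMonoidHom.mk'
    (fun q i => (∑ j, φ.A i j • q.1 j) + ∑ l, φ.B i l • q.2 l) (by
      intro q q'
      funext i
      simp only [Prod.fst_add, Prod.snd_add, Pi.add_apply, smul_add, Finset.sum_add_distrib]
      abel)
  let g : (Fin n → M) × (Fin φ.p → M) →+ TT := AddMonoidHom.mk'
    (fun q => ∑ j, χ j (q.1 j)) (by
      intro q q'
      simp only [Prod.fst_add, Pi.add_apply, map_add, Finset.sum_add_distrib])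
  obtain ⟨G, hG⟩ := circ_ext f g (by
    intro q hq
    exact hχ q.1 ⟨q.2, fun i => congrFun hq i⟩)
  let ξ : Fin φ.m → (M →+ TT) := fun i => G.comp (AddMonoidHom.single (fun _ : Fin φ.m => M) i)
  have hξ : ∀ z : Fin φ.m → M, G z = ∑ i, ξ i (z i) := fun z => dd_char_pi G z
  have h1 : ∀ j, χ j = ∑ i, (ξ i).comp (rmul (φ.A i j)) := by
    intro j
    ext a
    have h2 := hG (Pi.single j a, 0)
    have h3 : g (Pi.single j a, 0) = χ j a := by
      show ∑ j', χ j' ((Pi.single j a : Fin n → M) j') = χ j a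
      rw [Finset.sum_eq_single j]
      · rw [Pi.single_eq_same]
      · intro b _ hb
        rw [Pi.single_eq_of_ne hb, map_zero]
      · intro h
        exact absurd (Finset.mem_univ j) h
    have h4 : f (Pi.single j a, 0) = fun i => φ.A i j • a := by
      funext i
      show (∑ j', φ.A i j' • (Pi.single j a : Fin n → M) j') + ∑ l, φ.B i l • (0 : Fin φ.p → M) l
        = φ.A i j • a
      rw [Finset.sum_eq_single j, Pi.single_eq_same]
      · simp
      · intro b _ hb
        rw [Pi.single_eq_of_ne hb, smul_zero]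
      · intro h
        exact absurd (Finset.mem_univ j) h
    rw [h3, h4, hξ] at h2
    rw [← h2, AddMonoidHom.finsetSum_apply]
    rfl
  have h5 : ∀ l, ∑ i, (ξ i).comp (rmul (φ.B i l)) = 0 := by
    intro l
    ext a
    have h2 := hG (0, Pi.single l a)
    have h3 : g (0, Pi.single l a) = 0 := by
      show ∑ j', χ j' ((0 : Fin n → M) j') = 0
      simp
    have h4 : f (0, Pi.single l a) = fun i => φ.B i l • a := by
      funext i
      show (∑ j', φ.A i j' • (0 : Fin n → M) j') + ∑ l', φ.B i l' • (Pi.single l a : Fin φ.p → M) l'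
        = φ.B i l • a
      rw [Finset.sum_eq_single (s := (Finset.univ : Finset (Fin φ.p))) l, Pi.single_eq_same]
      · simp
      · intro b _ hb
        rw [Pi.single_eq_of_ne hb, smul_zero]
      · intro h
        exact absurd (Finset.mem_univ l) h
    rw [h3, h4, hξ] at h2
    rw [AddMonoidHom.finsetSum_apply]
    exact h2
  have h6 : ∑ j, (Ξ j).ap (χ j) = ∑ i, (∑ j, φ.A i j • Ξ j).ap (ξ i) := by
    calc ∑ j, (Ξ j).ap (χ j) = ∑ j, ∑ i, (Ξ j).ap ((ξ i).comp (rmul (φ.A i j))) := by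
          apply Finset.sum_congr rfl
          intro j _
          rw [h1 j, dd_char_ap_sum]
      _ = ∑ i, ∑ j, (Ξ j).ap ((ξ i).comp (rmul (φ.A i j))) := Finset.sum_comm
      _ = ∑ i, (∑ j, φ.A i j • Ξ j).ap (ξ i) := by
          apply Finset.sum_congr rfl
          intro i _
          rw [dd_char_sum_ap]
          rfl
  have h7 : ∑ i, (∑ l, φ.B i l • Υ l).ap (ξ i) = 0 := by
    calc ∑ i, (∑ l, φ.B i l • Υ l).ap (ξ i) =
        ∑ i, ∑ l, (Υ l).ap ((ξ i).comp (rmul (φ.B i l))) := by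
          apply Finset.sum_congr rfl
          intro i _
          rw [dd_char_sum_ap]
          rfl
      _ = ∑ l, ∑ i, (Υ l).ap ((ξ i).comp (rmul (φ.B i l))) := Finset.sum_comm
      _ = 0 := by
          apply Finset.sum_eq_zero
          intro l _
          rw [← dd_char_ap_sum, h5 l, dd_char_ap_zero]
  have h8 : ∑ i, (∑ j, φ.A i j • Ξ j).ap (ξ i) + ∑ i, (∑ l, φ.B i l • Υ l).ap (ξ i) = 0 := by
    rw [← Finset.sum_add_distrib]
    apply Finset.sum_eq_zero
    intro i _
    rw [← DD.add_ap, hΥ i, dd_char_zero_ap]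
  rw [h7, add_zero] at h8
  rw [h6, h8]

theorem dd_char_mpr {R : Type} [Ring R] {M : Type} [AddCommGroup M] [Module R M] {n : ℕ}
    (φ : PP R n) (Ξ : Fin n → DD M) (hΞ : ∀ χ : Fin n → (M →+ TT),
      (∀ x : Fin n → M, φ.H x → ∑ j, χ j (x j) = 0) → ∑ j, (Ξ j).ap (χ j) = 0) : φ.H Ξ := by
  let β : (Fin φ.m → (M →+ TT)) →+ (Fin φ.p → (M →+ TT)) := AddMonoidHom.mk'
    (fun ξ l => ∑ i, (ξ i).comp (rmul (φ.B i l))) (by
      intro ξ ξ'
      funext l
      simp only [Pi.add_apply, AddMonoidHom.add_comp, Finset.sum_add_distrib])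
  let g : (Fin φ.m → (M →+ TT)) →+ TT := AddMonoidHom.mk'
    (fun ξ => -∑ j, ∑ i, (Ξ j).ap ((ξ i).comp (rmul (φ.A i j)))) (by
      intro ξ ξ'
      have h1 : ∀ (j : Fin n) (i : Fin φ.m), (Ξ j).ap (((ξ + ξ') i).comp (rmul (φ.A i j))) =
          (Ξ j).ap ((ξ i).comp (rmul (φ.A i j))) + (Ξ j).ap ((ξ' i).comp (rmul (φ.A i j))) := by
        intro j i
        rw [Pi.add_apply, AddMonoidHom.add_comp]
        exact map_add (show (M →+ TT) →+ TT from Ξ j) _ _
      simp only [h1, Finset.sum_add_distrib, neg_add])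
  obtain ⟨G, hG⟩ := circ_ext β g (by
    intro ξ hξ
    have h1 := hΞ (fun j => ∑ i, (ξ i).comp (rmul (φ.A i j))) (by
      rintro x ⟨y, hy⟩
      have h2 : ∑ j, (∑ i, (ξ i).comp (rmul (φ.A i j))) (x j) =
          ∑ i, ξ i (∑ j, φ.A i j • x j) := by
        calc ∑ j, (∑ i, (ξ i).comp (rmul (φ.A i j))) (x j) =
            ∑ j, ∑ i, ξ i (φ.A i j • x j) := by
              apply Finset.sum_congr rfl
              intro j _
              rw [AddMonoidHom.finsetSum_apply]
              rfl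
          _ = ∑ i, ∑ j, ξ i (φ.A i j • x j) := Finset.sum_comm
          _ = ∑ i, ξ i (∑ j, φ.A i j • x j) := by
              apply Finset.sum_congr rfl
              intro i _
              rw [map_sum]
      have h3 : ∑ i, ξ i (∑ l, φ.B i l • y l) = 0 := by
        calc ∑ i, ξ i (∑ l, φ.B i l • y l) = ∑ i, ∑ l, ξ i (φ.B i l • y l) := by
              apply Finset.sum_congr rfl
              intro i _
              rw [map_sum]
          _ = ∑ l, ∑ i, ξ i (φ.B i l • y l) := Finset.sum_comm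
          _ = ∑ l, (β ξ l) (y l) := by
              apply Finset.sum_congr rfl
              intro l _
              show _ = (∑ i, (ξ i).comp (rmul (φ.B i l))) (y l)
              rw [AddMonoidHom.finsetSum_apply]
              rfl
          _ = 0 := by
              rw [hξ]
              simp
      have h4 : ∑ i, ξ i (∑ j, φ.A i j • x j) + ∑ i, ξ i (∑ l, φ.B i l • y l) = 0 := by
        rw [← Finset.sum_add_distrib]
        apply Finset.sum_eq_zero
        intro i _
        rw [← map_add, hy i, map_zero]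
      rw [h3, add_zero] at h4
      rw [h2, h4])
    show -∑ j, ∑ i, (Ξ j).ap ((ξ i).comp (rmul (φ.A i j))) = 0
    rw [neg_eq_zero, ← h1]
    apply Finset.sum_congr rfl
    intro j _
    rw [dd_char_ap_sum])
  refine ⟨fun l => (show DD M from
    G.comp (AddMonoidHom.single (fun _ : Fin φ.p => (M →+ TT)) l)), ?_⟩
  intro i
  apply dd_char_ext
  intro ξ'
  rw [DD.add_ap, dd_char_sum_ap, dd_char_sum_ap]
  have h1 : ∑ l, (φ.B i l • (show DD M from
      G.comp (AddMonoidHom.single (fun _ : Fin φ.p => (M →+ TT)) l))).ap ξ' =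
      G (β (Pi.single i ξ')) := by
    rw [dd_char_pi G]
    apply Finset.sum_congr rfl
    intro l _
    have h2 : β (Pi.single i ξ') l = ξ'.comp (rmul (φ.B i l)) := by
      show ∑ i', ((Pi.single i ξ' : Fin φ.m → (M →+ TT)) i').comp (rmul (φ.B i' l)) = _
      rw [Finset.sum_eq_single i, Pi.single_eq_same]
      · intro b _ hb
        rw [Pi.single_eq_of_ne hb, AddMonoidHom.zero_comp]
      · intro h
        exact absurd (Finset.mem_univ i) h
    rw [h2]
    rfl
  have h3 : G (β (Pi.single i ξ')) = -∑ j, (φ.A i j • Ξ j).ap ξ' := by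
    rw [hG]
    show -∑ j, ∑ i', (Ξ j).ap (((Pi.single i ξ' : Fin φ.m → (M →+ TT)) i').comp (rmul (φ.A i' j))) = _
    congr 1
    apply Finset.sum_congr rfl
    intro j _
    rw [Finset.sum_eq_single i, Pi.single_eq_same]
    · rfl
    · intro b _ hb
      rw [Pi.single_eq_of_ne hb, AddMonoidHom.zero_comp]
      exact dd_char_ap_zero _
    · intro h
      exact absurd (Finset.mem_univ i) h
  rw [h1, h3, add_neg_cancel]

theorem dd_char {R : Type} [Ring R] {M : Type} [AddCommGroup M] [Module R M] {n : ℕ} (φ : PP R n)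
    (Ξ : Fin n → DD M) : φ.H Ξ ↔ ∀ χ : Fin n → (M →+ TT),
      (∀ x : Fin n → M, φ.H x → ∑ j, χ j (x j) = 0) → ∑ j, (Ξ j).ap (χ j) = 0 :=
  ⟨fun h χ hχ => dd_char_mp φ Ξ h χ hχ, fun h => dd_char_mpr φ Ξ h⟩

end Pool.Agent.Helper232.RZ
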