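import Mathlib
import Pool.Agent.Helper232.RZ.Defs
import Pool.Agent.Helper232.RZ.N_H_add
import Pool.Agent.Helper232.RZ.N_circ_sep
import Pool.Agent.Helper232.RZ.N_dd_char
import Pool.Agent.Helper232.RZ.N_dd_ac

set_option autoImplicit false

namespace Pool.Agent.Helper232.RZ


private noncomputable def pe_iota {R : Type} [Ring R] (M : Type) [AddCommGroup M] [Module R M] :
    M →ₗ[R] DD M where
  toFun m := (show (M →+ TT) →+ TT from AddMonoidHom.eval m)
  map_add' m m' := by
    refine AddMonoidHom.ext fun χ => ?_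
    show χ (m + m') = χ m + χ m'
    exact map_add χ m m'
  map_smul' r m := by
    refine AddMonoidHom.ext fun χ => ?_
    rfl

private theorem pe_iota_ap {R : Type} [Ring R] (M : Type) [AddCommGroup M] [Module R M] (m : M)
    (χ : M →+ TT) : (pe_iota (R := R) M m).ap χ = χ m := rfl

private theorem pe_pure {R : Type} [Ring R] {M : Type} [AddCommGroup M] [Module R M]
    {n : ℕ} (φ : PP R n) (x : Fin n → M)
    (h : φ.H (fun i => pe_iota (R := R) M (x i))) : φ.H x := by
  classical
  by_contra hx
  rw [dd_char] at h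
  let K : AddSubgroup (Fin n → M) :=
    { carrier := {x | φ.H x}
      add_mem' := fun {a b} ha hb => (H_add φ a b).1 ha hb
      zero_mem' := (H_add φ x x).2.2.1
      neg_mem' := fun {a} ha => (H_add φ a a).2.1 ha }
  have hb : (QuotientAddGroup.mk' K) x ≠ 0 := by
    intro hb
    have : x ∈ K := (QuotientAddGroup.eq_zero_iff x).1 hb
    exact hx this
  obtain ⟨G, hG⟩ := circ_sep _ hb
  have key : ∀ z : Fin n → M, ∑ j, ((G.comp (QuotientAddGroup.mk' K)).comp
      (AddMonoidHom.single (fun _ : Fin n => M) j)) (z j) = G (QuotientAddGroup.mk' K z) := by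
    intro z
    have hz : ∑ j, (AddMonoidHom.single (fun _ : Fin n => M) j) (z j) = z := by
      exact Finset.univ_sum_single z
    calc ∑ j, ((G.comp (QuotientAddGroup.mk' K)).comp
        (AddMonoidHom.single (fun _ : Fin n => M) j)) (z j)
        = ∑ j, (G.comp (QuotientAddGroup.mk' K))
            ((AddMonoidHom.single (fun _ : Fin n => M) j) (z j)) := rfl
      _ = (G.comp (QuotientAddGroup.mk' K))
            (∑ j, (AddMonoidHom.single (fun _ : Fin n => M) j) (z j)) := by rw [map_sum]
      _ = G (QuotientAddGroup.mk' K z) := by rw [hz]; rfl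
  have h2 := h (fun j => (G.comp (QuotientAddGroup.mk' K)).comp
      (AddMonoidHom.single (fun _ : Fin n => M) j)) ?_
  · simp only [pe_iota_ap] at h2
    rw [key] at h2
    exact hG h2
  · intro z hz
    rw [key]
    have hz0 : (QuotientAddGroup.mk' K) z = 0 := (QuotientAddGroup.eq_zero_iff z).2 hz
    rw [hz0, map_zero]

theorem pe {R : Type} [Ring R] (M : Type) [AddCommGroup M] [Module R M] :
    ∃ (M' : Type) (_ : AddCommGroup M') (_ : Module R M') (ι : M →ₗ[R] M'), AC R M' ∧
      (∀ (n : ℕ) (φ : PP R n) (x : Fin n → M), φ.H (fun i => ι (x i)) → φ.H x) ∧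
      ∀ (n : ℕ) (φ ψ : PP R n), (∀ x : Fin n → M, φ.H x → ψ.H x) →
        ∀ x : Fin n → M', φ.H x → ψ.H x := by
  refine ⟨DD M, inferInstance, inferInstance, pe_iota M, dd_ac M, ?_, ?_⟩
  · intro n φ x h
    exact pe_pure φ x h
  · intro n φ ψ himp Ξ hΞ
    rw [dd_char] at hΞ ⊢
    intro χ hχ
    exact hΞ χ fun x hx => hχ x (himp x hx)

end Pool.Agent.Helper232.RZ
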