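import Mathlib
import Pool.Agent.Helper232.RZ.Defs

set_option autoImplicit false

namespace Pool.Agent.Helper232.RZ


/-- the submodule of eventually vanishing families -/
private def rp_K {R : Type} [Ring R] (T : Type) (F : Filter T) (M : T → Type)
    [∀ t, AddCommGroup (M t)] [∀ t, Module R (M t)] : Submodule R (∀ t, M t) where
  carrier := {x | ∀ᶠ t in F, x t = 0}
  add_mem' := by
    intro a b ha hb
    filter_upwards [ha, hb] with t h1 h2
    rw [Pi.add_apply, h1, h2, add_zero]
  zero_mem' := Filter.Eventually.of_forall fun t => rfl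
  smul_mem' := by
    intro r a ha
    filter_upwards [ha] with t h1
    rw [Pi.smul_apply, h1, smul_zero]

private theorem rp_mem {R : Type} [Ring R] (T : Type) (F : Filter T) (M : T → Type)
    [∀ t, AddCommGroup (M t)] [∀ t, Module R (M t)] (x : ∀ t, M t) :
    x ∈ rp_K (R := R) T F M ↔ ∀ᶠ t in F, x t = 0 := Iff.rfl

private theorem rp_eq {R : Type} [Ring R] (T : Type) (F : Filter T) (M : T → Type)
    [∀ t, AddCommGroup (M t)] [∀ t, Module R (M t)] {n : ℕ} (φ : PP R n) (x : Fin n → ∀ t, M t)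
    (y : Fin φ.p → ∀ t, M t) (i : Fin φ.m) :
    (∑ j, φ.A i j • (rp_K (R := R) T F M).mkQ (x j)) + ∑ l, φ.B i l • (rp_K (R := R) T F M).mkQ (y l) = 0
      ↔ ∀ᶠ t in F, (∑ j, φ.A i j • x j t) + ∑ l, φ.B i l • y l t = 0 := by
  have e : (∑ j, φ.A i j • (rp_K (R := R) T F M).mkQ (x j)) + ∑ l, φ.B i l • (rp_K (R := R) T F M).mkQ (y l)
      = (rp_K (R := R) T F M).mkQ ((∑ j, φ.A i j • x j) + ∑ l, φ.B i l • y l) := by
    rw [map_add, map_sum, map_sum]
    first
      | rfl
      | (congr 1)
  rw [e, ← LinearMap.mem_ker, Submodule.ker_mkQ, rp_mem]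
  refine Filter.eventually_congr (Filter.Eventually.of_forall fun t => ?_)
  rw [Pi.add_apply, Finset.sum_apply, Finset.sum_apply]
  rfl

theorem rp {R : Type} [Ring R] (T : Type) (F : Filter T) (M : T → Type)
    [∀ t, AddCommGroup (M t)] [∀ t, Module R (M t)] :
    ∃ (Q : Type) (_ : AddCommGroup Q) (_ : Module R Q) (π : (∀ t, M t) →ₗ[R] Q),
      Function.Surjective π ∧ ∀ (n : ℕ) (φ : PP R n) (x : Fin n → ∀ t, M t),
        φ.H (fun i => π (x i)) ↔ ∀ᶠ t in F, φ.H (fun i => x i t) := by
  classical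
  refine ⟨(∀ t, M t) ⧸ rp_K (R := R) T F M, inferInstance, inferInstance,
    (rp_K (R := R) T F M).mkQ, Submodule.mkQ_surjective _, ?_⟩
  intro n φ x
  constructor
  · rintro ⟨y, hy⟩
    choose y' hy' using fun l => Submodule.mkQ_surjective (rp_K (R := R) T F M) (y l)
    have h1 : ∀ i, ∀ᶠ t in F, (∑ j, φ.A i j • x j t) + ∑ l, φ.B i l • y' l t = 0 := by
      intro i
      rw [← rp_eq]
      have := hy i
      simp only [hy']
      exact this
    rw [← Filter.eventually_all] at h1
    filter_upwards [h1] with t ht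
    exact ⟨fun l => y' l t, ht⟩
  · intro h
    refine ⟨fun l => (rp_K (R := R) T F M).mkQ
      (fun t => if h : φ.H (fun i => x i t) then h.choose l else 0), ?_⟩
    intro i
    rw [rp_eq]
    filter_upwards [h] with t ht
    have h2 := ht.choose_spec i
    simp only [dif_pos ht]
    exact h2

end Pool.Agent.Helper232.RZ
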