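import Mathlib
import Pool.Agent.Helper232.RZ.Defs
import Pool.Agent.Helper232.RZ.N_formulas
import Pool.Agent.Helper232.RZ.N_rp
import Pool.Agent.Helper232.RZ.N_pe

set_option autoImplicit false

namespace Pool.Agent.Helper232.RZ


theorem sys_cp {S : Type} [Ring S] {n : ℕ} (φ ψ : PP S n) (θ : PP S 1) (I J : Type)
    (α : J → I →₀ S) (Z0 : Set I) (i0 : I)
    (h : ∀ (M : Type) [AddCommGroup M] [Module S M], AC S M →
      (∀ x : Fin n → M, φ.H x → ψ.H x) → ∀ u : I → M,
      (∀ j, ((α j).sum fun i r => r • u i) = 0) → (∀ i ∈ Z0, u i = 0) → θ.h (u i0)) :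
    ∃ F : Finset J, ∀ (M : Type) [AddCommGroup M] [Module S M],
      (∀ x : Fin n → M, φ.H x → ψ.H x) → ∀ u : I → M,
      (∀ j ∈ F, ((α j).sum fun i r => r • u i) = 0) → (∀ i ∈ Z0, u i = 0) → θ.h (u i0) := by
  classical
  by_contra hcon
  push Not at hcon
  choose M iM iMod hφψ u hu hZ hθ using hcon
  letI : ∀ F, AddCommGroup (M F) := iM
  letI : ∀ F, Module S (M F) := iMod
  obtain ⟨Q, iQ, iQM, π, hπs, hπ⟩ := rp (R := S) (Finset J) Filter.atTop M
  obtain ⟨⟨ζ, hζ⟩, _⟩ := formulas (R := S)
  have hπ0 : ∀ x : ∀ F, M F, (∀ᶠ F in Filter.atTop, x F = 0) → π x = 0 := by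
    intro x hx
    apply (hζ Q (π x)).mp
    have h1 := (hπ 1 ζ (fun _ => x)).mpr (by
      filter_upwards [hx] with F hF
      exact (hζ (M F) (x F)).mpr hF)
    exact h1
  have hQφψ : ∀ x : Fin n → Q, φ.H x → ψ.H x := by
    intro x hx
    choose x' hx' using fun i => hπs (x i)
    have e : x = fun i => π (x' i) := by
      funext i
      exact (hx' i).symm
    rw [e] at hx ⊢
    rw [hπ] at hx ⊢
    filter_upwards [hx] with F hF
    exact hφψ F _ hF
  have hQeq : ∀ j, ((α j).sum fun i r => r • π (fun F => u F i)) = 0 := by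
    intro j
    have e1 : ((α j).sum fun i r => r • π (fun F => u F i))
        = π (fun F => (α j).sum fun i r => r • u F i) := by
      have e2 : (fun F => (α j).sum fun i r => r • u F i)
          = (α j).sum fun i r => r • (fun F => u F i : ∀ F, M F) := by
        funext F
        unfold Finsupp.sum
        rw [Finset.sum_apply]
        rfl
      rw [e2]
      unfold Finsupp.sum
      rw [map_sum]
      refine Finset.sum_congr rfl fun i _ => ?_
      rw [map_smul]
    rw [e1]
    apply hπ0
    filter_upwards [Filter.eventually_ge_atTop ({j} : Finset J)] with F hF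
    exact hu F j (hF (Finset.mem_singleton_self j))
  have hQZ : ∀ i ∈ Z0, π (fun F => u F i) = 0 := by
    intro i hi
    apply hπ0
    exact Filter.Eventually.of_forall fun F => hZ F i hi
  have hQθ : ¬ θ.h (π (fun F => u F i0)) := by
    intro hcon2
    have h1 := (hπ 1 θ (fun _ => fun F => u F i0)).mp hcon2
    obtain ⟨F, hF⟩ := h1.exists
    exact hθ F hF
  obtain ⟨M', iM', iMM', ι, hAC, hrefl, htr⟩ := pe (R := S) Q
  have hfin := h M' hAC (htr n φ ψ hQφψ) (fun i => ι (π (fun F => u F i)))
    (fun j => by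
      have e3 : ((α j).sum fun i r => r • ι (π (fun F => u F i)))
          = ι ((α j).sum fun i r => r • π (fun F => u F i)) := by
        unfold Finsupp.sum
        rw [map_sum]
        refine Finset.sum_congr rfl fun i _ => ?_
        rw [map_smul]
      rw [e3, hQeq j, map_zero])
    (fun i hi => by
      show ι (π (fun F => u F i)) = 0
      rw [hQZ i hi, map_zero])
  exact hQθ (hrefl 1 θ (fun _ => π (fun F => u F i0)) hfin)

end Pool.Agent.Helper232.RZ
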