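import Mathlib
import Pool.Agent.Helper232.RZ.Defs
import Pool.Agent.Helper232.RZ.N_sysPP

set_option autoImplicit false

namespace Pool.Agent.Helper232.RZ


private theorem to_formula_single {S : Type} [Ring S] {I : Type} {M : Type} [AddCommGroup M]
    [Module S M] (i : I) (u : I → M) :
    ((Finsupp.single i (1 : S)).sum fun i r => r • u i) = u i := by
  rw [Finsupp.sum_single_index (zero_smul S (u i)), one_smul]

private theorem to_formula_beta {S : Type} [Ring S] {n : ℕ} {M : Type} [AddCommGroup M]
    [Module S M] (k : Fin n) (x : Fin n → M) :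
    ∑ i, (if i = k then (-1 : S) else 0) • x i = - x k := by
  rw [Finset.sum_eq_single k]
  · rw [if_pos rfl, neg_smul, one_smul]
  · intro b _ hb
    rw [if_neg hb, zero_smul]
  · intro h
    exact absurd (Finset.mem_univ k) h

theorem to_formula {S : Type} [Ring S] (I J : Type) (α : J → I →₀ S) (F : Finset J) (Z0 : Set I)
    (i0 : I) (hi0 : i0 ∉ Z0) :
    ∃ (r : ℕ) (w : Fin r → I) (τ : PP S (r + 1)), (∀ l, w l ∈ Z0) ∧
      (∀ (M : Type) [AddCommGroup M] [Module S M] (u : I → M),
        (∀ j ∈ F, ((α j).sum fun i r => r • u i) = 0) →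
        τ.H (Matrix.vecCons (u i0) (fun l => u (w l)))) ∧
      ∀ (M : Type) [AddCommGroup M] [Module S M] (y : M),
        τ.H (Matrix.vecCons y (fun _ => (0 : M))) →
        ∃ u : I → M, u i0 = y ∧ (∀ i ∈ Z0, u i = 0) ∧
          ∀ j ∈ F, ((α j).sum fun i r => r • u i) = 0 := by
  classical
  let W : Finset I := (F.biUnion (fun j => (α j).support)).filter (fun i => i ∈ Z0)
  let w : Fin W.card → I := fun l => ((W.equivFin.symm l : W) : I)
  have hw : ∀ l, w l ∈ W := fun l => (W.equivFin.symm l).2
  have hw' : ∀ i ∈ W, ∃ l, w l = i := by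
    intro i hi
    refine ⟨W.equivFin ⟨i, hi⟩, ?_⟩
    simp only [w, Equiv.symm_apply_apply]
  let α' : J ⊕ Option (Fin W.card) → I →₀ S := fun t => match t with
    | Sum.inl j => α j
    | Sum.inr none => Finsupp.single i0 1
    | Sum.inr (some l) => Finsupp.single (w l) 1
  let β' : J ⊕ Option (Fin W.card) → Fin (W.card + 1) → S := fun t => match t with
    | Sum.inl _ => 0
    | Sum.inr none => fun i => if i = 0 then -1 else 0
    | Sum.inr (some l) => fun i => if i = l.succ then -1 else 0
  obtain ⟨τ, hτ⟩ := sysPP (R := S) (n := W.card + 1) I (J ⊕ Option (Fin W.card))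
    (F.disjSum Finset.univ) α' β'
  have key : ∀ (M : Type) [AddCommGroup M] [Module S M] (x : Fin (W.card + 1) → M),
      τ.H x ↔ ∃ u : I → M, (∀ j ∈ F, ((α j).sum fun i r => r • u i) = 0) ∧ u i0 = x 0 ∧
        ∀ l, u (w l) = x l.succ := by
    intro M _ _ x
    rw [hτ M x]
    constructor
    · rintro ⟨u, hu⟩
      refine ⟨u, ?_, ?_, ?_⟩
      · intro j hj
        have h := hu (Sum.inl j) (Finset.inl_mem_disjSum.mpr hj)
        have h2 : ∑ i, β' (Sum.inl j) i • x i = 0 := by
          apply Finset.sum_eq_zero
          intro i _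
          show (0 : S) • x i = 0
          rw [zero_smul]
        rw [h2, add_zero] at h
        exact h
      · have h := hu (Sum.inr none) (Finset.inr_mem_disjSum.mpr (Finset.mem_univ _))
        have h2 : ∑ i, β' (Sum.inr none) i • x i = - x 0 := to_formula_beta 0 x
        have h3 : ((α' (Sum.inr none)).sum fun i r => r • u i) = u i0 := to_formula_single i0 u
        rw [h2, h3] at h
        exact eq_of_sub_eq_zero (by rw [sub_eq_add_neg]; exact h)
      · intro l
        have h := hu (Sum.inr (some l)) (Finset.inr_mem_disjSum.mpr (Finset.mem_univ _))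
        have h2 : ∑ i, β' (Sum.inr (some l)) i • x i = - x l.succ := to_formula_beta l.succ x
        have h3 : ((α' (Sum.inr (some l))).sum fun i r => r • u i) = u (w l) :=
          to_formula_single (w l) u
        rw [h2, h3] at h
        exact eq_of_sub_eq_zero (by rw [sub_eq_add_neg]; exact h)
    · rintro ⟨u, hu1, hu2, hu3⟩
      refine ⟨u, ?_⟩
      intro t ht
      rcases t with j | t
      · have h2 : ∑ i, β' (Sum.inl j) i • x i = 0 := by
          apply Finset.sum_eq_zero
          intro i _
          show (0 : S) • x i = 0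
          rw [zero_smul]
        rw [h2, add_zero]
        exact hu1 j (Finset.inl_mem_disjSum.mp ht)
      · rcases t with _ | l
        · have h2 : ∑ i, β' (Sum.inr none) i • x i = - x 0 := to_formula_beta 0 x
          have h3 : ((α' (Sum.inr none)).sum fun i r => r • u i) = u i0 := to_formula_single i0 u
          rw [h2, h3, hu2, add_neg_cancel]
        · have h2 : ∑ i, β' (Sum.inr (some l)) i • x i = - x l.succ := to_formula_beta l.succ x
          have h3 : ((α' (Sum.inr (some l))).sum fun i r => r • u i) = u (w l) :=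
            to_formula_single (w l) u
          rw [h2, h3, hu3, add_neg_cancel]
  refine ⟨W.card, w, τ, ?_, ?_, ?_⟩
  · intro l
    exact (Finset.mem_filter.mp (hw l)).2
  · intro M _ _ u hu
    rw [key]
    exact ⟨u, hu, rfl, fun l => rfl⟩
  · intro M _ _ y hy
    rw [key] at hy
    obtain ⟨u, hu1, hu2, hu3⟩ := hy
    refine ⟨fun i => if i ∈ Z0 then 0 else u i, ?_, ?_, ?_⟩
    · show (if i0 ∈ Z0 then 0 else u i0) = y
      rw [if_neg hi0, hu2]
      rfl
    · intro i hi
      exact if_pos hi
    · intro j hj
      refine Eq.trans (Finsupp.sum_congr ?_) (hu1 j hj)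
      intro i hi
      by_cases hiZ : i ∈ Z0
      · have hiW : i ∈ W := Finset.mem_filter.mpr ⟨Finset.mem_biUnion.mpr ⟨j, hj, hi⟩, hiZ⟩
        obtain ⟨l, hl⟩ := hw' i hiW
        have h0 : u i = 0 := by
          rw [← hl, hu3 l]
          rfl
        show (α j) i • (if i ∈ Z0 then 0 else u i) = (α j) i • u i
        rw [if_pos hiZ, h0]
      · show (α j) i • (if i ∈ Z0 then 0 else u i) = (α j) i • u i
        rw [if_neg hiZ]

end Pool.Agent.Helper232.RZ
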