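import Mathlib
import Pool.Agent.Helper232.RZ.Defs

set_option autoImplicit false

namespace Pool.Agent.Helper232.RZ


theorem up_iff {R : Type} [Ring R] {R0 : Subring R} {M : Type} [AddCommGroup M] [Module R M]
    {n : ℕ} (φ : PP R0 n) (x : Fin n → M) : φ.up.H x ↔ φ.H x :=
  Iff.rfl

end Pool.Agent.Helper232.RZ
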