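import Mathlib
import Pool.Agent.Helper232.RZ.Defs
import Pool.Agent.Helper232.RZ.N_up_iff
import Pool.Agent.Helper232.RZ.N_full_sol
import Pool.Agent.Helper232.RZ.N_sys_cp
import Pool.Agent.Helper232.RZ.N_to_formula

set_option autoImplicit false

namespace Pool.Agent.Helper232.RZ


private noncomputable def K_eq {k R : Type} [CommRing k] [Ring R] [Algebra k R] (k0 : Subring k)
    (R0 : Subring R) (hm : ∀ c ∈ k0, algebraMap k R c ∈ R0) (d : ℕ) (g0 : Fin d → R0) (m p : ℕ)
    (c0 c1 : Fin m → Fin d → k) (b : Fin m → Fin p → Fin d → k) :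
    ((k × k × (Fin 2 ⊕ Fin p)) ⊕ (k0 × k × (Fin 2 ⊕ Fin p))) ⊕ (Fin m × k) →
      ((k × (Fin 2 ⊕ Fin p)) →₀ R0)
  | Sum.inl (Sum.inl q) => Finsupp.single (q.1 + q.2.1, q.2.2) 1 - Finsupp.single (q.1, q.2.2) 1 -
      Finsupp.single (q.2.1, q.2.2) 1
  | Sum.inl (Sum.inr q) => Finsupp.single ((q.1 : k) * q.2.1, q.2.2) 1 -
      Finsupp.single (q.2.1, q.2.2) (⟨algebraMap k R q.1, hm q.1 q.1.2⟩ : R0)
  | Sum.inr q => ∑ j, Finsupp.single (c0 q.1 j * q.2, Sum.inl 0) (g0 j) +
      ∑ j, Finsupp.single (c1 q.1 j * q.2, Sum.inl 1) (g0 j) +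
      ∑ l, ∑ j, Finsupp.single (b q.1 l j * q.2, Sum.inr l) (g0 j)

private theorem K_eq1 {k R : Type} [CommRing k] [Ring R] [Algebra k R] (k0 : Subring k)
    (R0 : Subring R) (hm : ∀ c ∈ k0, algebraMap k R c ∈ R0) (d : ℕ) (g0 : Fin d → R0) (m p : ℕ)
    (c0 c1 : Fin m → Fin d → k) (b : Fin m → Fin p → Fin d → k)
    {M : Type} [AddCommGroup M] [Module R0 M] (u : k × (Fin 2 ⊕ Fin p) → M)
    (w w' : k) (κ : Fin 2 ⊕ Fin p) :
    ((K_eq k0 R0 hm d g0 m p c0 c1 b (Sum.inl (Sum.inl (w, w', κ)))).sum fun i r => r • u i) =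
      u (w + w', κ) - u (w, κ) - u (w', κ) := by
  have h := Finsupp.linearCombination_apply (R := R0) (v := u)
    (K_eq k0 R0 hm d g0 m p c0 c1 b (Sum.inl (Sum.inl (w, w', κ))))
  rw [← h]
  simp only [K_eq, map_sub, Finsupp.linearCombination_single, one_smul]

private theorem K_eq2 {k R : Type} [CommRing k] [Ring R] [Algebra k R] (k0 : Subring k)
    (R0 : Subring R) (hm : ∀ c ∈ k0, algebraMap k R c ∈ R0) (d : ℕ) (g0 : Fin d → R0) (m p : ℕ)
    (c0 c1 : Fin m → Fin d → k) (b : Fin m → Fin p → Fin d → k)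
    {M : Type} [AddCommGroup M] [Module R0 M] (u : k × (Fin 2 ⊕ Fin p) → M)
    (c : k0) (w : k) (κ : Fin 2 ⊕ Fin p) :
    ((K_eq k0 R0 hm d g0 m p c0 c1 b (Sum.inl (Sum.inr (c, w, κ)))).sum fun i r => r • u i) =
      u ((c : k) * w, κ) - (⟨algebraMap k R c, hm c c.2⟩ : R0) • u (w, κ) := by
  have h := Finsupp.linearCombination_apply (R := R0) (v := u)
    (K_eq k0 R0 hm d g0 m p c0 c1 b (Sum.inl (Sum.inr (c, w, κ))))
  rw [← h]
  simp only [K_eq, map_sub, Finsupp.linearCombination_single, one_smul]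

private theorem K_eq3 {k R : Type} [CommRing k] [Ring R] [Algebra k R] (k0 : Subring k)
    (R0 : Subring R) (hm : ∀ c ∈ k0, algebraMap k R c ∈ R0) (d : ℕ) (g0 : Fin d → R0) (m p : ℕ)
    (c0 c1 : Fin m → Fin d → k) (b : Fin m → Fin p → Fin d → k)
    {M : Type} [AddCommGroup M] [Module R0 M] (u : k × (Fin 2 ⊕ Fin p) → M)
    (i : Fin m) (w : k) :
    ((K_eq k0 R0 hm d g0 m p c0 c1 b (Sum.inr (i, w))).sum fun i r => r • u i) =
      ∑ j, g0 j • u (c0 i j * w, Sum.inl 0) + ∑ j, g0 j • u (c1 i j * w, Sum.inl 1) +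
        ∑ l, ∑ j, g0 j • u (b i l j * w, Sum.inr l) := by
  have h := Finsupp.linearCombination_apply (R := R0) (v := u)
    (K_eq k0 R0 hm d g0 m p c0 c1 b (Sum.inr (i, w)))
  rw [← h]
  simp only [K_eq, map_add, map_sum, Finsupp.linearCombination_single]

theorem K {k R : Type} [CommRing k] [Ring R] [Algebra k R] (k0 : Subring k) (R0 : Subring R)
    (d : ℕ) (g : Fin d → R) (hD : Desc k0 R0 d g) {n : ℕ} (φ ψ : PP R0 n) (θ : PP R0 1)
    (σ : PP R 2)
    (hσ : ∀ (M : Type) [AddCommGroup M] [Module R M], (∀ x : Fin n → M, φ.up.H x → ψ.up.H x) →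
      ∀ y : M, σ.H ![0, y] → θ.up.h y) :
    ∃ (r : ℕ) (w : Fin r → k) (τ : PP R0 (r + 1)),
      (∀ (M : Type) [AddCommGroup M] [Module R M] (x y : M), σ.H ![x, y] →
        τ.up.H (Matrix.vecCons y (fun i => algebraMap k R (w i) • x))) ∧
      ∀ (M : Type) [AddCommGroup M] [Module R0 M], (∀ x : Fin n → M, φ.H x → ψ.H x) →
        ∀ y : M, τ.H (Matrix.vecCons y (fun _ => (0 : M))) → θ.h y := by
  classical
  choose cf hcf using hD.gen
  let g0 : Fin d → R0 := fun j => ⟨g j, hD.gmem j⟩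
  let c0 : Fin σ.m → Fin d → k := fun i j => cf (σ.A i 0) j
  let c1 : Fin σ.m → Fin d → k := fun i j => cf (σ.A i 1) j
  let b : Fin σ.m → Fin σ.p → Fin d → k := fun i l j => cf (σ.B i l) j
  let Z0 : Set (k × (Fin 2 ⊕ Fin σ.p)) := {i | i.2 = Sum.inl 0}
  let i0 : k × (Fin 2 ⊕ Fin σ.p) := (1, Sum.inl 1)
  have hi0 : i0 ∉ Z0 := by
    intro h
    have h1 : (Sum.inl 1 : Fin 2 ⊕ Fin σ.p) = Sum.inl 0 := h
    have h2 := Sum.inl_injective h1
    exact absurd h2 (by decide)
  obtain ⟨F, hF⟩ := sys_cp φ ψ θ (k × (Fin 2 ⊕ Fin σ.p)) _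
    (K_eq k0 R0 hD.map d g0 σ.m σ.p c0 c1 b) Z0 i0 (by
      intro M _ _ hAC hM u hu hz
      refine full_sol k0 R0 d g hD φ ψ θ σ.m σ.p c1 b ?_ M hAC hM (fun w => u (w, Sum.inl 1))
        (fun w l => u (w, Sum.inr l)) ?_ ?_ ?_ ?_ ?_
      · intro M' _ _ hM' y z hyz
        apply hσ M' hM' y
        refine ⟨z, fun i => ?_⟩
        rw [Fin.sum_univ_two]
        have h1 := hyz i
        have e1 : σ.A i 1 = ∑ j, algebraMap k R (c1 i j) * g j := hcf (σ.A i 1)
        have e2 : ∀ l, σ.B i l = ∑ j, algebraMap k R (b i l j) * g j := fun l => hcf (σ.B i l)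
        rw [e1]
        simp only [e2]
        show _ • (0 : M') + _ • y + _ = 0
        rw [smul_zero, zero_add]
        exact h1
      · intro w w'
        have h1 := hu (Sum.inl (Sum.inl (w, w', Sum.inl 1)))
        rw [K_eq1] at h1
        rw [sub_sub, sub_eq_zero] at h1
        exact h1
      · intro w w' l
        have h1 := hu (Sum.inl (Sum.inl (w, w', Sum.inr l)))
        rw [K_eq1] at h1
        rw [sub_sub, sub_eq_zero] at h1
        exact h1
      · intro c w
        have h1 := hu (Sum.inl (Sum.inr (c, w, Sum.inl 1)))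
        rw [K_eq2] at h1
        exact sub_eq_zero.mp h1
      · intro c w l
        have h1 := hu (Sum.inl (Sum.inr (c, w, Sum.inr l)))
        rw [K_eq2] at h1
        exact sub_eq_zero.mp h1
      · intro i w
        have h1 := hu (Sum.inr (i, w))
        rw [K_eq3] at h1
        have h2 : ∑ j, g0 j • u (c0 i j * w, Sum.inl 0) = 0 := by
          apply Finset.sum_eq_zero
          intro j _
          rw [hz (c0 i j * w, Sum.inl 0) rfl, smul_zero]
        rw [h2, zero_add] at h1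
        exact h1)
  obtain ⟨r, w', τ, hwZ, h1, h2⟩ := to_formula (k × (Fin 2 ⊕ Fin σ.p)) _
    (K_eq k0 R0 hD.map d g0 σ.m σ.p c0 c1 b) F Z0 i0 hi0
  refine ⟨r, fun l => (w' l).1, τ, ?_, ?_⟩
  · intro M _ _ x y hxy
    obtain ⟨z, hz⟩ := hxy
    rw [up_iff]
    let v : (Fin 2 ⊕ Fin σ.p) → M := fun κ => Sum.elim (fun t : Fin 2 => if t = 0 then x else y) z κ
    have hv0 : v (Sum.inl 0) = x := by simp [v]
    have hv1 : v (Sum.inl 1) = y := by simp [v]
    have hv2 : ∀ l, v (Sum.inr l) = z l := fun l => by simp [v]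
    have h3 := h1 M (fun q => algebraMap k R q.1 • v q.2) (by
      rintro ((⟨w, w2, κ⟩ | ⟨c, w, κ⟩) | ⟨i, w⟩)
      · intro _
        rw [K_eq1]
        simp only [map_add, add_smul]
        abel
      · intro _
        rw [K_eq2]
        simp only [map_mul, mul_smul]
        exact sub_self _
      · intro _
        rw [K_eq3]
        simp only [hv0, hv1, hv2]
        have hcomm : ∀ (j : Fin d) (c : k) (t : M), g0 j • algebraMap k R (c * w) • t =
            algebraMap k R w • ((algebraMap k R c * g j) • t) := by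
          intro j c t
          show g j • algebraMap k R (c * w) • t = _
          rw [← mul_smul, ← mul_smul, ← Algebra.commutes, mul_comm c w, map_mul, mul_assoc]
        simp only [hcomm]
        rw [← Finset.smul_sum, ← Finset.smul_sum]
        simp only [← Finset.smul_sum]
        rw [← smul_add, ← smul_add]
        have h4 := hz i
        rw [Fin.sum_univ_two] at h4
        have e0 : σ.A i 0 = ∑ j, algebraMap k R (c0 i j) * g j := hcf (σ.A i 0)
        have e1 : σ.A i 1 = ∑ j, algebraMap k R (c1 i j) * g j := hcf (σ.A i 1)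
        have e2 : ∀ l, σ.B i l = ∑ j, algebraMap k R (b i l j) * g j := fun l => hcf (σ.B i l)
        have h5 : (∑ j, (algebraMap k R (c0 i j) * g j) • x) +
            (∑ j, (algebraMap k R (c1 i j) * g j) • y) +
            (∑ l, ∑ j, (algebraMap k R (b i l j) * g j) • z l) = 0 := by
          rw [← Finset.sum_smul, ← Finset.sum_smul, ← e0, ← e1]
          have e3 : ∀ l, ∑ j, (algebraMap k R (b i l j) * g j) • z l = σ.B i l • z l := by
            intro l
            rw [← Finset.sum_smul, ← e2]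
          simp only [e3]
          exact h4
        rw [h5, smul_zero])
    have e5 : (fun l => algebraMap k R (w' l).1 • v (w' l).2) =
        fun l => algebraMap k R (w' l).1 • x := by
      funext l
      have : (w' l).2 = Sum.inl 0 := hwZ l
      rw [this, hv0]
    have e6 : algebraMap k R i0.1 • v i0.2 = y := by
      show algebraMap k R 1 • v (Sum.inl 1) = y
      rw [map_one, one_smul, hv1]
    simp only [e6] at h3
    rw [e5] at h3
    exact h3
  · intro M _ _ hM y hy
    obtain ⟨u, hu0, huz, huF⟩ := h2 M y hy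
    have h3 := hF M hM u huF huz
    rwa [hu0] at h3

end Pool.Agent.Helper232.RZ
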