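import Mathlib
import Pool.Agent.Helper232.RZ.Defs
import Pool.Agent.Helper232.RZ.N_sysPP

set_option autoImplicit false

namespace Pool.Agent.Helper232.RZ


theorem ac_hom {R : Type} [Ring R] {M N : Type} [AddCommGroup M] [Module R M] [AddCommGroup N]
    [Module R N] (hN : AC R N) {n : ℕ} (a : Fin n → M) (c : Fin n → N)
    (h : ∀ φ : PP R n, φ.H a → φ.H c) : ∃ g : M →ₗ[R] N, ∀ i, g (a i) = c i := by
  classical
  obtain ⟨al, hal⟩ : ∃ al : (M × M) ⊕ ((R × M) ⊕ Fin n) → M →₀ R,
      (∀ m m', al (Sum.inl (m, m')) = Finsupp.single (m + m') 1 - Finsupp.single m 1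
        - Finsupp.single m' 1) ∧
      (∀ r m, al (Sum.inr (Sum.inl (r, m))) = Finsupp.single (r • m) 1 - Finsupp.single m r) ∧
      (∀ i, al (Sum.inr (Sum.inr i)) = Finsupp.single (a i) 1) :=
    ⟨Sum.elim (fun q => Finsupp.single (q.1 + q.2) 1 - Finsupp.single q.1 1
        - Finsupp.single q.2 1) (Sum.elim (fun q => Finsupp.single (q.1 • q.2) 1 -
        Finsupp.single q.2 q.1) (fun i => Finsupp.single (a i) 1)),
      fun _ _ => rfl, fun _ _ => rfl, fun _ => rfl⟩
  obtain ⟨hal1, hal2, hal3⟩ := hal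
  obtain ⟨b, hb1, hb2, hb3⟩ : ∃ b : (M × M) ⊕ ((R × M) ⊕ Fin n) → N,
      (∀ q, b (Sum.inl q) = 0) ∧ (∀ q, b (Sum.inr (Sum.inl q)) = 0) ∧
      (∀ i, b (Sum.inr (Sum.inr i)) = c i) :=
    ⟨Sum.elim (fun _ => 0) (Sum.elim (fun _ => 0) c), fun _ => rfl, fun _ => rfl, fun _ => rfl⟩
  obtain ⟨be, he1, he2, he3⟩ : ∃ be : (M × M) ⊕ ((R × M) ⊕ Fin n) → Fin n → R,
      (∀ q i, be (Sum.inl q) i = 0) ∧ (∀ q i, be (Sum.inr (Sum.inl q)) i = 0) ∧
      (∀ k i, be (Sum.inr (Sum.inr k)) i = if k = i then -1 else 0) :=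
    ⟨Sum.elim (fun _ _ => 0) (Sum.elim (fun _ _ => 0) (fun k i => if k = i then -1 else 0)),
      fun _ _ => rfl, fun _ _ => rfl, fun _ _ => rfl⟩
  have hs1 : ∀ (L : Type) [AddCommGroup L] [Module R L] (u : M → L) (m m' : M),
      ((al (Sum.inl (m, m'))).sum fun i r => r • u i) = u (m + m') - u m - u m' := by
    intro L _ _ u m m'
    rw [← Finsupp.linearCombination_apply, hal1, map_sub, map_sub,
      Finsupp.linearCombination_single, Finsupp.linearCombination_single,
      Finsupp.linearCombination_single, one_smul, one_smul, one_smul]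
  have hs2 : ∀ (L : Type) [AddCommGroup L] [Module R L] (u : M → L) (r : R) (m : M),
      ((al (Sum.inr (Sum.inl (r, m)))).sum fun i r => r • u i) = u (r • m) - r • u m := by
    intro L _ _ u r m
    rw [← Finsupp.linearCombination_apply, hal2, map_sub,
      Finsupp.linearCombination_single, Finsupp.linearCombination_single, one_smul]
  have hs3 : ∀ (L : Type) [AddCommGroup L] [Module R L] (u : M → L) (i : Fin n),
      ((al (Sum.inr (Sum.inr i))).sum fun i r => r • u i) = u (a i) := by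
    intro L _ _ u i
    rw [← Finsupp.linearCombination_apply, hal3, Finsupp.linearCombination_single, one_smul]
  have hb : ∀ (L : Type) [AddCommGroup L] [Module R L] (x : Fin n → L) (k : Fin n),
      ∑ i, be (Sum.inr (Sum.inr k)) i • x i = - x k := by
    intro L _ _ x k
    have h1 : ∀ i ∈ (Finset.univ : Finset (Fin n)), be (Sum.inr (Sum.inr k)) i • x i
        = if k = i then - x i else 0 := by
      intro i _
      rw [he3]
      by_cases hk : k = i
      · rw [if_pos hk, if_pos hk, neg_smul, one_smul]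
      · rw [if_neg hk, if_neg hk, zero_smul]
    rw [Finset.sum_congr rfl h1, Finset.sum_ite_eq, if_pos (Finset.mem_univ k)]
  have hb0 : ∀ (L : Type) [AddCommGroup L] [Module R L] (x : Fin n → L) (q : M × M),
      ∑ i, be (Sum.inl q) i • x i = 0 := by
    intro L _ _ x q
    exact Finset.sum_eq_zero (fun i _ => by rw [he1, zero_smul])
  have hb00 : ∀ (L : Type) [AddCommGroup L] [Module R L] (x : Fin n → L) (q : R × M),
      ∑ i, be (Sum.inr (Sum.inl q)) i • x i = 0 := by
    intro L _ _ x q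
    exact Finset.sum_eq_zero (fun i _ => by rw [he2, zero_smul])
  have hfin : ∀ F : Finset ((M × M) ⊕ ((R × M) ⊕ Fin n)), ∃ x : M → N, ∀ j ∈ F,
      ((al j).sum fun i r => r • x i) = b j := by
    intro F
    obtain ⟨φ, hφ⟩ := sysPP M ((M × M) ⊕ ((R × M) ⊕ Fin n)) F al be
    have h1 : φ.H a := by
      rw [hφ M a]
      refine ⟨id, fun j _ => ?_⟩
      rcases j with ⟨m, m'⟩ | ⟨r, m⟩ | i
      · rw [hs1 M id, hb0 M a]
        simp
      · rw [hs2 M id, hb00 M a]
        simp
      · rw [hs3 M id, hb M a]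
        simp
    obtain ⟨u, hu⟩ := (hφ N c).1 (h φ h1)
    refine ⟨u, fun j hj => ?_⟩
    have h2 := hu j hj
    rcases j with ⟨m, m'⟩ | ⟨r, m⟩ | i
    · rw [hb0 N c, add_zero] at h2
      rw [h2, hb1]
    · rw [hb00 N c, add_zero] at h2
      rw [h2, hb2]
    · rw [hb N c] at h2
      rw [hb3]
      exact add_neg_eq_zero.1 h2
  obtain ⟨x, hx⟩ := hN M ((M × M) ⊕ ((R × M) ⊕ Fin n)) al b hfin
  refine ⟨{ toFun := x, map_add' := ?_, map_smul' := ?_ }, ?_⟩
  · intro m m'
    have h1 := hx (Sum.inl (m, m'))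
    rw [hs1 N x, hb1, sub_sub] at h1
    exact sub_eq_zero.1 h1
  · intro r m
    have h1 := hx (Sum.inr (Sum.inl (r, m)))
    rw [hs2 N x, hb2] at h1
    exact sub_eq_zero.1 h1
  · intro i
    have h1 := hx (Sum.inr (Sum.inr i))
    rw [hs3 N x, hb3] at h1
    exact h1

end Pool.Agent.Helper232.RZ
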