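import Mathlib
import Pool.Agent.Helper232.RZ.Defs
import Pool.Agent.Helper232.RZ.N_sysPP

set_option autoImplicit false

namespace Pool.Agent.Helper232.RZ


private theorem andFin_sum {R : Type} [Ring R] {I M : Type} [AddCommGroup M] [Module R M] {p : ℕ}
    (e : Fin p → I) (b : Fin p → R) (u : I → M) :
    ((∑ l, Finsupp.single (e l) (b l) : I →₀ R).sum fun i r => r • u i) = ∑ l, b l • u (e l) := by
  rw [← Finsupp.sum_finsetSum_index (fun i => zero_smul R (u i)) (fun i r s => add_smul r s (u i))]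
  refine Finset.sum_congr rfl fun l _ => ?_
  exact Finsupp.sum_single_index (zero_smul R (u (e l)))

theorem andFin {R : Type} [Ring R] {n : ℕ} (F : Finset (PP R n)) :
    ∃ χ : PP R n, ∀ (M : Type) [AddCommGroup M] [Module R M] (x : Fin n → M),
      χ.H x ↔ ∀ σ ∈ F, σ.H x := by
  obtain ⟨χ, hχ⟩ := sysPP (R := R) (n := n) (Σ σ : {x // x ∈ F}, Fin σ.1.p)
    (Σ σ : {x // x ∈ F}, Fin σ.1.m) Finset.univ
    (fun j => ∑ l : Fin j.1.1.p, Finsupp.single (⟨j.1, l⟩ : Σ σ : {x // x ∈ F}, Fin σ.1.p) (j.1.1.B j.2 l))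
    (fun j i => j.1.1.A j.2 i)
  refine ⟨χ, fun M _ _ x => ?_⟩
  rw [hχ M x]
  constructor
  · rintro ⟨u, hu⟩ σ hσ
    refine ⟨fun l => u ⟨⟨σ, hσ⟩, l⟩, fun i => ?_⟩
    have h1 := hu ⟨⟨σ, hσ⟩, i⟩ (Finset.mem_univ _)
    rw [andFin_sum] at h1
    rw [add_comm]
    exact h1
  · intro h
    choose y hy using h
    refine ⟨fun j => y j.1.1 j.1.2 j.2, fun j _ => ?_⟩
    rw [andFin_sum, add_comm]
    exact hy j.1.1 j.1.2 j.2

end Pool.Agent.Helper232.RZ
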