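import Mathlib
import Pool.Agent.Helper232.RZ.Defs
import Pool.Agent.Helper232.RZ.N_rp

set_option autoImplicit false

namespace Pool.Agent.Helper232.RZ


theorem cp {R : Type} [Ring R] (Q : Set (Σ n : ℕ, PP R n × PP R n)) (n : ℕ) (S Θ : Set (PP R n))
    (h : ∀ F G : Finset (PP R n), (F : Set (PP R n)) ⊆ S → (G : Set (PP R n)) ⊆ Θ →
      ∃ (M : Type) (_ : AddCommGroup M) (_ : Module R M), InD Q M ∧
        ∃ x : Fin n → M, (∀ σ ∈ F, σ.H x) ∧ ∀ τ ∈ G, ¬ τ.H x) :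
    ∃ (M : Type) (_ : AddCommGroup M) (_ : Module R M), InD Q M ∧
      ∃ x : Fin n → M, (∀ σ ∈ S, σ.H x) ∧ ∀ τ ∈ Θ, ¬ τ.H x := by
  classical
  have h' : ∀ t : Finset S × Finset Θ,
      ∃ (M : Type) (_ : AddCommGroup M) (_ : Module R M), InD Q M ∧
        ∃ x : Fin n → M, (∀ σ ∈ t.1, σ.1.H x) ∧ ∀ τ ∈ t.2, ¬ τ.1.H x := by
    intro t
    obtain ⟨M, i1, i2, hD, x, h1, h2⟩ := h (t.1.image Subtype.val) (t.2.image Subtype.val)
      (by
        intro σ hσ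
        obtain ⟨a, -, rfl⟩ := Finset.mem_image.1 (Finset.mem_coe.1 hσ)
        exact a.2)
      (by
        intro σ hσ
        obtain ⟨a, -, rfl⟩ := Finset.mem_image.1 (Finset.mem_coe.1 hσ)
        exact a.2)
    exact ⟨M, i1, i2, hD, x, fun σ hσ => h1 σ.1 (Finset.mem_image_of_mem _ hσ),
      fun τ hτ => h2 τ.1 (Finset.mem_image_of_mem _ hτ)⟩
  choose M i1 i2 hD x hx1 hx2 using h'
  obtain ⟨Q', j1, j2, π, hπ, hrp⟩ := rp (R := R) (Finset S × Finset Θ) Filter.atTop M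
  refine ⟨Q', j1, j2, ?_, fun i => π (fun t => x t i), ?_, ?_⟩
  · intro q hq z hz
    choose y hy using fun i => hπ (z i)
    have e : z = fun i => π (y i) := funext fun i => (hy i).symm
    rw [e] at hz ⊢
    rw [hrp] at hz ⊢
    filter_upwards [hz] with t ht
    exact hD t q hq _ ht
  · intro σ hσ
    rw [hrp n σ (fun i t => x t i)]
    filter_upwards [Filter.eventually_ge_atTop (({⟨σ, hσ⟩}, ∅) : Finset S × Finset Θ)] with t ht
    exact hx1 t ⟨σ, hσ⟩ (ht.1 (Finset.mem_singleton_self _))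
  · intro τ hτ hcon
    rw [hrp n τ (fun i t => x t i)] at hcon
    have h2 := hcon.and
      (Filter.eventually_ge_atTop ((∅, {⟨τ, hτ⟩}) : Finset S × Finset Θ))
    obtain ⟨t, ht1, ht2⟩ := h2.exists
    exact hx2 t ⟨τ, hτ⟩ (ht2.2 (Finset.mem_singleton_self _)) ht1

end Pool.Agent.Helper232.RZ
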