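import Mathlib
import Pool.Agent.Helper232.RZ.Defs

set_option autoImplicit false

namespace Pool.Agent.Helper232.RZ


theorem H_map {R : Type} [Ring R] {M M' : Type} [AddCommGroup M] [Module R M] [AddCommGroup M']
    [Module R M'] (f : M →ₗ[R] M') {n : ℕ} (φ : PP R n) (x : Fin n → M) (h : φ.H x) :
    φ.H (fun i => f (x i)) := by
  obtain ⟨y, hy⟩ := h
  refine ⟨fun l => f (y l), fun i => ?_⟩
  have := congrArg f (hy i)
  rw [map_add, map_sum, map_sum, map_zero] at this
  simpa only [map_smul] using this

end Pool.Agent.Helper232.RZ
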