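import Mathlib
import Pool.Agent.Helper232.RZ.Defs
import Pool.Agent.Helper232.RZ.N_H_map

set_option autoImplicit false

namespace Pool.Agent.Helper232.RZ


theorem h_map {R : Type} [Ring R] {M M' : Type} [AddCommGroup M] [Module R M] [AddCommGroup M']
    [Module R M'] (f : M →ₗ[R] M') (φ : PP R 1) (x : M) (h : φ.h x) : φ.h (f x) := by
  exact H_map f φ (fun _ : Fin 1 => x) h


end Pool.Agent.Helper232.RZ
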