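import Mathlib
import Pool.Agent.Helper232.RZ.Defs
import Pool.Agent.Helper232.RZ.N_H_map

set_option autoImplicit false

namespace Pool.Agent.Helper232.RZ


theorem ac_retract {R : Type} [Ring R] {M H : Type} [AddCommGroup M] [Module R M] [AddCommGroup H]
    [Module R H] (i : H →ₗ[R] M) (p : M →ₗ[R] H) (hip : ∀ x, p (i x) = x) :
    (AC R M → AC R H) ∧ (∀ Q : Set (Σ n : ℕ, PP R n × PP R n), InD Q M → InD Q H) ∧
      ∀ (n : ℕ) (φ : PP R n) (x : Fin n → H), φ.H (fun j => i (x j)) → φ.H x := by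
  have hback : ∀ (n : ℕ) (φ : PP R n) (x : Fin n → H), φ.H (fun j => i (x j)) → φ.H x := by
    intro n φ x h
    have h1 := H_map p φ _ h
    have h2 : (fun j => p (i (x j))) = x := funext fun j => hip _
    rwa [h2] at h1
  refine ⟨?_, ?_, hback⟩
  · intro hM I J a b hsol
    have h1 := hM I J a (fun j => i (b j)) (by
      intro F
      obtain ⟨x, hx⟩ := hsol F
      refine ⟨fun t => i (x t), fun j hj => ?_⟩
      rw [← hx j hj, Finsupp.sum, Finsupp.sum, map_sum]
      refine Finset.sum_congr rfl fun t _ => ?_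
      rw [map_smul])
    obtain ⟨x, hx⟩ := h1
    refine ⟨fun t => p (x t), fun j => ?_⟩
    have h2 := congrArg p (hx j)
    rw [hip, Finsupp.sum, map_sum] at h2
    rw [← h2, Finsupp.sum]
    refine Finset.sum_congr rfl fun t _ => ?_
    rw [map_smul]
  · intro Q hQ q hq x hx
    exact hback _ _ _ (hQ q hq _ (H_map i q.2.1 x hx))

end Pool.Agent.Helper232.RZ
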