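import Mathlib
import Pool.Agent.Helper232.RZ.Defs
import Pool.Agent.Helper232.RZ.N_H_add

set_option autoImplicit false

namespace Pool.Agent.Helper232.RZ


theorem h_add {R : Type} [Ring R] {M : Type} [AddCommGroup M] [Module R M] (φ : PP R 1)
    (x x' : M) : (φ.h x → φ.h x' → φ.h (x + x')) ∧ (φ.h x → φ.h (-x)) ∧
      (φ.h x → φ.h x' → φ.h (x - x')) ∧ φ.h (0 : M) := by
  refine ⟨fun h h' => (H_add φ (fun _ => x) (fun _ => x')).1 h h',
    fun h => (H_add φ (fun _ => x) (fun _ => x')).2.1 h, fun h h' => ?_,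
    (H_add φ (fun _ => x) (fun _ => x')).2.2.1⟩
  have h2 : φ.h (-x') := (H_add φ (fun _ => x') (fun _ => x')).2.1 h'
  have h3 : φ.h (x + -x') := (H_add φ (fun _ => x) (fun _ => -x')).1 h h2
  rw [sub_eq_add_neg]
  exact h3

end Pool.Agent.Helper232.RZ
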