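import Mathlib
import Pool.Agent.Helper232.RZ.Defs

set_option autoImplicit false

namespace Pool.Agent.Helper232.RZ


private theorem chain_e_fin {R : Type} [Ring R] {M : Type} [AddCommGroup M] [Module R M]
    (T : Submodule R M) (C : Set (Module.End R M)) (hne : C.Nonempty)
    (hc : ∀ e ∈ C, ∀ e' ∈ C,
      (∃ g : Module.End R M, (∀ t ∈ T, g t = t) ∧ ∀ m, g (e m) = e' m) ∨
      (∃ g : Module.End R M, (∀ t ∈ T, g t = t) ∧ ∀ m, g (e' m) = e m))
    (S : Finset C) : ∃ c' ∈ C, ∀ c ∈ S, ∃ g : Module.End R M, (∀ t ∈ T, g t = t) ∧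
      ∀ m, g ((c : Module.End R M) m) = c' m := by
  classical
  induction S using Finset.induction_on with
  | empty =>
    obtain ⟨c, h⟩ := hne
    exact ⟨c, h, by simp⟩
  | insert a s ha ih =>
    obtain ⟨c', hc', h⟩ := ih
    rcases hc a a.2 c' hc' with ⟨g, hg, hg'⟩ | ⟨g, hg, hg'⟩
    · refine ⟨c', hc', fun c hcS => ?_⟩
      rcases Finset.mem_insert.1 hcS with rfl | hcS
      · exact ⟨g, hg, hg'⟩
      · exact h c hcS
    · refine ⟨a, a.2, fun c hcS => ?_⟩
      rcases Finset.mem_insert.1 hcS with rfl | hcS
      · exact ⟨1, fun t _ => rfl, fun m => rfl⟩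
      · obtain ⟨k, hk, hk'⟩ := h c hcS
        refine ⟨g * k, fun t ht => ?_, fun m => ?_⟩
        · rw [Module.End.mul_apply, hk t ht, hg t ht]
        · rw [Module.End.mul_apply, hk', hg']

theorem chain_e {R : Type} [Ring R] {M : Type} [AddCommGroup M] [Module R M] (hM : AC R M)
    (T : Submodule R M) (C : Set (Module.End R M)) (hne : C.Nonempty)
    (hC : ∀ e ∈ C, ∀ t ∈ T, e t = t)
    (hc : ∀ e ∈ C, ∀ e' ∈ C,
      (∃ g : Module.End R M, (∀ t ∈ T, g t = t) ∧ ∀ m, g (e m) = e' m) ∨
      (∃ g : Module.End R M, (∀ t ∈ T, g t = t) ∧ ∀ m, g (e' m) = e m)) :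
    ∃ e : Module.End R M, (∀ t ∈ T, e t = t) ∧
      ∀ c ∈ C, ∃ g : Module.End R M, (∀ t ∈ T, g t = t) ∧ ∀ m, g (c m) = e m := by
  classical
  let J : Type := (Option C × M × M) ⊕ ((Option C × R × M) ⊕ ((Option C × T) ⊕ (C × M)))
  let a : J → (M × Option C) →₀ R := fun j => match j with
    | Sum.inl (o, m, m') => Finsupp.single (m + m', o) 1 - Finsupp.single (m, o) 1
        - Finsupp.single (m', o) 1
    | Sum.inr (Sum.inl (o, r, m)) => Finsupp.single (r • m, o) 1 - Finsupp.single (m, o) r
    | Sum.inr (Sum.inr (Sum.inl (o, t))) => Finsupp.single ((t : M), o) 1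
    | Sum.inr (Sum.inr (Sum.inr (c, m))) =>
        Finsupp.single ((c : Module.End R M) m, some c) 1 - Finsupp.single (m, none) 1
  let b : J → M := fun j => match j with
    | Sum.inl _ => 0
    | Sum.inr (Sum.inl _) => 0
    | Sum.inr (Sum.inr (Sum.inl (_, t))) => (t : M)
    | Sum.inr (Sum.inr (Sum.inr _)) => 0
  obtain ⟨x, hx⟩ := hM (M × Option C) J a b (by
    intro F
    let tag : J → Option C := fun j => match j with
      | Sum.inr (Sum.inr (Sum.inr (c, _))) => some c
      | _ => none
    obtain ⟨c', hc', h⟩ := chain_e_fin T C hne hc (Finset.eraseNone (F.image tag))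
    have hch : ∀ c : C, ∃ g : Module.End R M, (∀ t ∈ T, g t = t) ∧
        (c ∈ Finset.eraseNone (F.image tag) → ∀ m, g ((c : Module.End R M) m) = c' m) := by
      intro c
      by_cases hcS : c ∈ Finset.eraseNone (F.image tag)
      · obtain ⟨g, hg, hg'⟩ := h c hcS
        exact ⟨g, hg, fun _ => hg'⟩
      · exact ⟨1, fun t _ => rfl, fun h => absurd h hcS⟩
    choose g hg hg' using hch
    let G : Option C → Module.End R M := fun o => o.elim c' g
    have hG : ∀ o, ∀ t ∈ T, G o t = t := by
      intro o t ht
      cases o with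
      | none => exact hC c' hc' t ht
      | some c => exact hg c t ht
    refine ⟨fun i => G i.2 i.1, fun j hj => ?_⟩
    rcases j with ⟨o, m, m'⟩ | ⟨o, r, m⟩ | ⟨o, t⟩ | ⟨c, m⟩
    · show Finsupp.linearCombination R (fun i : M × Option C => G i.2 i.1)
        (Finsupp.single (m + m', o) 1 - Finsupp.single (m, o) 1 - Finsupp.single (m', o) 1) = 0
      rw [map_sub, map_sub, Finsupp.linearCombination_single, Finsupp.linearCombination_single,
        Finsupp.linearCombination_single, one_smul, one_smul, one_smul, map_add]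
      abel
    · show Finsupp.linearCombination R (fun i : M × Option C => G i.2 i.1)
        (Finsupp.single (r • m, o) 1 - Finsupp.single (m, o) r) = 0
      rw [map_sub, Finsupp.linearCombination_single, Finsupp.linearCombination_single,
        one_smul, map_smul, sub_self]
    · show Finsupp.linearCombination R (fun i : M × Option C => G i.2 i.1)
        (Finsupp.single ((t : M), o) 1) = (t : M)
      rw [Finsupp.linearCombination_single, one_smul]
      exact hG o t t.2
    · show Finsupp.linearCombination R (fun i : M × Option C => G i.2 i.1)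
        (Finsupp.single ((c : Module.End R M) m, some c) 1 - Finsupp.single (m, none) 1) = 0
      rw [map_sub, Finsupp.linearCombination_single, Finsupp.linearCombination_single,
        one_smul, one_smul]
      have hmem : c ∈ Finset.eraseNone (F.image tag) := by
        rw [Finset.mem_eraseNone, Finset.mem_image]
        exact ⟨_, hj, rfl⟩
      show g c ((c : Module.End R M) m) - c' m = 0
      rw [hg' c hmem, sub_self])
  have h1 : ∀ o (m m' : M), x (m + m', o) = x (m, o) + x (m', o) := by
    intro o m m'
    have h' : Finsupp.linearCombination R x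
        (Finsupp.single (m + m', o) 1 - Finsupp.single (m, o) 1 - Finsupp.single (m', o) 1) = 0 :=
      hx (Sum.inl (o, m, m'))
    rw [map_sub, map_sub, Finsupp.linearCombination_single, Finsupp.linearCombination_single,
      Finsupp.linearCombination_single, one_smul, one_smul, one_smul, sub_sub, sub_eq_zero] at h'
    exact h'
  have h2 : ∀ o (r : R) (m : M), x (r • m, o) = r • x (m, o) := by
    intro o r m
    have h' : Finsupp.linearCombination R x
        (Finsupp.single (r • m, o) 1 - Finsupp.single (m, o) r) = 0 :=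
      hx (Sum.inr (Sum.inl (o, r, m)))
    rw [map_sub, Finsupp.linearCombination_single, Finsupp.linearCombination_single,
      one_smul, sub_eq_zero] at h'
    exact h'
  have h3 : ∀ o, ∀ t ∈ T, x (t, o) = t := by
    intro o t ht
    have h' : Finsupp.linearCombination R x (Finsupp.single (t, o) 1) = t :=
      hx (Sum.inr (Sum.inr (Sum.inl (o, ⟨t, ht⟩))))
    rw [Finsupp.linearCombination_single, one_smul] at h'
    exact h'
  have h4 : ∀ (c : C) (m : M), x ((c : Module.End R M) m, some c) = x (m, none) := by
    intro c m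
    have h' : Finsupp.linearCombination R x
        (Finsupp.single ((c : Module.End R M) m, some c) 1 - Finsupp.single (m, none) 1) = 0 :=
      hx (Sum.inr (Sum.inr (Sum.inr (c, m))))
    rw [map_sub, Finsupp.linearCombination_single, Finsupp.linearCombination_single,
      one_smul, one_smul, sub_eq_zero] at h'
    exact h'
  let E : Option C → Module.End R M := fun o =>
    { toFun := fun m => x (m, o)
      map_add' := fun m m' => h1 o m m'
      map_smul' := fun r m => h2 o r m }
  exact ⟨E none, fun t ht => h3 none t ht, fun c hcC => ⟨E (some ⟨c, hcC⟩),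
    fun t ht => h3 _ t ht, fun m => h4 ⟨c, hcC⟩ m⟩⟩

end Pool.Agent.Helper232.RZ
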