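import Mathlib
import Pool.Agent.Helper232.RZ.Defs

set_option autoImplicit false

namespace Pool.Agent.Helper232.RZ


private theorem chain_s_dir {R : Type} [Ring R] {M : Type} [AddCommGroup M] [Module R M]
    (C : Set (Submodule R M)) (hc : IsChain (· ≤ ·) C) (hne : C.Nonempty) (F : Finset M)
    (hF : ∀ t ∈ F, ∃ T ∈ C, t ∈ T) : ∃ T ∈ C, ∀ t ∈ F, t ∈ T := by
  classical
  induction F using Finset.induction_on with
  | empty =>
    obtain ⟨T, hT⟩ := hne
    exact ⟨T, hT, by simp⟩
  | insert t F _ ih =>
    obtain ⟨T, hT, h1⟩ := ih (fun u hu => hF u (Finset.mem_insert_of_mem hu))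
    obtain ⟨T', hT', h2⟩ := hF t (Finset.mem_insert_self _ _)
    rcases hc.total hT hT' with h | h
    · refine ⟨T', hT', fun u hu => ?_⟩
      rcases Finset.mem_insert.1 hu with rfl | hu
      · exact h2
      · exact h (h1 u hu)
    · refine ⟨T, hT, fun u hu => ?_⟩
      rcases Finset.mem_insert.1 hu with rfl | hu
      · exact h h2
      · exact h1 u hu

theorem chain_s {R : Type} [Ring R] {M : Type} [AddCommGroup M] [Module R M] (hM : AC R M)
    (f : Module.End R M) (C : Set (Submodule R M)) (hc : IsChain (· ≤ ·) C) (hne : C.Nonempty)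
    (h : ∀ T ∈ C, ∃ s : Module.End R M, ∀ t ∈ T, s (f t) = t) :
    ∃ s : Module.End R M, ∀ T ∈ C, ∀ t ∈ T, s (f t) = t := by
  classical
  let a : ((M × M) ⊕ (R × M)) ⊕ {t : M // ∃ T ∈ C, t ∈ T} → M →₀ R := fun j => match j with
    | Sum.inl (Sum.inl p) => Finsupp.single (p.1 + p.2) 1 - Finsupp.single p.1 1 -
        Finsupp.single p.2 1
    | Sum.inl (Sum.inr p) => Finsupp.single (p.1 • p.2) 1 - Finsupp.single p.2 p.1
    | Sum.inr t => Finsupp.single (f t.1) 1
  let b : ((M × M) ⊕ (R × M)) ⊕ {t : M // ∃ T ∈ C, t ∈ T} → M := fun j => match j with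
    | Sum.inl _ => 0
    | Sum.inr t => t.1
  have hlc : ∀ (c : M →₀ R) (x : M → M), (c.sum fun i r => r • x i) = Finsupp.linearCombination R x c :=
    fun c x => (Finsupp.linearCombination_apply R c).symm
  obtain ⟨x, hx⟩ := hM M _ a b (by
    intro F
    obtain ⟨T, hT, hT2⟩ := chain_s_dir C hc hne
      (F.biUnion fun j => match j with
        | Sum.inl _ => (∅ : Finset M)
        | Sum.inr t => {t.1}) (by
        intro t ht
        rw [Finset.mem_biUnion] at ht
        obtain ⟨j, _, hj⟩ := ht
        match j, hj with
        | Sum.inl _, hj => simp at hj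
        | Sum.inr t', hj =>
          have e : t = t'.1 := by simpa using hj
          rw [e]; exact t'.2)
    obtain ⟨s, hs⟩ := h T hT
    refine ⟨fun m => s m, fun j hj => ?_⟩
    rw [hlc]
    match j, hj with
    | Sum.inl (Sum.inl p), hj =>
      change Finsupp.linearCombination R (fun m => s m)
        (Finsupp.single (p.1 + p.2) 1 - Finsupp.single p.1 1 - Finsupp.single p.2 1) = 0
      rw [map_sub, map_sub, Finsupp.linearCombination_single, Finsupp.linearCombination_single,
        Finsupp.linearCombination_single, one_smul, one_smul, one_smul, map_add]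
      abel
    | Sum.inl (Sum.inr p), hj =>
      change Finsupp.linearCombination R (fun m => s m)
        (Finsupp.single (p.1 • p.2) 1 - Finsupp.single p.2 p.1) = 0
      rw [map_sub, Finsupp.linearCombination_single, Finsupp.linearCombination_single, one_smul,
        map_smul, sub_self]
    | Sum.inr t, hj =>
      change Finsupp.linearCombination R (fun m => s m) (Finsupp.single (f t.1) 1) = t.1
      rw [Finsupp.linearCombination_single, one_smul]
      apply hs
      apply hT2
      rw [Finset.mem_biUnion]
      exact ⟨Sum.inr t, hj, by simp⟩)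
  have h1 : ∀ m m', x (m + m') = x m + x m' := by
    intro m m'
    have := hx (Sum.inl (Sum.inl (m, m')))
    rw [hlc] at this
    change Finsupp.linearCombination R x
        (Finsupp.single (m + m') 1 - Finsupp.single m 1 - Finsupp.single m' 1) = 0 at this
    rw [map_sub, map_sub, Finsupp.linearCombination_single, Finsupp.linearCombination_single,
      Finsupp.linearCombination_single, one_smul, one_smul, one_smul] at this
    rw [sub_sub, sub_eq_zero] at this
    exact this
  have h2 : ∀ (r : R) m, x (r • m) = r • x m := by
    intro r m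
    have := hx (Sum.inl (Sum.inr (r, m)))
    rw [hlc] at this
    change Finsupp.linearCombination R x
        (Finsupp.single (r • m) 1 - Finsupp.single m r) = 0 at this
    rw [map_sub, Finsupp.linearCombination_single, Finsupp.linearCombination_single, one_smul,
      sub_eq_zero] at this
    exact this
  refine ⟨{ toFun := x, map_add' := h1, map_smul' := h2 }, ?_⟩
  intro T hT t ht
  have := hx (Sum.inr ⟨t, T, hT, ht⟩)
  rw [hlc] at this
  change Finsupp.linearCombination R x (Finsupp.single (f t) 1) = t at this
  rw [Finsupp.linearCombination_single, one_smul] at this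
  exact this


end Pool.Agent.Helper232.RZ
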