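import Mathlib
import Pool.Agent.Helper232.RZ.Defs
import Pool.Agent.Helper232.RZ.N_chain_s
import Pool.Agent.Helper232.RZ.N_chain_e

set_option autoImplicit false

namespace Pool.Agent.Helper232.RZ


theorem hull {R : Type} [Ring R] {M : Type} [AddCommGroup M] [Module R M] (hM : AC R M) (a : M) :
    ∃ e : Module.End R M, (∀ m, e (e m) = e m) ∧ e a = a ∧
      ∀ f : Module.End R M, (∃ s : Module.End R M, s (f a) = a) →
        ∃ s : Module.End R M, ∀ m, s (f (e m)) = e m := by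
  set Sm : Set (Submodule R M) := {T | a ∈ T ∧ ∀ f : Module.End R M,
    (∃ s : Module.End R M, s (f a) = a) → ∃ s : Module.End R M, ∀ t ∈ T, s (f t) = t} with hSm
  have h0 : Submodule.span R {a} ∈ Sm := by
    refine ⟨Submodule.mem_span_singleton_self a, ?_⟩
    rintro f ⟨s, hs⟩
    refine ⟨s, ?_⟩
    intro t ht
    obtain ⟨r, rfl⟩ := Submodule.mem_span_singleton.mp ht
    rw [map_smul, map_smul, hs]
  obtain ⟨T, -, hTm⟩ := zorn_le_nonempty₀ Sm (by
    intro C hC hch y hy
    refine ⟨sSup C, ⟨?_, ?_⟩, fun z hz => le_sSup hz⟩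
    · exact (le_sSup hy : y ≤ sSup C) (hC hy).1
    · intro f hf
      obtain ⟨s, hs⟩ := chain_s hM f C hch ⟨y, hy⟩ (fun T hT => (hC hT).2 f hf)
      refine ⟨s, ?_⟩
      have hle : sSup C ≤ LinearMap.eqLocus (s.comp f) LinearMap.id := by
        apply sSup_le
        intro T hT t ht
        rw [LinearMap.mem_eqLocus]
        exact hs T hT t ht
      intro t ht
      have h1 := hle ht
      rw [LinearMap.mem_eqLocus] at h1
      exact h1) _ h0
  have hT : T ∈ Sm := hTm.prop
  obtain ⟨haT, hTs⟩ := hT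
  -- the preorder on `E_T`
  obtain ⟨⟨e, heT⟩, hemax⟩ := exists_maximal_of_chains_bounded
    (α := {e : Module.End R M // ∀ t ∈ T, e t = t})
    (r := fun e e' => ∃ g : Module.End R M, (∀ t ∈ T, g t = t) ∧ ∀ m, g (e.1 m) = e'.1 m) (by
      intro c hc
      rcases c.eq_empty_or_nonempty with hce | hce
      · refine ⟨⟨1, fun t _ => rfl⟩, ?_⟩
        intro x hx
        rw [hce] at hx
        exact absurd hx (Set.notMem_empty x)
      · obtain ⟨e, he1, he2⟩ := chain_e hM T (Subtype.val '' c) (hce.image _) (by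
          rintro _ ⟨x, -, rfl⟩
          exact x.2) (by
          rintro _ ⟨x, hx, rfl⟩ _ ⟨x', hx', rfl⟩
          by_cases hxx : x = x'
          · subst hxx
            left
            exact ⟨1, fun t _ => rfl, fun m => rfl⟩
          · exact hc hx hx' hxx)
        refine ⟨⟨e, he1⟩, ?_⟩
        intro x hx
        exact he2 x.1 ⟨x, hx, rfl⟩) (by
      rintro x y z ⟨g, hg1, hg2⟩ ⟨g', hg1', hg2'⟩
      refine ⟨g'.comp g, ?_, ?_⟩
      · intro t ht
        rw [LinearMap.comp_apply, hg1 t ht, hg1' t ht]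
      · intro m
        rw [LinearMap.comp_apply, hg2, hg2'])
  have hT1 : LinearMap.range e ∈ Sm := by
    refine ⟨⟨a, heT a haT⟩, ?_⟩
    intro f hf
    obtain ⟨s, hs⟩ := hTs f hf
    obtain ⟨g, hg1, hg2⟩ := hemax ⟨s.comp (f.comp e), fun t ht => by
        rw [LinearMap.comp_apply, LinearMap.comp_apply, heT t ht, hs t ht]⟩
      ⟨s.comp f, fun t ht => by rw [LinearMap.comp_apply, hs t ht], fun m => rfl⟩
    refine ⟨g.comp s, ?_⟩
    rintro _ ⟨m, rfl⟩
    exact hg2 m
  have hTT1 : T ≤ LinearMap.range e := fun t ht => ⟨t, heT t ht⟩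
  have hT1T : LinearMap.range e ≤ T := hTm.2 hT1 hTT1
  refine ⟨e, ?_, heT a haT, ?_⟩
  · intro m
    exact heT _ (hT1T ⟨m, rfl⟩)
  · intro f hf
    obtain ⟨s, hs⟩ := hT1.2 f hf
    exact ⟨s, fun m => hs _ ⟨m, rfl⟩⟩


end Pool.Agent.Helper232.RZ
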