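import Mathlib
import Pool.Agent.Helper232.RZ.Defs
import Pool.Agent.Helper232.RZ.N_cp

set_option autoImplicit false

namespace Pool.Agent.Helper232.RZ


theorem maxtype_fin {X : Type} (c : Set (Set X)) (hc : IsChain (· ⊆ ·) c) (hne : c.Nonempty)
    (F : Finset X) (hF : (F : Set X) ⊆ ⋃₀ c) : ∃ P ∈ c, (F : Set X) ⊆ P := by
  classical
  induction F using Finset.induction_on with
  | empty =>
    obtain ⟨P, hP⟩ := hne
    exact ⟨P, hP, by simp⟩
  | insert a F ha ih =>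
    obtain ⟨P, hP, hFP⟩ := ih (fun x hx => hF (by
      rw [Finset.mem_coe] at hx ⊢
      exact Finset.mem_insert_of_mem hx))
    obtain ⟨P', hP', haP'⟩ := hF (show a ∈ ((insert a F : Finset X) : Set X) by
      rw [Finset.mem_coe]
      exact Finset.mem_insert_self a F)
    rcases hc.total hP hP' with h | h
    · refine ⟨P', hP', ?_⟩
      intro x hx
      rw [Finset.mem_coe, Finset.mem_insert] at hx
      rcases hx with rfl | hx
      · exact haP'
      · exact h (hFP hx)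
    · refine ⟨P, hP, ?_⟩
      intro x hx
      rw [Finset.mem_coe, Finset.mem_insert] at hx
      rcases hx with rfl | hx
      · exact h haP'
      · exact hFP hx

theorem maxtype {R : Type} [Ring R] (Q : Set (Σ n : ℕ, PP R n × PP R n)) (θ : ℕ → PP R 1)
    (M : Type) [AddCommGroup M] [Module R M] (hM : InD Q M) (a : M) (ha : ∀ i, ¬ (θ i).h a) :
    ∃ (M' : Type) (_ : AddCommGroup M') (_ : Module R M'), InD Q M' ∧ ∃ c : M',
      (∀ φ : PP R 1, φ.h a → φ.h c) ∧ (∀ i, ¬ (θ i).h c) ∧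
      ∀ (M'' : Type) [AddCommGroup M''] [Module R M''] (c' : M''), InD Q M'' →
        (∀ φ : PP R 1, φ.h c → φ.h c') → (∀ i, ¬ (θ i).h c') →
          ∀ φ : PP R 1, φ.h c' → φ.h c := by
  obtain ⟨S, hS⟩ : ∃ S : Set (Set (PP R 1)), S = {P | ∃ (M' : Type) (_ : AddCommGroup M')
      (_ : Module R M'), InD Q M' ∧ ∃ x : M', P = {φ : PP R 1 | φ.h x} ∧
      (∀ φ : PP R 1, φ.h a → φ.h x) ∧ ∀ i, ¬ (θ i).h x} := ⟨_, rfl⟩
  have hbase : {φ : PP R 1 | φ.h a} ∈ S := by
    rw [hS]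
    exact ⟨M, inferInstance, inferInstance, hM, a, rfl, fun _ h => h, ha⟩
  obtain ⟨m, -, hmax⟩ := zorn_subset_nonempty S (by
    intro c hcS hc hne
    obtain ⟨M', i1, i2, hM', x, hx1, hx2⟩ := cp Q 1 (⋃₀ c) (⋃₀ c)ᶜ (by
      intro F G hF hG
      obtain ⟨P, hP, hFP⟩ := maxtype_fin c hc hne F hF
      have hPS := hcS hP
      rw [hS] at hPS
      obtain ⟨M', i1, i2, hM', x, hPx, -, -⟩ := hPS
      refine ⟨M', i1, i2, hM', fun _ => x, ?_, ?_⟩
      · intro σ hσ
        have h1 : σ ∈ P := hFP hσ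
        rw [hPx] at h1
        exact h1
      · intro τ hτ h1
        have h2 : τ ∈ P := by
          rw [hPx]
          exact h1
        exact hG hτ ⟨P, hP, h2⟩)
    have hx0 : (fun _ : Fin 1 => x 0) = x := by
      funext i
      rw [Subsingleton.elim i 0]
    have hset : ⋃₀ c = {φ : PP R 1 | φ.h (x 0)} := by
      ext φ
      constructor
      · intro h
        change φ.H (fun _ : Fin 1 => x 0)
        rw [hx0]
        exact hx1 φ h
      · intro h
        by_contra hn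
        apply hx2 φ hn
        have h' : φ.H (fun _ : Fin 1 => x 0) := h
        rwa [hx0] at h'
    refine ⟨⋃₀ c, ?_, fun s hs => Set.subset_sUnion_of_mem hs⟩
    rw [hS]
    refine ⟨M', i1, i2, hM', x 0, hset, ?_, ?_⟩
    · intro φ hφ
      obtain ⟨P, hP⟩ := hne
      have hPS := hcS hP
      rw [hS] at hPS
      obtain ⟨M'', j1, j2, -, y, hPy, hy, -⟩ := hPS
      have h1 : φ ∈ P := by
        rw [hPy]
        exact hy φ hφ
      have h2 : φ ∈ ⋃₀ c := ⟨P, hP, h1⟩
      rw [hset] at h2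
      exact h2
    · intro i hi
      have h2 : θ i ∈ ⋃₀ c := by
        rw [hset]
        exact hi
      obtain ⟨P, hP, h1⟩ := h2
      have hPS := hcS hP
      rw [hS] at hPS
      obtain ⟨M'', j1, j2, -, y, hPy, -, hy⟩ := hPS
      rw [hPy] at h1
      exact hy i h1) {φ : PP R 1 | φ.h a} hbase
  have hmS := hmax.prop
  rw [hS] at hmS
  obtain ⟨M', i1, i2, hM', x, hmx, hx1, hx2⟩ := hmS
  refine ⟨M', i1, i2, hM', x, hx1, hx2, ?_⟩
  intro M'' j1 j2 c' hM'' h1 h2 φ hφ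
  have h3 : {φ : PP R 1 | φ.h c'} ∈ S := by
    rw [hS]
    exact ⟨M'', j1, j2, hM'', c', rfl, fun ψ hψ => h1 ψ (hx1 ψ hψ), h2⟩
  have h4 : m ≤ {φ : PP R 1 | φ.h c'} := by
    rw [hmx]
    intro ψ hψ
    exact h1 ψ hψ
  have h5 := hmax.le_of_ge h3 h4
  have h6 : φ ∈ m := h5 hφ
  rw [hmx] at h6
  exact h6

end Pool.Agent.Helper232.RZ
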