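import Mathlib
import Pool.Agent.Helper232.RZ.Defs
import Pool.Agent.Helper232.RZ.N_h_map
import Pool.Agent.Helper232.RZ.N_h_add
import Pool.Agent.Helper232.RZ.N_pe
import Pool.Agent.Helper232.RZ.N_ac_hom
import Pool.Agent.Helper232.RZ.N_ac_retract
import Pool.Agent.Helper232.RZ.N_hull
import Pool.Agent.Helper232.RZ.N_maxtype

set_option autoImplicit false

namespace Pool.Agent.Helper232.RZ


private theorem rl0_mono {R : Type} [Ring R] (θ : ℕ → PP R 1)
    (hθ : ∀ (i : ℕ) (M : Type) [AddCommGroup M] [Module R M] (x : M), (θ i).h x → (θ (i + 1)).h x)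
    (M : Type) [AddCommGroup M] [Module R M] (x : M) (i j : ℕ) (hij : i ≤ j)
    (h : (θ i).h x) : (θ j).h x := by
  induction j, hij using Nat.le_induction with
  | base => exact h
  | succ j _ ih => exact hθ j M x ih

private theorem rl0_half {R : Type} [Ring R] {M1 : Type} [AddCommGroup M1] [Module R M1]
    (hAC : AC R M1) (e : Module.End R M1) (hee : ∀ m, e (e m) = e m) (c1 : M1)
    (hhull : ∀ f : Module.End R M1, (∃ s : Module.End R M1, s (f c1) = c1) →
        ∃ s : Module.End R M1, ∀ m, s (f (e m)) = e m)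
    (c : LinearMap.range e) (hc : (c : M1) = c1)
    (P : LinearMap.range e →ₗ[R] LinearMap.range e)
    (htype : ∀ φ : PP R 1, φ.h (P c) → φ.h c) :
    ∀ b : LinearMap.range e, P b = 0 → b = 0 := by
  have hpi : ∀ x : LinearMap.range e, e (x : M1) = x := by
    rintro ⟨x, m, rfl⟩
    exact hee m
  have hip : ∀ x : LinearMap.range e, e.rangeRestrict ((LinearMap.range e).subtype x) = x := by
    intro x
    apply Subtype.ext
    exact hpi x
  have hret := ac_retract (LinearMap.range e).subtype e.rangeRestrict hip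
  obtain ⟨g, hg⟩ := ac_hom hAC (n := 1) (fun _ => ((P c : LinearMap.range e) : M1)) (fun _ => c1)
    (by
      intro φ h
      have h1 : φ.h (P c) := hret.2.2 1 φ (fun _ => P c) h
      have h2 := htype φ h1
      have h3 := h_map (LinearMap.range e).subtype φ c h2
      have h4 : (LinearMap.range e).subtype c = c1 := hc
      rw [h4] at h3
      exact h3)
  have hg0 := hg 0
  obtain ⟨s, hs⟩ := hhull (((LinearMap.range e).subtype.comp P).comp e.rangeRestrict) ⟨g, by
    have h1 : e.rangeRestrict c1 = c := by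
      rw [← hc]
      exact hip c
    simp only [LinearMap.comp_apply, h1]
    exact hg0⟩
  intro b hb
  have h := hs (b : M1)
  rw [hpi b] at h
  have h1 : e.rangeRestrict (b : M1) = b := hip b
  simp only [LinearMap.comp_apply, h1, hb, map_zero] at h
  exact Subtype.ext h.symm


theorem rl0 {R : Type} [Ring R] (Q : Set (Σ n : ℕ, PP R n × PP R n)) (θ : ℕ → PP R 1)
    (hθ : ∀ (i : ℕ) (M : Type) [AddCommGroup M] [Module R M] (x : M), (θ i).h x → (θ (i + 1)).h x)
    (M : Type) [AddCommGroup M] [Module R M] (hM : InD Q M) (a : M) (ha : ∀ i, ¬ (θ i).h a) :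
    ∃ (H : Type) (_ : AddCommGroup H) (_ : Module R H), AC R H ∧ Indec R H ∧ InD Q H ∧ ∃ c : H,
      (∀ φ : PP R 1, φ.h a → φ.h c) ∧ (∀ i, ¬ (θ i).h c) ∧
      ∀ (M'' : Type) [AddCommGroup M''] [Module R M''] (c' : M''), InD Q M'' →
        (∀ φ : PP R 1, φ.h c → φ.h c') → (∀ i, ¬ (θ i).h c') →
          ∀ φ : PP R 1, φ.h c' → φ.h c := by
  obtain ⟨M', _, _, hM', c0, hc1, hc2, hmax⟩ := maxtype Q θ M hM a ha
  obtain ⟨M1, _, _, ι, hAC, hι, hι2⟩ := pe (R := R) M'
  have hD1 : InD Q M1 := fun q hq => hι2 q.1 q.2.1 q.2.2 (hM' q hq)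
  have ht1 : ∀ φ : PP R 1, φ.h (ι c0) ↔ φ.h c0 :=
    fun φ => ⟨fun h => hι 1 φ (fun _ => c0) h, fun h => h_map ι φ c0 h⟩
  obtain ⟨e, hee, hec, hhull⟩ := hull hAC (ι c0)
  have hpi : ∀ x : LinearMap.range e, e (x : M1) = x := by
    rintro ⟨x, m, rfl⟩
    exact hee m
  have hip : ∀ x : LinearMap.range e, e.rangeRestrict ((LinearMap.range e).subtype x) = x := by
    intro x
    apply Subtype.ext
    exact hpi x
  have hret := ac_retract (LinearMap.range e).subtype e.rangeRestrict hip
  set c : LinearMap.range e := ⟨ι c0, ⟨ι c0, hec⟩⟩ with hcdef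
  have hcc : (c : M1) = ι c0 := rfl
  have ht : ∀ φ : PP R 1, φ.h c ↔ φ.h c0 := by
    intro φ
    constructor
    · intro h
      exact (ht1 φ).1 (h_map (LinearMap.range e).subtype φ c h)
    · intro h
      exact hret.2.2 1 φ (fun _ => c) ((ht1 φ).2 h)
  have hDH : InD Q (LinearMap.range e) := hret.2.1 Q hD1
  have hmaxc : ∀ (M'' : Type) [AddCommGroup M''] [Module R M''] (c' : M''), InD Q M'' →
        (∀ φ : PP R 1, φ.h c → φ.h c') → (∀ i, ¬ (θ i).h c') →
          ∀ φ : PP R 1, φ.h c' → φ.h c := by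
    intro M'' _ _ c' hD h1 h2 φ h3
    exact (ht φ).2 (hmax M'' c' hD (fun ψ hψ => h1 ψ ((ht ψ).2 hψ)) h2 φ h3)
  have hthc : ∀ i, ¬ (θ i).h c := fun i h => hc2 i ((ht _).1 h)
  refine ⟨LinearMap.range e, inferInstance, inferInstance, hret.1 hAC, ⟨?_, ?_⟩, hDH, c,
    fun φ h => (ht φ).2 (hc1 φ h), hthc, hmaxc⟩
  · refine nontrivial_of_ne c 0 ?_
    intro h0
    apply hthc 0
    rw [h0]
    exact (h_add (θ 0) (0 : LinearMap.range e) 0).2.2.2
  · have key : ∀ P : LinearMap.range e →ₗ[R] LinearMap.range e, (∀ i, ¬ (θ i).h (P c)) →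
        ∀ b : LinearMap.range e, P b = 0 → b = 0 := by
      intro P hP
      exact rl0_half hAC e hee (ι c0) hhull c hcc P
        (hmaxc (LinearMap.range e) (P c) hDH (fun φ h => h_map P φ c h) hP)
    intro A B hAB
    set PA : LinearMap.range e →ₗ[R] LinearMap.range e :=
      A.projection B hAB with hPA
    set PB : LinearMap.range e →ₗ[R] LinearMap.range e :=
      B.projection A hAB.symm with hPB
    have hsum : ∀ x, PA x + PB x = x := by
      intro x
      exact Submodule.projection_add_projection_eq_self hAB x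
    by_cases hA : ∀ i, ¬ (θ i).h (PA c)
    · right
      rw [Submodule.eq_bot_iff]
      intro b hb
      apply key PA hA b
      rw [hPA]
      exact (Submodule.projection_apply_eq_zero_iff hAB).2 hb
    · by_cases hB : ∀ i, ¬ (θ i).h (PB c)
      · left
        rw [Submodule.eq_bot_iff]
        intro b hb
        apply key PB hB b
        rw [hPB]
        exact (Submodule.projection_apply_eq_zero_iff hAB.symm).2 hb
      · exfalso
        push Not at hA hB
        obtain ⟨i, hi⟩ := hA
        obtain ⟨j, hj⟩ := hB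
        apply hthc (max i j)
        have h1 := rl0_mono θ hθ _ _ i (max i j) (le_max_left _ _) hi
        have h2 := rl0_mono θ hθ _ _ j (max i j) (le_max_right _ _) hj
        have h3 := (h_add (θ (max i j)) (PA c) (PB c)).1 h1 h2
        rw [hsum c] at h3
        exact h3

end Pool.Agent.Helper232.RZ
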