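import Mathlib
import Pool.Agent.Helper232.RZ.Defs
import Pool.Agent.Helper232.RZ.N_h_map
import Pool.Agent.Helper232.RZ.N_rl0

set_option autoImplicit false

namespace Pool.Agent.Helper232.RZ


theorem rl {R : Type} [Ring R] (Q : Set (Σ n : ℕ, PP R n × PP R n)) (N : Type) [AddCommGroup N]
    [Module R N] (hN : Uniq Q N) (θ : ℕ → PP R 1)
    (hθ : ∀ (i : ℕ) (M : Type) [AddCommGroup M] [Module R M] (x : M), (θ i).h x → (θ (i + 1)).h x)
    (M : Type) [AddCommGroup M] [Module R M] (hM : InD Q M) (a : M) (ha : ∀ i, ¬ (θ i).h a) :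
    ∃ c : N, (∀ φ : PP R 1, φ.h a → φ.h c) ∧ (∀ i, ¬ (θ i).h c) ∧
      ∀ (M'' : Type) [AddCommGroup M''] [Module R M''] (c' : M''), InD Q M'' →
        (∀ φ : PP R 1, φ.h c → φ.h c') → (∀ i, ¬ (θ i).h c') →
          ∀ φ : PP R 1, φ.h c' → φ.h c := by
  obtain ⟨H, iH, mH, hac, hind, hmem, c, h1, h2, h3⟩ := rl0 Q θ hθ M hM a ha
  obtain ⟨e⟩ := hN.uniq H hind hac hmem
  refine ⟨e c, fun φ hφ => h_map e.toLinearMap φ c (h1 φ hφ), fun i hi => h2 i ?_, ?_⟩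
  · have h := h_map e.symm.toLinearMap _ _ hi
    have e1 : e.symm.toLinearMap (e c) = c := e.symm_apply_apply c
    rw [e1] at h
    exact h
  · intro M'' _ _ c' hM'' h4 h5 φ hφ
    have h := h3 M'' c' hM'' (fun φ hφ => h4 φ (h_map e.toLinearMap φ c hφ)) h5 φ hφ
    exact h_map e.toLinearMap φ c h


end Pool.Agent.Helper232.RZ
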