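import Mathlib
import Pool.Agent.Helper232.RZ.Defs
import Pool.Agent.Helper232.RZ.N_formulas
import Pool.Agent.Helper232.RZ.N_andFin
import Pool.Agent.Helper232.RZ.N_cp
import Pool.Agent.Helper232.RZ.N_ac_hom
import Pool.Agent.Helper232.RZ.N_rl

set_option autoImplicit false

namespace Pool.Agent.Helper232.RZ


theorem L1 {R : Type} [Ring R] (Q : Set (Σ n : ℕ, PP R n × PP R n)) (N : Type) [AddCommGroup N]
    [Module R N] (hN : Uniq Q N) (θ : PP R 1) (a b : N) (ha : a ≠ 0) (hb : Vt θ b) :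
    ∃ σ : PP R 2, σ.H ![a, b] ∧ ∀ (M : Type) [AddCommGroup M] [Module R M], InD Q M →
      ∀ y : M, σ.H ![0, y] → θ.h y := by
  classical
  by_contra hcon
  have hcon' : ∀ σ : PP R 2, σ.H ![a, b] → ∃ (M : Type) (_ : AddCommGroup M) (_ : Module R M),
      InD Q M ∧ ∃ y : M, σ.H ![0, y] ∧ ¬ θ.h y := by
    intro σ hσ
    by_contra hc
    apply hcon
    refine ⟨σ, hσ, fun M _ _ hM y hy => ?_⟩
    by_contra hθ
    exact hc ⟨M, _, _, hM, y, hy, hθ⟩
  have h4 := (formulas (R := R)).2.2.2.1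
  choose Z hZ using h4
  obtain ⟨M, i1, i2, hM, x, hx1, hx2⟩ := cp Q 1 {ζ | ∃ σ : PP R 2, σ.H ![a, b] ∧ ζ = Z σ} {θ} (by
    intro F G hF hG
    have hF' : ∀ ζ, ζ ∈ F → ∃ σ : PP R 2, σ.H ![a, b] ∧ ζ = Z σ := fun ζ hζ => hF hζ
    haveI : Nonempty (PP R 2) := ⟨⟨0, 0, fun _ _ => 0, fun _ _ => 0⟩⟩
    choose! s hs using hF'
    obtain ⟨χ, hχ⟩ := andFin (F.image s)
    have hχab : χ.H ![a, b] := by
      rw [hχ]
      intro σ hσ
      obtain ⟨ζ, hζ, rfl⟩ := Finset.mem_image.1 hσ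
      exact (hs ζ hζ).1
    obtain ⟨M, i1, i2, hM, y, hy, hθ⟩ := hcon' χ hχab
    refine ⟨M, i1, i2, hM, fun _ => y, fun ζ hζ => ?_, fun τ hτ => ?_⟩
    · have h1 : (s ζ).H ![0, y] := (hχ M ![0, y]).1 hy _ (Finset.mem_image_of_mem s hζ)
      have h2 := (hZ (s ζ) M y).2 h1
      rw [(hs ζ hζ).2]
      exact h2
    · have : τ = θ := hG hτ
      rw [this]
      exact hθ)
  have hxe : x = fun _ => x 0 := by
    funext i
    rw [Subsingleton.elim i 0]
  have hx2' : ¬ θ.h (x 0) := by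
    have := hx2 θ rfl
    rw [hxe] at this
    exact this
  obtain ⟨c, hc1, hc2, -⟩ := rl Q N hN (fun _ => θ) (fun _ _ _ _ _ h => h) M hM (x 0)
    (fun _ => hx2')
  obtain ⟨g, hg⟩ := ac_hom hN.ac ![a, b] ![0, c] (by
    intro φ hφ
    have h1 : (Z φ).H x := hx1 (Z φ) ⟨φ, hφ, rfl⟩
    rw [hxe] at h1
    have h2 : (Z φ).h c := hc1 (Z φ) h1
    exact (hZ φ N c).1 h2)
  have hga : g a = 0 := hg 0
  have hgb : g b = c := hg 1
  have hnu : ¬ IsUnit (g : Module.End R N) := by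
    intro hu
    have hbij := (Module.End.isUnit_iff g).1 hu
    apply ha
    apply hbij.1
    rw [hga, map_zero]
  have h5 := hb g hnu
  rw [hgb] at h5
  exact hc2 0 h5

end Pool.Agent.Helper232.RZ
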