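import Mathlib
import Pool.Agent.Helper232.RZ.Defs

set_option autoImplicit false

namespace Pool.Agent.Helper232.RZ


theorem countPP (S : Type) [Countable S] (n : ℕ) : Countable (PP S n) := by
  have hinj : Function.Injective (fun φ : PP S n =>
      (⟨φ.m, ⟨φ.p, (φ.A, φ.B)⟩⟩ : Σ m : ℕ, Σ p : ℕ, (Fin m → Fin n → S) × (Fin m → Fin p → S))) := by
    rintro ⟨m, p, A, B⟩ ⟨m', p', A', B'⟩ h
    simp only [Sigma.mk.injEq] at h
    obtain ⟨rfl, h⟩ := h
    rw [heq_eq_eq, Sigma.mk.injEq] at h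
    obtain ⟨rfl, h⟩ := h
    rw [heq_eq_eq, Prod.mk.injEq] at h
    obtain ⟨rfl, rfl⟩ := h
    rfl
  exact hinj.countable

end Pool.Agent.Helper232.RZ
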