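import Mathlib
import Pool.Agent.Helper232.RZ.Defs

set_option autoImplicit false

namespace Pool.Agent.Helper232.RZ


private theorem flat_closure_gens (k : Type) [CommRing k] [IsNoetherianRing k] (q m : ℕ)
    (α : Fin q → Fin m → k) :
    ∃ (r : ℕ) (c : Fin m → Fin r → k), (∀ t j, ∑ i, α t i * c i j = 0) ∧
      ∀ w : Fin m → k, (∀ t, ∑ i, α t i * w i = 0) → ∃ v : Fin r → k, ∀ i, w i = ∑ j, c i j * v j := by
  classical
  let N : Submodule k (Fin m → k) :=
    { carrier := {w | ∀ t, ∑ i, α t i * w i = 0}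
      add_mem' := by
        intro a b ha hb t
        simp only [Set.mem_setOf_eq] at ha hb
        simp only [Pi.add_apply, mul_add, Finset.sum_add_distrib, ha t, hb t, add_zero]
      zero_mem' := by intro t; simp
      smul_mem' := by
        intro c x hx t
        simp only [Set.mem_setOf_eq] at hx
        have : ∑ i, α t i * (c • x) i = c * ∑ i, α t i * x i := by
          rw [Finset.mul_sum]
          refine Finset.sum_congr rfl fun i _ => ?_
          simp only [Pi.smul_apply, smul_eq_mul]; ring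
        rw [this, hx t, mul_zero] }
  have hN : N.FG := IsNoetherian.noetherian N
  obtain ⟨r, g, hg⟩ := Submodule.fg_iff_exists_fin_generating_family.mp hN
  refine ⟨r, fun i j => g j i, ?_, ?_⟩
  · intro t j
    have : g j ∈ N := by rw [← hg]; exact Submodule.subset_span ⟨j, rfl⟩
    exact this t
  · intro w hw
    have hwN : w ∈ N := hw
    rw [← hg, Submodule.mem_span_range_iff_exists_fun] at hwN
    obtain ⟨v, hv⟩ := hwN
    refine ⟨v, fun i => ?_⟩
    rw [← hv]
    simp only [Finset.sum_apply, Pi.smul_apply, smul_eq_mul]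
    exact Finset.sum_congr rfl fun j _ => mul_comm _ _

theorem flat_closure (k : Type) [CommRing k] [IsNoetherianRing k] (S : Set k) (hS : S.Countable) :
    ∃ k0 : Subring k, S ⊆ k0 ∧ (k0 : Set k).Countable ∧
      ∀ (q m : ℕ) (α : Fin q → Fin m → k) (w : Fin m → k), (∀ t i, α t i ∈ k0) →
        (∀ t, ∑ i, α t i * w i = 0) →
        ∃ (r : ℕ) (v : Fin r → k) (c : Fin m → Fin r → k), (∀ i j, c i j ∈ k0) ∧
          (∀ i, w i = ∑ j, c i j * v j) ∧ ∀ t j, ∑ i, α t i * c i j = 0 := by
  classical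
  choose R C hC1 hC2 using flat_closure_gens k
  let step : Set k → Set k := fun K =>
    K ∪ ({0, 1} : Set k) ∪ Set.image2 (· + ·) K K ∪ Set.image2 (· * ·) K K ∪ (fun x => -x) '' K ∪
      ⋃ (q : ℕ), ⋃ (m : ℕ), ⋃ (α : Fin q → Fin m → K),
        Set.range (fun p : Fin m × Fin (R q m (fun t i => (α t i : k))) =>
          C q m (fun t i => (α t i : k)) p.1 p.2)
  have hstepc : ∀ K : Set k, K.Countable → (step K).Countable := by
    intro K hK
    have : Countable K := hK.to_subtype
    refine Set.Countable.union (Set.Countable.union (Set.Countable.union (Set.Countable.union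
      (Set.Countable.union hK ?_) (hK.image2 hK _)) (hK.image2 hK _)) (hK.image _)) ?_
    · exact (Set.toFinite _).countable
    · refine Set.countable_iUnion fun q => Set.countable_iUnion fun m => Set.countable_iUnion
        fun α => Set.countable_range _
  let K : ℕ → Set k := fun n => Nat.rec S (fun _ T => step T) n
  have hK0 : K 0 = S := rfl
  have hKs : ∀ n, K (n + 1) = step (K n) := fun n => rfl
  have hKc : ∀ n, (K n).Countable := by
    intro n
    induction n with
    | zero => rw [hK0]; exact hS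
    | succ n ih => rw [hKs]; exact hstepc _ ih
  have hsub : ∀ n, K n ⊆ K (n + 1) := by
    intro n x hx
    rw [hKs]
    exact Or.inl (Or.inl (Or.inl (Or.inl (Or.inl hx))))
  have hmono : Monotone K := monotone_nat_of_le_succ hsub
  have hadd : ∀ n a b, a ∈ K n → b ∈ K n → a + b ∈ K (n + 1) := by
    intro n a b ha hb
    rw [hKs]
    exact Or.inl (Or.inl (Or.inl (Or.inr ⟨a, ha, b, hb, rfl⟩)))
  have hmul : ∀ n a b, a ∈ K n → b ∈ K n → a * b ∈ K (n + 1) := by
    intro n a b ha hb
    rw [hKs]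
    exact Or.inl (Or.inl (Or.inr ⟨a, ha, b, hb, rfl⟩))
  have hneg : ∀ n a, a ∈ K n → -a ∈ K (n + 1) := by
    intro n a ha
    rw [hKs]
    exact Or.inl (Or.inr ⟨a, ha, rfl⟩)
  let k0 : Subring k :=
    { carrier := ⋃ n, K n
      mul_mem' := by
        intro a b ha hb
        obtain ⟨i, hi⟩ := Set.mem_iUnion.mp ha
        obtain ⟨j, hj⟩ := Set.mem_iUnion.mp hb
        exact Set.mem_iUnion.mpr ⟨max i j + 1, hmul _ _ _ (hmono (le_max_left i j) hi)
          (hmono (le_max_right i j) hj)⟩
      one_mem' := Set.mem_iUnion.mpr ⟨1, by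
        change _ ∈ step (K 0); exact Or.inl (Or.inl (Or.inl (Or.inl (Or.inr (by simp)))))⟩
      add_mem' := by
        intro a b ha hb
        obtain ⟨i, hi⟩ := Set.mem_iUnion.mp ha
        obtain ⟨j, hj⟩ := Set.mem_iUnion.mp hb
        exact Set.mem_iUnion.mpr ⟨max i j + 1, hadd _ _ _ (hmono (le_max_left i j) hi)
          (hmono (le_max_right i j) hj)⟩
      zero_mem' := Set.mem_iUnion.mpr ⟨1, by
        change _ ∈ step (K 0); exact Or.inl (Or.inl (Or.inl (Or.inl (Or.inr (by simp)))))⟩
      neg_mem' := by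
        intro a ha
        obtain ⟨i, hi⟩ := Set.mem_iUnion.mp ha
        exact Set.mem_iUnion.mpr ⟨i + 1, hneg _ _ hi⟩ }
  refine ⟨k0, ?_, ?_, ?_⟩
  · intro x hx
    exact Set.mem_iUnion.mpr ⟨0, hx⟩
  · exact Set.countable_iUnion hKc
  · intro q m α w hα hw
    have h1 : ∃ n, ∀ t i, α t i ∈ K n := by
      have h2 : ∀ t i, ∃ n, α t i ∈ K n := fun t i => Set.mem_iUnion.mp (hα t i)
      choose f hf using h2
      refine ⟨(Finset.univ : Finset (Fin q × Fin m)).sup (fun p => f p.1 p.2), fun t i => ?_⟩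
      exact hmono (Finset.le_sup (f := fun p : Fin q × Fin m => f p.1 p.2)
        (Finset.mem_univ (t, i))) (hf t i)
    obtain ⟨n, hn⟩ := h1
    obtain ⟨v, hv⟩ := hC2 q m α w hw
    refine ⟨R q m α, v, C q m α, ?_, hv, hC1 q m α⟩
    intro i j
    refine Set.mem_iUnion.mpr ⟨n + 1, ?_⟩
    rw [hKs]
    refine Or.inr ?_
    refine Set.mem_iUnion.mpr ⟨q, Set.mem_iUnion.mpr ⟨m, Set.mem_iUnion.mpr
      ⟨fun t i => ⟨α t i, hn t i⟩, ⟨(i, j), rfl⟩⟩⟩⟩

end Pool.Agent.Helper232.RZ
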