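import Mathlib
import Pool.Agent.Helper232.RZ.Defs
import Pool.Agent.Helper232.RZ.N_flat_closure

set_option autoImplicit false

namespace Pool.Agent.Helper232.RZ


/-- the subring generated by the structure constants -/
private def desc_R0 {k R : Type} [CommRing k] [Ring R] [Algebra k R] (k0 : Subring k) (d : ℕ)
    (g : Fin d → R)
    (h1 : ∃ c : Fin d → k, (∀ j, c j ∈ k0) ∧ (1 : R) = ∑ j, algebraMap k R (c j) * g j)
    (h2 : ∀ i l, ∃ c : Fin d → k, (∀ j, c j ∈ k0) ∧ g i * g l = ∑ j, algebraMap k R (c j) * g j) :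
    Subring R where
  carrier := {s | ∃ c : Fin d → k, (∀ j, c j ∈ k0) ∧ s = ∑ j, algebraMap k R (c j) * g j}
  one_mem' := h1
  mul_mem' := by
    rintro s t ⟨a, ha, rfl⟩ ⟨b, hb, rfl⟩
    choose u hu hu2 using h2
    refine ⟨fun j => ∑ i, ∑ l, a i * b l * u i l j, fun j => ?_, ?_⟩
    · exact k0.sum_mem fun i _ => k0.sum_mem fun l _ =>
        k0.mul_mem (k0.mul_mem (ha i) (hb l)) (hu i l j)
    · rw [Finset.sum_mul_sum]
      have h3 : ∀ i l, algebraMap k R (a i) * g i * (algebraMap k R (b l) * g l) =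
          ∑ j, algebraMap k R (a i * b l * u i l j) * g j := by
        intro i l
        have h4 : algebraMap k R (a i) * g i * (algebraMap k R (b l) * g l) =
            algebraMap k R (a i * b l) * (g i * g l) := by
          rw [map_mul, mul_assoc, ← mul_assoc (g i), ← Algebra.commutes (b l) (g i), mul_assoc,
            mul_assoc]
        rw [h4, hu2, Finset.mul_sum]
        apply Finset.sum_congr rfl
        intro j _
        rw [map_mul, map_mul, map_mul]
        simp only [mul_assoc]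
      simp only [h3]
      simp only [map_sum, Finset.sum_mul]
      exact (Finset.sum_congr rfl fun i _ => Finset.sum_comm).trans Finset.sum_comm
  add_mem' := by
    rintro s t ⟨a, ha, rfl⟩ ⟨b, hb, rfl⟩
    refine ⟨fun j => a j + b j, fun j => k0.add_mem (ha j) (hb j), ?_⟩
    rw [← Finset.sum_add_distrib]
    apply Finset.sum_congr rfl
    intro j _
    rw [map_add, add_mul]
  zero_mem' := ⟨fun _ => 0, fun _ => k0.zero_mem, by simp⟩
  neg_mem' := by
    rintro s ⟨a, ha, rfl⟩
    refine ⟨fun j => -a j, fun j => k0.neg_mem (ha j), ?_⟩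
    rw [← Finset.sum_neg_distrib]
    apply Finset.sum_congr rfl
    intro j _
    rw [map_neg, neg_mul]

theorem desc (k R : Type) [CommRing k] [IsNoetherianRing k] [Ring R] [Algebra k R]
    [Module.Finite k R] (X : Set R) (hX : X.Countable) :
    ∃ (k0 : Subring k) (R0 : Subring R) (d : ℕ) (g : Fin d → R), (k0 : Set k).Countable ∧
      (R0 : Set R).Countable ∧ X ⊆ R0 ∧ Desc k0 R0 d g := by
  classical
  obtain ⟨d, g, hg⟩ := Module.Finite.exists_fin (R := k) (M := R)
  have hgen : ∀ s : R, ∃ c : Fin d → k, s = ∑ j, algebraMap k R (c j) * g j := by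
    intro s
    have h1 : s ∈ Submodule.span k (Set.range g) := by rw [hg]; trivial
    rw [Submodule.mem_span_range_iff_exists_fun] at h1
    obtain ⟨c, hc⟩ := h1
    refine ⟨c, ?_⟩
    rw [← hc]
    apply Finset.sum_congr rfl
    intro j _
    rw [Algebra.smul_def]
  choose co hco using hgen
  -- relations
  let φ : (Fin d → k) →ₗ[k] R := Fintype.linearCombination k g
  have hφ : ∀ c : Fin d → k, φ c = ∑ j, algebraMap k R (c j) * g j := by
    intro c
    show Fintype.linearCombination k g c = _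
    rw [Fintype.linearCombination_apply]
    apply Finset.sum_congr rfl
    intro j _
    rw [Algebra.smul_def]
  have hfg : (LinearMap.ker φ).FG := IsNoetherian.noetherian _
  rw [Submodule.fg_iff_exists_fin_generating_family] at hfg
  obtain ⟨r, ρ, hρ⟩ := hfg
  set Y : Set R := X ∪ {1} ∪ Set.range (fun p : Fin d × Fin d => g p.1 * g p.2) with hY
  have hYc : Y.Countable :=
    (hX.union (Set.countable_singleton 1)).union (Set.countable_range _)
  set S : Set k := (⋃ s ∈ Y, Set.range (co s)) ∪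
    Set.range (fun p : Fin r × Fin d => ρ p.1 p.2) with hS
  have hSc : S.Countable :=
    (hYc.biUnion fun s _ => Set.countable_range _).union (Set.countable_range _)
  obtain ⟨k0, hSk, hk0, hflat⟩ := flat_closure k S hSc
  have hYk : ∀ s ∈ Y, ∀ j, co s j ∈ k0 := fun s hs j =>
    hSk (Or.inl (Set.mem_biUnion hs ⟨j, rfl⟩))
  have hρk : ∀ t j, ρ t j ∈ k0 := fun t j => hSk (Or.inr ⟨(t, j), rfl⟩)
  have h1 : ∃ c : Fin d → k, (∀ j, c j ∈ k0) ∧ (1 : R) = ∑ j, algebraMap k R (c j) * g j :=
    ⟨co 1, hYk 1 (Or.inl (Or.inr rfl)), hco 1⟩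
  have h2 : ∀ i l, ∃ c : Fin d → k, (∀ j, c j ∈ k0) ∧
      g i * g l = ∑ j, algebraMap k R (c j) * g j := fun i l =>
    ⟨co (g i * g l), hYk _ (Or.inr ⟨(i, l), rfl⟩), hco _⟩
  refine ⟨k0, desc_R0 k0 d g h1 h2, d, g, hk0, ?_, ?_, ⟨?_, hflat, ?_, ?_, ?_, ?_⟩⟩
  · have h3 : {c : Fin d → k | ∀ j, c j ∈ (k0 : Set k)}.Countable :=
      Set.countable_pi fun _ => hk0
    apply (h3.image fun c => ∑ j, algebraMap k R (c j) * g j).mono
    rintro s ⟨c, hc, rfl⟩
    exact ⟨c, hc, rfl⟩
  · intro x hx
    exact ⟨co x, hYk x (Or.inl (Or.inl hx)), hco x⟩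
  · intro c hc
    obtain ⟨u, hu, hu1⟩ := h1
    refine ⟨fun j => c * u j, fun j => k0.mul_mem hc (hu j), ?_⟩
    have h3 : algebraMap k R c = algebraMap k R c * 1 := (mul_one _).symm
    rw [h3, hu1, Finset.mul_sum]
    apply Finset.sum_congr rfl
    intro j _
    rw [map_mul, mul_assoc]
  · intro j
    refine ⟨Pi.single j 1, fun l => ?_, ?_⟩
    · by_cases h : l = j
      · rw [h, Pi.single_eq_same]; exact k0.one_mem
      · rw [Pi.single_eq_of_ne h]; exact k0.zero_mem
    · rw [Finset.sum_eq_single j]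
      · rw [Pi.single_eq_same, map_one, one_mul]
      · intro l _ h
        rw [Pi.single_eq_of_ne h, map_zero, zero_mul]
      · intro h
        exact absurd (Finset.mem_univ j) h
  · exact fun s => ⟨co s, hco s⟩
  · exact fun s hs => hs
  · intro c hc
    have h3 : c ∈ LinearMap.ker φ := by rw [LinearMap.mem_ker, hφ, hc]
    rw [← hρ, Submodule.mem_span_range_iff_exists_fun] at h3
    obtain ⟨v, hv⟩ := h3
    refine ⟨r, v, ρ, hρk, fun t => ?_, fun j => ?_⟩
    · have h4 : ρ t ∈ LinearMap.ker φ := by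
        rw [← hρ]; exact Submodule.subset_span ⟨t, rfl⟩
      rw [LinearMap.mem_ker, hφ] at h4
      exact h4
    · rw [← hv, Finset.sum_apply]
      rfl

end Pool.Agent.Helper232.RZ
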