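import Mathlib
import Pool.Agent.Helper232.RZ.Defs

set_option autoImplicit false

namespace Pool.Agent.Helper232.RZ


theorem down {R : Type} [Ring R] (R0 : Subring R) {n : ℕ} (φ : PP R n)
    (hA : ∀ i j, φ.A i j ∈ R0) (hB : ∀ i l, φ.B i l ∈ R0) : ∃ ψ : PP R0 n, ψ.up = φ :=
  ⟨⟨φ.m, φ.p, fun i j => ⟨φ.A i j, hA i j⟩, fun i l => ⟨φ.B i l, hB i l⟩⟩, rfl⟩

end Pool.Agent.Helper232.RZ

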