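import Mathlib
import Pool.Agent.Helper232.RZ.Defs
import Pool.Agent.Helper232.RZ.N_H_add
import Pool.Agent.Helper232.RZ.N_h_add

set_option autoImplicit false

namespace Pool.Agent.Helper232.RZ


private theorem fin_gen_sum {R : Type} [Ring R] {N : Type} [AddCommGroup N] [Module R N] {n q : ℕ}
    (τ : PP R n) (x : Fin q → Fin n → N) (h : ∀ i, τ.H (x i)) (S : Finset (Fin q)) :
    τ.H (fun j => ∑ i ∈ S, x i j) := by
  classical
  induction S using Finset.induction_on with
  | empty => simpa using (H_add τ (fun _ => (0 : N)) (fun _ => 0)).2.2.1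
  | insert i S hi ih =>
    have := (H_add τ (x i) (fun j => ∑ i ∈ S, x i j)).1 (h i) ih
    simpa [Finset.sum_insert hi] using this

private theorem fin_gen_smul {k R : Type} [CommRing k] [Ring R] [Algebra k R] {N : Type}
    [AddCommGroup N] [Module R N] {n : ℕ} (τ : PP R n) (z : k) (x : Fin n → N) (h : τ.H x) :
    τ.H (fun j => algebraMap k R z • x j) :=
  (H_add τ x x).2.2.2 _ (fun r => Algebra.commutes z r) h

/-- multiplication by a scalar -/
private def fin_gen_mul {k R : Type} [CommRing k] [Ring R] [Algebra k R] (N : Type)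
    [AddCommGroup N] [Module R N] (z : k) : Module.End R N where
  toFun x := algebraMap k R z • x
  map_add' x y := smul_add _ _ _
  map_smul' r x := by
    show algebraMap k R z • r • x = r • algebraMap k R z • x
    rw [← mul_smul, ← mul_smul, Algebra.commutes]

private theorem fin_gen_vadd {R : Type} [Ring R] {N : Type} [AddCommGroup N] [Module R N]
    (θ : PP R 1) (b b' : N) (h : Vt θ b) (h' : Vt θ b') : Vt θ (b + b') := by
  intro f hf
  rw [map_add]
  exact (h_add θ (f b) (f b')).1 (h f hf) (h' f hf)

private theorem fin_gen_vsmul {k R : Type} [CommRing k] [Ring R] [Algebra k R] {N : Type}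
    [AddCommGroup N] [Module R N] (θ : PP R 1) (z : k) (b : N) (h : Vt θ b) :
    Vt θ (algebraMap k R z • b) := by
  intro f hf
  rw [map_smul]
  exact fin_gen_smul θ z (fun _ => f b) (h f hf)

theorem fin_gen {k R : Type} [CommRing k] [IsNoetherianRing k] [Ring R] [Algebra k R] {N : Type}
    [AddCommGroup N] [Module R N] (θ : PP R 1) (a : N) (r : ℕ) (τ : PP R (r + 1))
    (hτ : ∀ y : N, τ.H (Matrix.vecCons y (fun _ => (0 : N))) → θ.h y) :
    ∃ (q : ℕ) (c : Fin q → N), (∀ i, Vt θ (c i)) ∧ ∀ (b : N) (w : Fin r → k), Vt θ b →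
      τ.H (Matrix.vecCons b (fun i => algebraMap k R (w i) • a)) →
      ∃ (f : Fin q → Module.End R N) (t : N), θ.h t ∧ b = ∑ i, f i (c i) + t := by
  classical
  let W : Submodule k (Fin r → k) :=
    { carrier := {w | ∃ b, Vt θ b ∧ τ.H (Matrix.vecCons b (fun i => algebraMap k R (w i) • a))}
      zero_mem' := by
        refine ⟨0, ?_, ?_⟩
        · intro f hf
          rw [map_zero]
          exact (h_add θ 0 0).2.2.2
        · have h := (H_add τ (fun _ => (0 : N)) (fun _ => 0)).2.2.1
          convert h using 1
          funext j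
          refine Fin.cases ?_ (fun j => ?_) j
          · rfl
          · simp
      add_mem' := by
        rintro w w' ⟨b, hb, h⟩ ⟨b', hb', h'⟩
        refine ⟨b + b', fin_gen_vadd θ b b' hb hb', ?_⟩
        have h2 := (H_add τ _ _).1 h h'
        convert h2 using 1
        funext j
        refine Fin.cases ?_ (fun j => ?_) j
        · rfl
        · simp [add_smul]
      smul_mem' := by
        rintro z w ⟨b, hb, h⟩
        refine ⟨algebraMap k R z • b, fin_gen_vsmul θ z b hb, ?_⟩
        have h2 := fin_gen_smul τ z _ h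
        convert h2 using 1
        funext j
        refine Fin.cases ?_ (fun j => ?_) j
        · rfl
        · simp [mul_smul] }
  obtain ⟨q, v, hv⟩ := Submodule.fg_iff_exists_fin_generating_family.mp
    (IsNoetherian.noetherian W)
  have hvW : ∀ i, v i ∈ W := fun i => hv ▸ Submodule.subset_span ⟨i, rfl⟩
  choose c hc hτc using hvW
  refine ⟨q, c, hc, ?_⟩
  intro b w hb hw
  have hwW : w ∈ Submodule.span k (Set.range v) := by
    rw [hv]
    exact ⟨b, hb, hw⟩
  obtain ⟨z, hz⟩ := (Submodule.mem_span_range_iff_exists_fun k).mp hwW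
  have hsum := fin_gen_sum τ
    (fun i j => algebraMap k R (z i) • (Matrix.vecCons (c i)
      (fun l => algebraMap k R (v i l) • a) : Fin (r + 1) → N) j)
    (fun i => fin_gen_smul τ (z i) _ (hτc i)) Finset.univ
  have hneg := (H_add τ _ (fun _ => (0 : N))).2.1 hsum
  have hd := (H_add τ _ _).1 hw hneg
  refine ⟨fun i => fin_gen_mul N (z i), b - ∑ i, algebraMap k R (z i) • c i, ?_, ?_⟩
  · apply hτ
    convert hd using 1
    funext j
    refine Fin.cases ?_ (fun j => ?_) j
    · simp [sub_eq_add_neg]
    · have : w j = ∑ i, z i * v i j := by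
        rw [← hz]
        simp
      simp [this, map_sum, Finset.sum_smul, mul_smul]
  · have : ∑ i, (fin_gen_mul N (z i) : Module.End R N) (c i) = ∑ i, algebraMap k R (z i) • c i :=
      rfl
    rw [this]
    abel

end Pool.Agent.Helper232.RZ
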