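import Mathlib
import Pool.Agent.Helper232.RZ.Defs
import Pool.Agent.Helper232.RZ.N_h_add
import Pool.Agent.Helper232.RZ.N_L1
import Pool.Agent.Helper232.RZ.N_up_iff
import Pool.Agent.Helper232.RZ.N_down
import Pool.Agent.Helper232.RZ.N_countPP
import Pool.Agent.Helper232.RZ.N_desc
import Pool.Agent.Helper232.RZ.N_K
import Pool.Agent.Helper232.RZ.N_fin_gen

set_option autoImplicit false

namespace Pool.Agent.Helper232.RZ


theorem dim {k R : Type} [CommRing k] [IsNoetherianRing k] [Ring R] [Algebra k R]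
    [Module.Finite k R] {n : ℕ} (φ ψ : PP R n) (N : Type) [AddCommGroup N] [Module R N]
    (hN : Uniq {(⟨n, (φ, ψ)⟩ : Σ n : ℕ, PP R n × PP R n)} N) (θ : PP R 1) :
    ∃ B : ℕ → N, (∀ i, Vt θ (B i)) ∧ ∀ b : N, Vt θ b →
      ∃ (F : Finset ℕ) (f : ℕ → Module.End R N) (t : N), θ.h t ∧ b = ∑ i ∈ F, f i (B i) + t := by
  classical
  let X : Set R := (Set.range fun z : Fin φ.m × Fin n => φ.A z.1 z.2) ∪
    (Set.range fun z : Fin φ.m × Fin φ.p => φ.B z.1 z.2) ∪
    (Set.range fun z : Fin ψ.m × Fin n => ψ.A z.1 z.2) ∪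
    (Set.range fun z : Fin ψ.m × Fin ψ.p => ψ.B z.1 z.2) ∪
    (Set.range fun z : Fin θ.m × Fin 1 => θ.A z.1 z.2) ∪
    (Set.range fun z : Fin θ.m × Fin θ.p => θ.B z.1 z.2)
  have hX : X.Countable :=
    (((((Set.countable_range _).union (Set.countable_range _)).union
      (Set.countable_range _)).union (Set.countable_range _)).union
      (Set.countable_range _)).union (Set.countable_range _)
  obtain ⟨k0, R0, d, g, -, hR0, hXR, hD⟩ := desc k R X hX
  obtain ⟨φ0, rfl⟩ := down R0 φ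
    (fun i j => hXR (Or.inl (Or.inl (Or.inl (Or.inl (Or.inl ⟨(i, j), rfl⟩))))))
    (fun i j => hXR (Or.inl (Or.inl (Or.inl (Or.inl (Or.inr ⟨(i, j), rfl⟩))))))
  obtain ⟨ψ0, rfl⟩ := down R0 ψ
    (fun i j => hXR (Or.inl (Or.inl (Or.inl (Or.inr ⟨(i, j), rfl⟩)))))
    (fun i j => hXR (Or.inl (Or.inl (Or.inr ⟨(i, j), rfl⟩))))
  obtain ⟨θ0, rfl⟩ := down R0 θ
    (fun i j => hXR (Or.inl (Or.inr ⟨(i, j), rfl⟩)))
    (fun i j => hXR (Or.inr ⟨(i, j), rfl⟩))
  have : Countable R0 := hR0.to_subtype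
  have := hN.ind.1
  obtain ⟨a, ha⟩ := exists_ne (0 : N)
  let T : Type := Σ r : ℕ, {τ : PP R0 (r + 1) //
    ∀ y : N, τ.H (Matrix.vecCons y (fun _ => (0 : N))) → θ0.h y}
  have hc1 : ∀ r : ℕ, Countable (PP R0 (r + 1)) := fun r => countPP R0 (r + 1)
  have hc2 : ∀ r : ℕ, Countable {τ : PP R0 (r + 1) //
    ∀ y : N, τ.H (Matrix.vecCons y (fun _ => (0 : N))) → θ0.h y} := fun r => inferInstance
  have hT : Countable T := inferInstanceAs (Countable (Σ r : ℕ, {τ : PP R0 (r + 1) //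
    ∀ y : N, τ.H (Matrix.vecCons y (fun _ => (0 : N))) → θ0.h y}))
  have hfg : ∀ t : T, ∃ (q : ℕ) (c : Fin q → N), (∀ i, Vt θ0.up (c i)) ∧
      ∀ (b : N) (w : Fin t.1 → k), Vt θ0.up b →
      t.2.1.up.H (Matrix.vecCons b (fun i => algebraMap k R (w i) • a)) →
      ∃ (f : Fin q → Module.End R N) (t : N), θ0.up.h t ∧ b = ∑ i, f i (c i) + t := by
    intro t
    apply fin_gen θ0.up a t.1 t.2.1.up
    intro y hy
    rw [up_iff] at hy
    have := t.2.2 y hy
    exact (up_iff θ0 _).2 this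
  choose q c hc hf using hfg
  let I : Type := Option (Σ t : T, Fin (q t))
  have : Countable I := inferInstanceAs (Countable (Option (Σ t : T, Fin (q t))))
  have : Nonempty I := ⟨none⟩
  obtain ⟨e, he⟩ := exists_surjective_nat I
  let v : I → N := fun i => match i with
    | none => 0
    | some z => c z.1 z.2
  refine ⟨fun i => v (e i), ?_, ?_⟩
  · intro i
    show Vt θ0.up (v (e i))
    rcases e i with _ | z
    · intro f _
      show θ0.up.h (f 0)
      rw [map_zero]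
      exact (h_add θ0.up (0 : N) 0).2.2.2
    · exact hc z.1 z.2
  · intro b hb
    obtain ⟨σ, hσ1, hσ2⟩ := L1 _ N hN θ0.up a b ha hb
    obtain ⟨r, w, τ, h1, h2⟩ := K k0 R0 d g hD φ0 ψ0 θ0 σ (by
      intro M _ _ hM y hy
      apply hσ2 M _ y hy
      intro q' hq'
      rw [Set.mem_singleton_iff] at hq'
      subst hq'
      exact hM)
    have hNm : ∀ x : Fin n → N, φ0.H x → ψ0.H x := by
      intro x hx
      have := hN.mem _ (Set.mem_singleton _) x ((up_iff φ0 x).2 hx)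
      exact (up_iff ψ0 x).1 this
    let t : T := ⟨r, ⟨τ, h2 N hNm⟩⟩
    obtain ⟨f, u, hu, hbu⟩ := hf t b w hb (h1 N a b hσ1)
    obtain ⟨s, hs⟩ := he.hasRightInverse
    have hinj : Function.Injective (fun i : Fin (q t) => s (some ⟨t, i⟩ : I)) := by
      intro i j hij
      have h3 := congrArg e hij
      simp only at h3
      rw [hs, hs] at h3
      have h4 := Option.some.inj h3
      simpa using h4
    refine ⟨Finset.univ.image (fun i : Fin (q t) => s (some ⟨t, i⟩ : I)),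
      Function.extend (fun i : Fin (q t) => s (some ⟨t, i⟩ : I)) f 0, u, hu, ?_⟩
    rw [Finset.sum_image (fun i _ j _ hij => hinj hij)]
    rw [hbu]
    congr 1
    refine Finset.sum_congr rfl fun i _ => ?_
    rw [hinj.extend_apply]
    show f i (c t i) = f i (v (e (s (some ⟨t, i⟩ : I))))
    rw [hs]

end Pool.Agent.Helper232.RZ
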