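import Mathlib
import Pool.Agent.Helper232.RZ.Defs
import Pool.Agent.Helper232.RZ.N_hull

set_option autoImplicit false

namespace Pool.Agent.Helper232.RZ


private theorem le0_idem {R : Type} [Ring R] {N : Type} [AddCommGroup N] [Module R N]
    (hi : Indec R N) (e : Module.End R N) (he : ∀ m, e (e m) = e m) :
    (∀ m, e m = 0) ∨ ∀ m, e m = m := by
  have hc : IsCompl (LinearMap.range e) (LinearMap.ker e) := by
    constructor
    · rw [Submodule.disjoint_def]
      rintro x ⟨m, rfl⟩ hx
      rw [LinearMap.mem_ker, he] at hx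
      exact hx
    · rw [codisjoint_iff, eq_top_iff]
      intro x _
      rw [Submodule.mem_sup]
      refine ⟨e x, ⟨x, rfl⟩, x - e x, ?_, by abel⟩
      rw [LinearMap.mem_ker, map_sub, he, sub_self]
  rcases hi.2 _ _ hc with h | h
  · left
    intro m
    have h1 : e m ∈ LinearMap.range e := ⟨m, rfl⟩
    rw [h, Submodule.mem_bot] at h1
    exact h1
  · right
    intro m
    have h1 : m - e m ∈ LinearMap.ker e := by
      rw [LinearMap.mem_ker, map_sub, he, sub_self]
    rw [h, Submodule.mem_bot, sub_eq_zero] at h1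
    exact h1.symm

theorem le0 {R : Type} [Ring R] {N : Type} [AddCommGroup N] [Module R N] (hN : AC R N)
    (hi : Indec R N) (c : N) (hc : c ≠ 0) (f s : Module.End R N) (h : s (f c) = c) :
    IsUnit f := by
  obtain ⟨e, he, hec, hs⟩ := hull hN c
  have he1 : ∀ m, e m = m := by
    rcases le0_idem hi e he with h0 | h1
    · exact absurd (hec.symm.trans (h0 c)) hc
    · exact h1
  obtain ⟨s', hs'⟩ := hs f ⟨s, h⟩
  have hs2 : ∀ m, s' (f m) = m := by
    intro m
    have := hs' m
    rw [he1] at this
    exact this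
  have hfs : ∀ m, f (s' m) = m := by
    rcases le0_idem hi (f * s') (fun m => by
      show f (s' (f (s' m))) = f (s' m)
      rw [hs2]) with h0 | h1
    · exfalso
      apply hc
      have h2 : f (s' (f c)) = 0 := h0 (f c)
      rw [hs2] at h2
      have h3 := hs2 c
      rw [h2, map_zero] at h3
      exact h3.symm
    · exact h1
  exact ⟨⟨f, s', LinearMap.ext hfs, LinearMap.ext hs2⟩, rfl⟩

end Pool.Agent.Helper232.RZ
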