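import Mathlib
import Pool.Agent.Helper232.RZ.Defs
import Pool.Agent.Helper232.RZ.N_ac_hom
import Pool.Agent.Helper232.RZ.N_le0

set_option autoImplicit false

namespace Pool.Agent.Helper232.RZ


theorem link {R : Type} [Ring R] (Q : Set (Σ n : ℕ, PP R n × PP R n)) (N : Type) [AddCommGroup N]
    [Module R N] (hN : Uniq Q N) (c v : N) (hc : c ≠ 0) (hv : v ≠ 0) :
    ∃ ρ : PP R 2, ρ.H ![c, v] ∧ ¬ ρ.H ![c, 0] := by
  by_contra hcon
  push Not at hcon
  obtain ⟨g, hg⟩ := ac_hom hN.ac ![c, v] ![c, 0] hcon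
  have h0 : g c = c := by simpa using hg 0
  have h1 : g v = 0 := by simpa using hg 1
  have hu : IsUnit (g : Module.End R N) := le0 hN.ac hN.ind c hc g 1 (by
    rw [Module.End.one_apply]
    exact h0)
  have hb := (Module.End.isUnit_iff g).1 hu
  exact hv (hb.1 (by rw [h1, map_zero]))

end Pool.Agent.Helper232.RZ
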