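import Mathlib
import Pool.Agent.Helper232.RZ.Defs
import Pool.Agent.Helper232.RZ.N_h_map
import Pool.Agent.Helper232.RZ.N_formulas
import Pool.Agent.Helper232.RZ.N_ac_hom
import Pool.Agent.Helper232.RZ.N_le0
import Pool.Agent.Helper232.RZ.N_rl

set_option autoImplicit false

namespace Pool.Agent.Helper232.RZ


theorem socle {R : Type} [Ring R] (Q : Set (Σ n : ℕ, PP R n × PP R n)) (N : Type) [AddCommGroup N]
    [Module R N] (hN : Uniq Q N) : ∃ v : N, v ≠ 0 ∧ ∀ f : Module.End R N, ¬ IsUnit f → f v = 0 := by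
  obtain ⟨ζ, hζ⟩ := (formulas (R := R)).1
  obtain ⟨a, ha⟩ := (nontrivial_iff_exists_ne (0 : N)).1 hN.ind.1
  obtain ⟨c, -, hc1, hc2⟩ := rl Q N hN (fun _ => ζ) (fun _ _ _ _ _ h => h) N hN.mem a
    (fun _ h => ha ((hζ N a).1 h))
  have hc0 : c ≠ 0 := fun h => hc1 0 ((hζ N c).2 h)
  refine ⟨c, hc0, fun f hf => ?_⟩
  by_contra hfc
  have h1 := hc2 N (f c) hN.mem (fun φ h => h_map f φ c h) (fun _ h => hfc ((hζ N (f c)).1 h))
  obtain ⟨g, hg⟩ := ac_hom hN.ac (fun _ : Fin 1 => f c) (fun _ : Fin 1 => c) (fun φ h => h1 φ h)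
  exact hf (le0 hN.ac hN.ind c hc0 f g (hg 0))

end Pool.Agent.Helper232.RZ
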