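import Mathlib
import Pool.Agent.Helper232.RZ.Defs
import Pool.Agent.Helper232.RZ.N_H_map
import Pool.Agent.Helper232.RZ.N_h_map
import Pool.Agent.Helper232.RZ.N_h_add
import Pool.Agent.Helper232.RZ.N_formulas
import Pool.Agent.Helper232.RZ.N_andFin
import Pool.Agent.Helper232.RZ.N_cp
import Pool.Agent.Helper232.RZ.N_socle
import Pool.Agent.Helper232.RZ.N_link

set_option autoImplicit false

namespace Pool.Agent.Helper232.RZ


theorem N5 {R : Type} [Ring R] (Q : Set (Σ n : ℕ, PP R n × PP R n)) (N : Type) [AddCommGroup N]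
    [Module R N] (hN : Uniq Q N) (θ : ℕ → PP R 1)
    (hθ : ∀ (i : ℕ) (M : Type) [AddCommGroup M] [Module R M] (x : M), (θ i).h x → (θ (i + 1)).h x)
    (c : N) (hc : ∀ i, ¬ (θ i).h c)
    (hmax : ∀ (M'' : Type) [AddCommGroup M''] [Module R M''] (c' : M''), InD Q M'' →
        (∀ φ : PP R 1, φ.h c → φ.h c') → (∀ i, ¬ (θ i).h c') →
          ∀ φ : PP R 1, φ.h c' → φ.h c) : ∃ m, Vt (θ m) c := by
  classical
  have hc0 : c ≠ 0 := by
    intro h
    apply hc 0
    rw [h]
    exact (h_add (θ 0) (0 : N) 0).2.2.2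
  obtain ⟨v, hv0, hv⟩ := socle Q N hN
  obtain ⟨ρ, hρ1, hρ2⟩ := link Q N hN c v hc0 hv0
  obtain ⟨ζ, hζ⟩ := (formulas (R := R)).2.2.2.2.1 ρ
  have hmono : ∀ (i j : ℕ), i ≤ j → ∀ x : N, (θ i).h x → (θ j).h x := by
    intro i j hij x hx
    induction j, hij using Nat.le_induction with
    | base => exact hx
    | succ j _ ih => exact hθ j N x ih
  have hclaim : ∃ τ : PP R 1, τ.h c ∧ ∃ m, ∀ x : N, τ.h x → ζ.h x → (θ m).h x := by
    by_contra hcon
    push Not at hcon
    obtain ⟨M', iM, iMod, hD, x, hx1, hx2⟩ := cp Q 1 ({φ : PP R 1 | φ.h c} ∪ {ζ}) (Set.range θ) (by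
      intro F G hF hG
      obtain ⟨τ, hτ⟩ := andFin (F.filter (fun φ : PP R 1 => φ.h c))
      have hτc : τ.h c := (hτ N (fun _ => c)).mpr (fun σ hσ => (Finset.mem_filter.mp hσ).2)
      have hG' : ∃ m, ∀ τ ∈ G, ∀ x : N, τ.h x → (θ m).h x := by
        have hch : ∀ τ ∈ G, ∃ i, θ i = τ := fun τ hτ => hG hτ
        choose! idx hidx using hch
        refine ⟨G.sup idx, fun τ hτ x hx => ?_⟩
        refine hmono (idx τ) _ (Finset.le_sup hτ) x ?_
        rw [hidx τ hτ]
        exact hx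
      obtain ⟨m, hm⟩ := hG'
      obtain ⟨x, hx1, hx2, hx3⟩ := hcon τ hτc m
      refine ⟨N, inferInstance, inferInstance, hN.mem, fun _ => x, ?_, ?_⟩
      · intro σ hσ
        rcases hF hσ with h | h
        · exact (hτ N (fun _ => x)).mp hx1 σ (Finset.mem_filter.mpr ⟨hσ, h⟩)
        · have : σ = ζ := h
          rw [this]
          exact hx2
      · intro τ' hτ' h
        exact hx3 (hm τ' hτ' x h))
    have hxe : x = fun _ : Fin 1 => x 0 := by
      funext i
      rw [Subsingleton.elim i 0]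
    have h1 : ∀ φ : PP R 1, φ.h c → φ.h (x 0) := by
      intro φ hφ
      have h2 := hx1 φ (Or.inl hφ)
      show φ.H (fun _ : Fin 1 => x 0)
      rw [← hxe]
      exact h2
    have h2 : ∀ i, ¬ (θ i).h (x 0) := by
      intro i h
      apply hx2 (θ i) ⟨i, rfl⟩
      rw [hxe]
      exact h
    have h3 : ζ.h (x 0) := by
      have h4 := hx1 ζ (Or.inr rfl)
      show ζ.H (fun _ : Fin 1 => x 0)
      rw [← hxe]
      exact h4
    have h5 : ζ.h c := hmax M' (x 0) hD h1 h2 ζ h3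
    exact hρ2 ((hζ N c).mp h5)
  obtain ⟨τ, hτc, m, hm⟩ := hclaim
  refine ⟨m, fun f hf => ?_⟩
  apply hm
  · exact h_map f τ c hτc
  · rw [hζ]
    have h1 := H_map f ρ ![c, v] hρ1
    have h2 : (fun i => f (![c, v] i)) = ![f c, 0] := by
      funext i
      fin_cases i
      · rfl
      · exact hv f hf
    rw [h2] at h1
    exact h1

end Pool.Agent.Helper232.RZ
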