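import Mathlib
import Pool.Agent.Helper232.RZ.Defs
import Pool.Agent.Helper232.RZ.N_h_map
import Pool.Agent.Helper232.RZ.N_formulas
import Pool.Agent.Helper232.RZ.N_rl0

set_option autoImplicit false

namespace Pool.Agent.Helper232.RZ


theorem N6 {R : Type} [Ring R] (Q : Set (Σ n : ℕ, PP R n × PP R n)) (N : Type) [AddCommGroup N]
    [Module R N] (hN : Uniq Q N) (θ : PP R 1) (h : ¬ ∀ x : N, θ.h x)
    (M : Type) [AddCommGroup M] [Module R M] (hM : InD Q M) (hnt : Nontrivial M) :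
    ∃ x : M, ¬ θ.h x := by
  by_contra hcon
  push Not at hcon
  obtain ⟨ζ0, hζ0⟩ := (formulas (R := R)).1
  obtain ⟨ζ1, hζ1⟩ := (formulas (R := R)).2.1
  set Q' : Set (Σ n : ℕ, PP R n × PP R n) := Q ∪ {⟨1, (ζ1, θ)⟩} with hQ'
  have hM' : InD Q' M := by
    intro q hq x hx
    rcases hq with hq | hq
    · exact hM q hq x hx
    · rw [Set.mem_singleton_iff] at hq
      subst hq
      have h1 : x = fun _ : Fin 1 => x 0 := by
        funext i
        rw [Subsingleton.elim i 0]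
      show θ.H x
      rw [h1]
      exact hcon (x 0)
  obtain ⟨a, ha⟩ := exists_ne (0 : M)
  obtain ⟨H, iA, iM, hAC, hInd, hInD, -⟩ := rl0 Q' (fun _ => ζ0) (fun i M _ _ x hx => hx) M hM' a
    (fun i hi => ha ((hζ0 M a).1 hi))
  have hInD' : InD Q H := fun q hq x hx => hInD q (Or.inl hq) x hx
  obtain ⟨e⟩ := hN.uniq H hInd hAC hInD'
  apply h
  intro y
  have h2 : θ.h (e.symm y) :=
    hInD ⟨1, (ζ1, θ)⟩ (Or.inr rfl) (fun _ : Fin 1 => e.symm y) (hζ1 H (e.symm y))
  have h3 := h_map e.toLinearMap θ (e.symm y) h2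
  have h4 : e.toLinearMap (e.symm y) = y := e.apply_symm_apply y
  rw [h4] at h3
  exact h3

end Pool.Agent.Helper232.RZ
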