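import Mathlib
import Pool.Agent.Helper232.RZ.Defs

set_option autoImplicit false

namespace Pool.Agent.Helper232.RZ


theorem ac_pp {R : Type} [Ring R] {N : Type} [AddCommGroup N] [Module R N] (hN : AC R N) (d : N)
    (S : Set (PP R 2))
    (h : ∀ F : Finset (PP R 2), (F : Set (PP R 2)) ⊆ S → ∃ u : N, ∀ σ ∈ F, σ.H ![d, u]) :
    ∃ u : N, ∀ σ ∈ S, σ.H ![d, u] := by
  classical
  let a : (Σ σ : S, Fin σ.1.m) → (Option (Σ σ : S, Fin σ.1.p)) →₀ R := fun j =>
    Finsupp.single none (j.1.1.A j.2 1) +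
      ∑ l, Finsupp.single (some (⟨j.1, l⟩ : Σ σ : S, Fin σ.1.p)) (j.1.1.B j.2 l)
  have key : ∀ (x : (Option (Σ σ : S, Fin σ.1.p)) → N) (j : Σ σ : S, Fin σ.1.m),
      ((a j).sum fun i r => r • x i) =
        j.1.1.A j.2 1 • x none + ∑ l, j.1.1.B j.2 l • x (some ⟨j.1, l⟩) := by
    intro x j
    rw [← Finsupp.linearCombination_apply (R := R) (v := x)]
    simp only [a, map_add, map_sum, Finsupp.linearCombination_single]
  obtain ⟨x, hx⟩ := hN _ _ a (fun j => -(j.1.1.A j.2 0 • d)) (by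
    intro F
    obtain ⟨u, hu⟩ := h (F.image fun j => j.1.1) (by
      intro σ hσ
      obtain ⟨j, _, rfl⟩ := Finset.mem_image.1 (Finset.mem_coe.1 hσ)
      exact j.1.2)
    refine ⟨fun o => o.elim u fun s => if hs : s.1.1.H ![d, u] then hs.choose s.2 else 0,
      fun j hj => ?_⟩
    have hj2 : j.1.1.H ![d, u] := hu _ (Finset.mem_image.2 ⟨j, hj, rfl⟩)
    rw [key]
    simp only [Option.elim_none, Option.elim_some]
    have h1 := hj2.choose_spec j.2
    rw [Fin.sum_univ_two] at h1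
    simp only [Matrix.cons_val_zero, Matrix.cons_val_one] at h1
    have h2 : ∀ l, (if hs : j.1.1.H ![d, u] then hs.choose l else 0) = hj2.choose l := by
      intro l
      rw [dif_pos hj2]
    simp only [h2]
    rw [add_assoc] at h1
    exact eq_neg_of_add_eq_zero_right h1)
  refine ⟨x none, fun σ hσ => ⟨fun l => x (some ⟨⟨σ, hσ⟩, l⟩), fun i => ?_⟩⟩
  have h1 := hx ⟨⟨σ, hσ⟩, i⟩
  rw [key] at h1
  rw [Fin.sum_univ_two]
  simp only [Matrix.cons_val_zero, Matrix.cons_val_one]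
  rw [add_assoc, h1]
  exact add_neg_cancel _

end Pool.Agent.Helper232.RZ
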