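import Mathlib
import Pool.Agent.Helper232.RZ.Defs

set_option autoImplicit false

namespace Pool.Agent.Helper232.RZ


theorem formulas2 {R : Type} [Ring R] :
    (∀ τ : PP R 1, ∃ ζ : PP R 2, ∀ (M : Type) [AddCommGroup M] [Module R M] (x y : M),
      ζ.H ![x, y] ↔ τ.h y) ∧
    (∀ τ : PP R 1, ∃ ζ : PP R 2, ∀ (M : Type) [AddCommGroup M] [Module R M] (x y : M),
      ζ.H ![x, y] ↔ τ.h x) ∧
    (∀ θ : PP R 1, ∃ ζ : PP R 2, ∀ (M : Type) [AddCommGroup M] [Module R M] (x y : M),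
      ζ.H ![x, y] ↔ θ.h (x - y)) := by
  refine ⟨fun τ => ⟨⟨τ.m, τ.p, fun i => ![0, τ.A i 0], τ.B⟩, fun M _ _ x y => ?_⟩,
    fun τ => ⟨⟨τ.m, τ.p, fun i => ![τ.A i 0, 0], τ.B⟩, fun M _ _ x y => ?_⟩,
    fun τ => ⟨⟨τ.m, τ.p, fun i => ![τ.A i 0, - τ.A i 0], τ.B⟩, fun M _ _ x y => ?_⟩⟩
  · refine exists_congr fun u => forall_congr' fun i => ?_
    have h : ∑ j : Fin 2, (![0, τ.A i 0] : Fin 2 → R) j • (![x, y] : Fin 2 → M) j =
        ∑ j : Fin 1, τ.A i j • y := by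
      rw [Fin.sum_univ_two, Fin.sum_univ_one]
      simp
    exact Iff.of_eq (congrArg (· = (0 : M)) (congrArg (· + ∑ l, τ.B i l • u l) h))
  · refine exists_congr fun u => forall_congr' fun i => ?_
    have h : ∑ j : Fin 2, (![τ.A i 0, 0] : Fin 2 → R) j • (![x, y] : Fin 2 → M) j =
        ∑ j : Fin 1, τ.A i j • x := by
      rw [Fin.sum_univ_two, Fin.sum_univ_one]
      simp
    exact Iff.of_eq (congrArg (· = (0 : M)) (congrArg (· + ∑ l, τ.B i l • u l) h))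
  · refine exists_congr fun u => forall_congr' fun i => ?_
    have h : ∑ j : Fin 2, (![τ.A i 0, - τ.A i 0] : Fin 2 → R) j • (![x, y] : Fin 2 → M) j =
        ∑ j : Fin 1, τ.A i j • (x - y) := by
      rw [Fin.sum_univ_two, Fin.sum_univ_one]
      simp [smul_sub, sub_eq_add_neg]
    exact Iff.of_eq (congrArg (· = (0 : M)) (congrArg (· + ∑ l, τ.B i l • u l) h))

end Pool.Agent.Helper232.RZ
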