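import Mathlib
import Pool.Agent.Helper232.RZ.Defs
import Pool.Agent.Helper232.RZ.N_h_map
import Pool.Agent.Helper232.RZ.N_formulas2
import Pool.Agent.Helper232.RZ.N_andFin
import Pool.Agent.Helper232.RZ.N_ac_hom
import Pool.Agent.Helper232.RZ.N_ac_pp

set_option autoImplicit false

namespace Pool.Agent.Helper232.RZ


theorem N7a {R : Type} [Ring R] {M : Type} [AddCommGroup M] [Module R M] (hM : AC R M) (a c : M)
    (e : Module.End R M) (hc : e c = c)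
    (he : ∀ f : Module.End R M, (∃ s : Module.End R M, s (f a) = a) →
        ∃ s : Module.End R M, ∀ m, s (f (e m)) = e m) (θ : PP R 1) (hθ : ¬ θ.h c) :
    ∃ ρ : PP R 2, ρ.H ![a, c] ∧ ¬ ∃ y : M, ρ.H ![a, y] ∧ θ.h y := by
  classical
  by_contra hcon
  have hcon' : ∀ ρ : PP R 2, ρ.H ![a, c] → ∃ y : M, ρ.H ![a, y] ∧ θ.h y := by
    intro ρ h
    by_contra h'
    exact hcon ⟨ρ, h, h'⟩
  obtain ⟨ζ, hζ⟩ := (formulas2 (R := R)).1 θ
  obtain ⟨y, hy⟩ := ac_pp hM a ({ρ : PP R 2 | ρ.H ![a, c]} ∪ {ζ}) (by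
    intro F hF
    obtain ⟨χ, hχ⟩ := andFin (F.filter (fun ρ => ρ.H ![a, c]))
    obtain ⟨y, hy1, hy2⟩ := hcon' χ ((hχ M ![a, c]).2 (fun σ hσ => (Finset.mem_filter.1 hσ).2))
    refine ⟨y, fun σ hσ => ?_⟩
    rcases hF hσ with h | h
    · exact (hχ M ![a, y]).1 hy1 σ (Finset.mem_filter.2 ⟨hσ, h⟩)
    · have h' : σ = ζ := h
      rw [h', hζ]
      exact hy2)
  have hθy : θ.h y := (hζ M a y).1 (hy ζ (Or.inr rfl))
  obtain ⟨g, hg⟩ := ac_hom hM ![a, c] ![a, y] (fun φ h => hy φ (Or.inl h))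
  have g0 : g a = a := hg 0
  have g1 : g c = y := hg 1
  obtain ⟨s, hs⟩ := he g ⟨1, g0⟩
  have h1 := hs c
  rw [hc, g1] at h1
  apply hθ
  have h2 := h_map s θ y hθy
  rwa [h1] at h2

end Pool.Agent.Helper232.RZ
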