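import Mathlib
import Pool.Agent.Helper232.RZ.Defs
import Pool.Agent.Helper232.RZ.N_H_map
import Pool.Agent.Helper232.RZ.N_H_add

set_option autoImplicit false

namespace Pool.Agent.Helper232.RZ


/-- the graph of a pp relation as a submodule over the endomorphism ring -/
def N7b_G {R : Type} [Ring R] {N : Type} [AddCommGroup N] [Module R N] (ρ : PP R 2) :
    Submodule (Module.End R N) (N × N) where
  carrier := {p | ρ.H ![p.1, p.2]}
  add_mem' := by
    intro p q hp hq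
    have h := (H_add ρ ![p.1, p.2] ![q.1, q.2]).1 hp hq
    have e : (fun i => (![p.1, p.2] : Fin 2 → N) i + (![q.1, q.2] : Fin 2 → N) i) =
        ![(p + q).1, (p + q).2] := by
      funext i
      fin_cases i <;> rfl
    rw [e] at h
    exact h
  zero_mem' := by
    have h := (H_add ρ ![(0 : N), 0] ![(0 : N), 0]).2.2.1
    have e : (fun _ => (0 : N)) = ![((0 : N × N)).1, (0 : N × N).2] := by
      funext i
      fin_cases i <;> rfl
    rw [e] at h
    exact h
  smul_mem' := by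
    intro f p hp
    have h := H_map f ρ ![p.1, p.2] hp
    have e : (fun i => f ((![p.1, p.2] : Fin 2 → N) i)) = ![(f • p).1, (f • p).2] := by
      funext i
      fin_cases i <;> rfl
    rw [e] at h
    exact h

theorem N7b {R : Type} [Ring R] {N : Type} [AddCommGroup N] [Module R N] (θ ε ε' : PP R 1)
    (ρ : PP R 2) (hε : ∀ x : N, ε.h x ↔ ∃ y : N, ρ.H ![x, y])
    (hε' : ∀ x : N, ε'.h x ↔ ∃ y : N, ρ.H ![x, y] ∧ θ.h y)
    (Wθ Wε Wε' : Submodule (Module.End R N) N) (h1 : ∀ x, x ∈ Wθ ↔ θ.h x)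
    (h2 : ∀ x, x ∈ Wε ↔ ε.h x) (h3 : ∀ x, x ∈ Wε' ↔ ε'.h x)
    (hfin : IsFiniteLength (Module.End R N) (N ⧸ Wθ))
    (hfin2 : IsFiniteLength (Module.End R N) (N ⧸ Wε)) :
    IsFiniteLength (Module.End R N) (N ⧸ Wε') := by
  rw [isFiniteLength_iff_isNoetherian_isArtinian] at hfin hfin2 ⊢
  obtain ⟨hn1, ha1⟩ := hfin
  obtain ⟨hn2, ha2⟩ := hfin2
  let G : Submodule (Module.End R N) (N × N) := N7b_G ρ
  let p1 : G →ₗ[Module.End R N] N := (LinearMap.fst (Module.End R N) N N).comp G.subtype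
  let p2 : G →ₗ[Module.End R N] N := (LinearMap.snd (Module.End R N) N N).comp G.subtype
  let Φ : G →ₗ[Module.End R N] (N ⧸ Wθ) := Wθ.mkQ.comp p2
  let f' : G →ₗ[Module.End R N] (N ⧸ Wε') := Wε'.mkQ.comp p1
  have hk : LinearMap.ker Φ ≤ LinearMap.ker f' := by
    intro p hp
    have hp1 : p2 p ∈ Wθ := by
      have : Wθ.mkQ (p2 p) = 0 := hp
      rwa [Submodule.mkQ_apply, Submodule.Quotient.mk_eq_zero] at this
    show Wε'.mkQ (p1 p) = 0
    rw [Submodule.mkQ_apply, Submodule.Quotient.mk_eq_zero, h3, hε']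
    exact ⟨p2 p, p.2, (h1 _).mp hp1⟩
  let f : (G ⧸ LinearMap.ker Φ) →ₗ[Module.End R N] (N ⧸ Wε') := (LinearMap.ker Φ).liftQ f' hk
  have hle : Wε' ≤ Wε := by
    intro x hx
    rw [h3, hε'] at hx
    obtain ⟨y, hy, _⟩ := hx
    rw [h2, hε]
    exact ⟨y, hy⟩
  let g : (N ⧸ Wε') →ₗ[Module.End R N] (N ⧸ Wε) := Submodule.factor hle
  have e := LinearMap.quotKerEquivRange Φ
  have hn3 : IsNoetherian (Module.End R N) (G ⧸ LinearMap.ker Φ) :=
    isNoetherian_of_linearEquiv e.symm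
  have ha3 : IsArtinian (Module.End R N) (G ⧸ LinearMap.ker Φ) :=
    isArtinian_of_linearEquiv e.symm
  have hrk : LinearMap.range f = LinearMap.ker g := by
    apply le_antisymm
    · rintro _ ⟨q, rfl⟩
      obtain ⟨p, rfl⟩ := Submodule.mkQ_surjective _ q
      show g (f' p) = 0
      show Wε.mkQ (p1 p) = 0
      rw [Submodule.mkQ_apply, Submodule.Quotient.mk_eq_zero, h2, hε]
      exact ⟨p2 p, p.2⟩
    · intro q hq
      obtain ⟨x, rfl⟩ := Submodule.mkQ_surjective _ q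
      have hx : Wε.mkQ x = 0 := hq
      rw [Submodule.mkQ_apply, Submodule.Quotient.mk_eq_zero, h2, hε] at hx
      obtain ⟨y, hy⟩ := hx
      exact ⟨(LinearMap.ker Φ).mkQ ⟨(x, y), hy⟩, rfl⟩
  exact ⟨isNoetherian_of_range_eq_ker f g hrk, isArtinian_of_range_eq_ker f g hrk⟩

end Pool.Agent.Helper232.RZ
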