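import Mathlib
import Pool.Agent.Helper232.RZ.Defs

set_option autoImplicit false

namespace Pool.Agent.Helper232.RZ


theorem H_pi {R : Type} [Ring R] {T : Type} (M : T → Type) [∀ t, AddCommGroup (M t)]
    [∀ t, Module R (M t)] {n : ℕ} (φ : PP R n) (x : Fin n → ∀ t, M t) :
    φ.H x ↔ ∀ t, φ.H (fun i => x i t) := by
  have key : ∀ (y : Fin φ.p → ∀ t, M t) (i : Fin φ.m) (t : T),
      ((∑ j, φ.A i j • x j) + ∑ l, φ.B i l • y l) t
        = (∑ j, φ.A i j • x j t) + ∑ l, φ.B i l • y l t := by
    intro y i t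
    rw [Pi.add_apply, Finset.sum_apply, Finset.sum_apply]
    rfl
  constructor
  · rintro ⟨y, hy⟩ t
    refine ⟨fun l => y l t, fun i => ?_⟩
    have h1 := congrFun (hy i) t
    rw [key] at h1
    exact h1
  · intro h
    choose y hy using h
    refine ⟨fun l t => y t l, fun i => ?_⟩
    funext t
    rw [key]
    exact hy t i

end Pool.Agent.Helper232.RZ
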