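import Mathlib
import Pool.Agent.Helper232.RZ.Defs
import Pool.Agent.Helper232.RZ.N_H_pi
import Pool.Agent.Helper232.RZ.N_h_map
import Pool.Agent.Helper232.RZ.N_cp
import Pool.Agent.Helper232.RZ.N_pe

set_option autoImplicit false

namespace Pool.Agent.Helper232.RZ


theorem real {R : Type} [Ring R] (Q : Set (Σ n : ℕ, PP R n × PP R n)) (N : Type) [AddCommGroup N]
    [Module R N] (hN : InD Q N) (P : Set (PP R 1))
    (hP : ∀ F : Finset (PP R 1), (F : Set (PP R 1)) ⊆ P → ∀ τ : PP R 1,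
      (∀ x : N, (∀ σ ∈ F, σ.h x) → τ.h x) → τ ∈ P) :
    ∃ (M : Type) (_ : AddCommGroup M) (_ : Module R M), InD Q M ∧ AC R M ∧
      ∃ a : M, ∀ φ : PP R 1, φ.h a ↔ φ ∈ P := by
  classical
  obtain ⟨M, iM1, iM2, hM, x, hx1, hx2⟩ := cp Q 1 P Pᶜ (by
    intro F G hF hG
    have hex : ∀ τ : {τ // τ ∈ G}, ∃ x : N, (∀ σ ∈ F, σ.h x) ∧ ¬ τ.1.h x := by
      intro τ
      by_contra hcon
      push Not at hcon
      exact hG τ.2 (hP F hF τ.1 hcon)
    choose a ha1 ha2 using hex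
    refine ⟨({τ // τ ∈ G} → N), inferInstance, inferInstance, ?_, fun _ => a, ?_, ?_⟩
    · intro q hq y hy
      rw [H_pi] at hy ⊢
      intro t
      exact hN q hq _ (hy t)
    · intro σ hσ
      rw [H_pi]
      intro t
      exact ha1 t σ hσ
    · intro τ hτ hcon
      rw [H_pi] at hcon
      exact ha2 ⟨τ, hτ⟩ (hcon ⟨τ, hτ⟩))
  have hx : x = fun _ : Fin 1 => x 0 := by
    funext i
    rw [Subsingleton.elim i 0]
  obtain ⟨M', j1, j2, ι, hac, href, hty⟩ := pe (R := R) M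
  refine ⟨M', j1, j2, fun q hq => hty q.1 q.2.1 q.2.2 (hM q hq), hac, ι (x 0), fun φ => ?_⟩
  constructor
  · intro h
    by_contra hφ
    apply hx2 φ hφ
    rw [hx]
    exact href 1 φ (fun _ => x 0) h
  · intro hφ
    have := hx1 φ hφ
    rw [hx] at this
    exact h_map ι φ (x 0) this

end Pool.Agent.Helper232.RZ
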