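import Mathlib
import Pool.Agent.Helper232.RZ.Defs
import Pool.Agent.Helper232.RZ.N_h_map
import Pool.Agent.Helper232.RZ.N_h_add

set_option autoImplicit false

namespace Pool.Agent.Helper232.RZ


theorem subm {R : Type} [Ring R] {N : Type} [AddCommGroup N] [Module R N] (θ : PP R 1) :
    ∃ W : Submodule (Module.End R N) N, ∀ x, x ∈ W ↔ θ.h x := by
  refine ⟨{ carrier := {x | θ.h x}, add_mem' := ?_, zero_mem' := ?_, smul_mem' := ?_ }, ?_⟩
  · intro a b ha hb
    exact (h_add θ a b).1 ha hb
  · exact (h_add θ (0 : N) 0).2.2.2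
  · intro c x hx
    show θ.h (c • x)
    rw [Module.End.smul_def]
    exact h_map c θ x hx
  · intro x
    exact Iff.rfl

end Pool.Agent.Helper232.RZ
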