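import Mathlib
import Pool.Agent.Helper232.RZ.Defs
import Pool.Agent.Helper232.RZ.N_formulas
import Pool.Agent.Helper232.RZ.N_ac_retract
import Pool.Agent.Helper232.RZ.N_hull
import Pool.Agent.Helper232.RZ.N_N6
import Pool.Agent.Helper232.RZ.N_subm
import Pool.Agent.Helper232.RZ.N_real
import Pool.Agent.Helper232.RZ.N_N7a
import Pool.Agent.Helper232.RZ.N_N7b

set_option autoImplicit false

namespace Pool.Agent.Helper232.RZ


theorem N7_fin {E N ι : Type} [Ring E] [AddCommGroup N] [Module E N] [Finite ι]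
    (Ws : ι → Submodule E N) (hfin : ∀ i, IsFiniteLength E (N ⧸ Ws i)) (W' : Submodule E N)
    (h : ⨅ i, Ws i ≤ W') : IsFiniteLength E (N ⧸ W') := by
  have hN : ∀ i, IsNoetherian E (N ⧸ Ws i) := fun i =>
    (isFiniteLength_iff_isNoetherian_isArtinian.mp (hfin i)).1
  have hA : ∀ i, IsArtinian E (N ⧸ Ws i) := fun i =>
    (isFiniteLength_iff_isNoetherian_isArtinian.mp (hfin i)).2
  have hprod : IsFiniteLength E (∀ i, N ⧸ Ws i) :=
    isFiniteLength_iff_isNoetherian_isArtinian.mpr ⟨inferInstance, inferInstance⟩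
  let f : N →ₗ[E] (∀ i, N ⧸ Ws i) := LinearMap.pi fun i => (Ws i).mkQ
  have hker : LinearMap.ker f ≤ W' := by
    intro x hx
    apply h
    rw [Submodule.mem_iInf]
    intro i
    have h1 : f x = 0 := LinearMap.mem_ker.mp hx
    have h2 : (Ws i).mkQ x = 0 := congrFun h1 i
    exact (Submodule.Quotient.mk_eq_zero (Ws i)).mp h2
  have hrange : IsFiniteLength E (LinearMap.range f) :=
    hprod.of_injective (f := (LinearMap.range f).subtype) Subtype.val_injective
  have hq : IsFiniteLength E (N ⧸ LinearMap.ker f) :=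
    hrange.of_injective (f := f.quotKerEquivRange.toLinearMap) f.quotKerEquivRange.injective
  exact hq.of_surjective (f := Submodule.factor hker) (Submodule.factor_surjective hker)

theorem N7 {R : Type} [Ring R] (Q : Set (Σ n : ℕ, PP R n × PP R n)) (N : Type) [AddCommGroup N]
    [Module R N] (hN : Uniq Q N) (θ : PP R 1) (h : ¬ ∀ x : N, θ.h x)
    (W : Submodule (Module.End R N) N) (hW : ∀ x, x ∈ W ↔ θ.h x)
    (hfin : IsFiniteLength (Module.End R N) (N ⧸ W)) : IsFiniteLength (Module.End R N) N := by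
  by_contra hnot
  set P : Set (PP R 1) := {τ | ∀ W' : Submodule (Module.End R N) N, (∀ x, x ∈ W' ↔ τ.h x) →
    IsFiniteLength (Module.End R N) (N ⧸ W')} with hPdef
  have hP : ∀ F : Finset (PP R 1), (F : Set (PP R 1)) ⊆ P → ∀ τ : PP R 1,
      (∀ x : N, (∀ σ ∈ F, σ.h x) → τ.h x) → τ ∈ P := by
    intro F hF τ hτ W' hW'
    choose Wσ hWσ using fun σ : PP R 1 => subm (N := N) σ
    refine N7_fin (ι := {σ // σ ∈ F}) (fun σ => Wσ σ.1) (fun σ => hF σ.2 _ (hWσ σ.1)) W' ?_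
    intro x hx
    rw [Submodule.mem_iInf] at hx
    rw [hW']
    exact hτ x fun σ hσ => (hWσ σ x).mp (hx ⟨σ, hσ⟩)
  obtain ⟨⟨ζ0, hζ0⟩, -, -, -, -, hex, hex2⟩ := formulas (R := R)
  have hζP : ζ0 ∉ P := by
    intro hz
    apply hnot
    have h1 := hz ⊥ (fun x => by rw [hζ0 N x]; exact Submodule.mem_bot _)
    exact h1.of_injective (f := (Submodule.quotEquivOfEqBot
      (⊥ : Submodule (Module.End R N) N) rfl).symm.toLinearMap)
      (Submodule.quotEquivOfEqBot (⊥ : Submodule (Module.End R N) N) rfl).symm.injective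
  obtain ⟨M, iM1, iM2, hMD, hMac, a, ha⟩ := real Q N hN.mem P hP
  have ha0 : a ≠ 0 := by
    intro h0
    exact hζP ((ha ζ0).mp ((hζ0 M a).mpr h0))
  obtain ⟨e, hee, hea, hef⟩ := hull hMac a
  have hpi : ∀ x : LinearMap.range e, e.rangeRestrict ((LinearMap.range e).subtype x) = x := by
    rintro ⟨x, y, rfl⟩
    apply Subtype.ext
    exact hee y
  obtain ⟨-, hr2, hr3⟩ := ac_retract (LinearMap.range e).subtype e.rangeRestrict hpi
  have hnt : Nontrivial (LinearMap.range e) :=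
    ⟨⟨⟨a, a, hea⟩, 0, fun h0 => ha0 (congrArg Subtype.val h0)⟩⟩
  obtain ⟨c, hc⟩ := N6 Q N hN θ h (LinearMap.range e) (hr2 Q hMD) hnt
  have hcM : ¬ θ.h (c : M) := fun h1 => hc (hr3 1 θ (fun _ => c) h1)
  have hec : e (c : M) = c := congrArg Subtype.val (hpi c)
  obtain ⟨ρ, hρ1, hρ2⟩ := N7a hMac a (c : M) e hec hef θ hcM
  obtain ⟨ε, hε⟩ := hex ρ
  obtain ⟨ε', hε'⟩ := hex2 ρ θ
  have hεP : ε ∈ P := (ha ε).mp ((hε M a).mpr ⟨c, hρ1⟩)
  obtain ⟨Wε, hWε⟩ := subm (N := N) ε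
  obtain ⟨Wε', hWε'⟩ := subm (N := N) ε'
  have h7b := N7b θ ε ε' ρ (fun x => hε N x) (fun x => hε' N x) W Wε Wε' hW hWε hWε' hfin
    (hεP Wε hWε)
  have hε'P : ε' ∈ P := by
    intro W' hW'
    have : W' = Wε' := by
      ext x
      rw [hW', hWε']
    rw [this]
    exact h7b
  exact hρ2 ((hε' M a).mp ((ha ε').mpr hε'P))

end Pool.Agent.Helper232.RZ
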