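import Mathlib
import Pool.Agent.Helper232.RZ.Defs
import Pool.Agent.Helper232.RZ.N_h_add
import Pool.Agent.Helper232.RZ.N_formulas
import Pool.Agent.Helper232.RZ.N_formulas2
import Pool.Agent.Helper232.RZ.N_andFin
import Pool.Agent.Helper232.RZ.N_ac_hom
import Pool.Agent.Helper232.RZ.N_ac_pp

set_option autoImplicit false

namespace Pool.Agent.Helper232.RZ


theorem N8 {R : Type} [Ring R] {N : Type} [AddCommGroup N] [Module R N] (hN : AC R N)
    (θ : PP R 1) (W : Submodule (Module.End R N) N) (hW : ∀ x, x ∈ W ↔ θ.h x)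
    (hnf : ¬ IsFiniteLength (Module.End R N) (N ⧸ W)) (b : N) (hb : Vt θ b) :
    ∃ θ' : PP R 1, (∀ (M : Type) [AddCommGroup M] [Module R M] (x : M), θ.h x → θ'.h x) ∧
      θ'.h b ∧ ¬ ∀ x : N, θ'.h x := by
  classical
  by_contra hcon
  push Not at hcon
  -- sums
  have hsum : ∀ τ : PP R 1, τ.h b → ∀ x : N, ∃ u t : N, τ.h u ∧ θ.h t ∧ x = u + t := by
    intro τ hτ x
    obtain ⟨ζ, hζ⟩ := (formulas (R := R)).2.2.1 τ θ
    have h1 : ∀ (M : Type) [AddCommGroup M] [Module R M] (x : M), θ.h x → ζ.h x := by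
      intro M _ _ x hx
      exact (hζ M x).2 ⟨0, x, (h_add τ (0 : M) 0).2.2.2, hx, (zero_add x).symm⟩
    have h2 : ζ.h b := (hζ N b).2 ⟨b, 0, hτ, (h_add θ (0 : N) 0).2.2.2, (add_zero b).symm⟩
    exact (hζ N x).1 (hcon ζ h1 h2 x)
  have key : ∀ n : N, ∃ g : Module.End R N, n - g b ∈ W := by
    intro n
    obtain ⟨u, hu⟩ := ac_pp hN n {σ : PP R 2 | ∃ τ : PP R 1, τ.h b ∧
        ∀ u : N, τ.h u → θ.h (n - u) → σ.H ![n, u]} (by
      intro F hF
      have hF' : ∀ σ ∈ F, ∃ τ : PP R 1, τ.h b ∧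
        ∀ u : N, τ.h u → θ.h (n - u) → σ.H ![n, u] := fun σ hσ => hF hσ
      haveI : Nonempty (PP R 1) := ⟨θ⟩
      choose! t ht1 ht2 using hF'
      obtain ⟨χ, hχ⟩ := andFin (F.image t)
      have hχb : χ.h b := by
        refine (hχ N _).2 ?_
        intro σ hσ
        obtain ⟨σ', hσ', rfl⟩ := Finset.mem_image.1 hσ
        exact ht1 σ' hσ'
      obtain ⟨u, t0, h1, h2, h3⟩ := hsum χ hχb n
      refine ⟨u, fun σ hσ => ?_⟩
      apply ht2 σ hσ u
      · exact (hχ N _).1 h1 (t σ) (Finset.mem_image_of_mem t hσ)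
      · have : n - u = t0 := by rw [h3]; abel
        rw [this]; exact h2)
    have h1 : ∀ τ : PP R 1, τ.h b → τ.h u := by
      intro τ hτ
      obtain ⟨ζ, hζ⟩ := (formulas2 (R := R)).1 τ
      exact (hζ N n u).1 (hu ζ ⟨τ, hτ, fun u' hu' _ => (hζ N n u').2 hu'⟩)
    have h2 : θ.h (n - u) := by
      obtain ⟨ζ, hζ⟩ := (formulas2 (R := R)).2.2 θ
      obtain ⟨τ, hτ⟩ := (formulas (R := R)).2.1
      exact (hζ N n u).1 (hu ζ ⟨τ, hτ N b, fun u' _ hu' => (hζ N n u').2 hu'⟩)
    obtain ⟨g, hg⟩ := ac_hom hN (fun _ : Fin 1 => b) (fun _ : Fin 1 => u) (fun φ hφ => h1 φ hφ)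
    refine ⟨g, ?_⟩
    rw [hg 0]
    exact (hW _).2 h2
  apply hnf
  by_cases hT : W = ⊤
  · haveI : Subsingleton (N ⧸ W) := by
      rw [hT]; exact Submodule.Quotient.subsingleton_iff.2 rfl
    exact IsFiniteLength.of_subsingleton
  · have hco : IsCoatom W := by
      refine ⟨hT, fun U hU => ?_⟩
      obtain ⟨x, hxU, hxW⟩ := Set.exists_of_ssubset hU
      obtain ⟨g, hg⟩ := key x
      have hgU : g b ∈ U := by
        have := U.sub_mem hxU (hU.le hg)
        rwa [sub_sub_cancel] at this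
      have hgW : ¬ θ.h (g b) := by
        intro h
        apply hxW
        have := W.add_mem hg ((hW _).2 h)
        rwa [sub_add_cancel] at this
      have hgu : IsUnit g := by
        by_contra hn
        exact hgW (hb g hn)
      obtain ⟨v, rfl⟩ := hgu
      rw [eq_top_iff]
      intro n _
      obtain ⟨g', hg'⟩ := key n
      have h1 : g' b = (g' * (↑v⁻¹ : Module.End R N)) • ((v : Module.End R N) b) := by
        show g' b = (g' * (↑v⁻¹ : Module.End R N)) ((v : Module.End R N) b)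
        rw [← Module.End.mul_apply, mul_assoc, Units.inv_mul, mul_one]
      have h2 : g' b ∈ U := by
        rw [h1]
        exact U.smul_mem _ hgU
      have := U.add_mem (hU.le hg') h2
      rwa [sub_add_cancel] at this
    haveI : IsSimpleModule (Module.End R N) (N ⧸ W) := isSimpleModule_iff_isCoatom.2 hco
    exact isFiniteLength_iff_isNoetherian_isArtinian.2 ⟨inferInstance, inferInstance⟩

end Pool.Agent.Helper232.RZ
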