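import Mathlib
import Pool.Agent.Helper232.RZ.Defs

set_option autoImplicit false

namespace Pool.Agent.Helper232.RZ


theorem book {X : Type} (r : X → X → Prop) (hr : ∀ x, r x x) (ht : ∀ x y z, r x y → r y z → r x z)
    (D : X → ℕ → X → Prop) (h : ∀ x y i, r x y → ∃ z, r y z ∧ D x i z) (x0 : X) :
    ∃ s : ℕ → X, s 0 = x0 ∧ (∀ n, r (s n) (s (n + 1))) ∧ ∀ m i, ∃ n, D (s m) i (s n) := by
  classical
  have h' : ∀ x y i, ∃ z, r x y → r y z ∧ D x i z := by
    intro x y i
    by_cases hxy : r x y
    · obtain ⟨z, hz⟩ := h x y i hxy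
      exact ⟨z, fun _ => hz⟩
    · exact ⟨y, fun hh => (hxy hh).elim⟩
  choose c hc using h'
  let H : ℕ → ℕ → X := fun n => Nat.rec (fun _ => x0)
    (fun n g => Function.update g (n + 1) (c (g n.unpair.1) (g n) n.unpair.2)) n
  have H0 : H 0 = fun _ => x0 := rfl
  have HS : ∀ n, H (n + 1) = Function.update (H n) (n + 1)
      (c (H n n.unpair.1) (H n n) n.unpair.2) := fun n => rfl
  have Hst : ∀ n j, j ≤ n → H n j = H j j := by
    intro n
    induction n with
    | zero =>
      intro j hj
      have : j = 0 := by omega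
      rw [this]
    | succ n ih =>
      intro j hj
      rcases Nat.lt_or_ge n j with hlt | hge
      · have : j = n + 1 := by omega
        rw [this]
      · rw [HS, Function.update_of_ne (by omega), ih j hge]
  have Hs : ∀ n, H (n + 1) (n + 1) = c (H n.unpair.1 n.unpair.1) (H n n) n.unpair.2 := by
    intro n
    rw [HS, Function.update_self, Hst n _ (Nat.unpair_left_le n)]
  have mono : ∀ n m, m ≤ n → r (H m m) (H n n) := by
    intro n
    induction n with
    | zero =>
      intro m hm
      have : m = 0 := by omega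
      rw [this]; exact hr _
    | succ n ih =>
      intro m hm
      rcases Nat.lt_or_ge n m with hlt | hge
      · have : m = n + 1 := by omega
        rw [this]; exact hr _
      · have h1 := hc (H n.unpair.1 n.unpair.1) (H n n) n.unpair.2 (ih _ (Nat.unpair_left_le n))
        rw [← Hs] at h1
        exact ht _ _ _ (ih m hge) h1.1
  refine ⟨fun n => H n n, rfl, fun n => mono (n + 1) n (Nat.le_succ n), ?_⟩
  intro m i
  refine ⟨Nat.pair m i + 1, ?_⟩
  have h1 := hc (H (Nat.pair m i).unpair.1 (Nat.pair m i).unpair.1) (H (Nat.pair m i) (Nat.pair m i))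
    (Nat.pair m i).unpair.2 (mono _ _ (Nat.unpair_left_le _))
  rw [← Hs] at h1
  simpa [Nat.unpair_pair] using h1.2

end Pool.Agent.Helper232.RZ
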