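import Mathlib
import Pool.Agent.Helper232.RZ.Defs
import Pool.Agent.Helper232.RZ.N_formulas
import Pool.Agent.Helper232.RZ.N_cp
import Pool.Agent.Helper232.RZ.N_rl
import Pool.Agent.Helper232.RZ.N_N5
import Pool.Agent.Helper232.RZ.N_subm
import Pool.Agent.Helper232.RZ.N_N7
import Pool.Agent.Helper232.RZ.N_N8
import Pool.Agent.Helper232.RZ.N_book

set_option autoImplicit false

namespace Pool.Agent.Helper232.RZ


theorem main0 {R : Type} [Ring R] (Q : Set (Σ n : ℕ, PP R n × PP R n)) (N : Type) [AddCommGroup N]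
    [Module R N] (hN : Uniq Q N)
    (dim : ∀ θ : PP R 1, ∃ B : ℕ → N, (∀ i, Vt θ (B i)) ∧ ∀ b : N, Vt θ b →
      ∃ (F : Finset ℕ) (f : ℕ → Module.End R N) (t : N), θ.h t ∧ b = ∑ i ∈ F, f i (B i) + t) :
    IsFiniteLength (Module.End R N) N := by
  classical
  by_contra hnot
  haveI := hN.ind.1
  choose B hB1 hB2 using dim
  obtain ⟨ζ0, hζ0⟩ := (formulas (R := R)).1
  have hx0 : ¬ ∀ x : N, ζ0.h x := by
    intro h
    obtain ⟨x, hx⟩ := exists_ne (0:N)
    exact hx ((hζ0 N x).1 (h x))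
  have hstep : ∀ (x y : {θ : PP R 1 // ¬ ∀ x : N, θ.h x}) (i : ℕ),
      (∀ (M : Type) [AddCommGroup M] [Module R M] (w : M), x.1.h w → y.1.h w) →
      ∃ z : {θ : PP R 1 // ¬ ∀ x : N, θ.h x},
        (∀ (M : Type) [AddCommGroup M] [Module R M] (w : M), y.1.h w → z.1.h w) ∧
        z.1.h (B x.1 i) := by
    intro x y i hxy
    obtain ⟨W, hW⟩ := subm (R := R) (N := N) y.1
    have hnf : ¬ IsFiniteLength (Module.End R N) (N ⧸ W) := by
      intro hfin
      exact hnot (N7 Q N hN y.1 y.2 W hW hfin)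
    have hv : Vt y.1 (B x.1 i) := fun f hf => hxy N _ (hB1 x.1 i f hf)
    obtain ⟨θ', h1, h2, h3⟩ := N8 hN.ac y.1 W hW hnf (B x.1 i) hv
    exact ⟨⟨θ', h3⟩, h1, h2⟩
  obtain ⟨s, -, hs1, hs2⟩ := book
    (fun x y : {θ : PP R 1 // ¬ ∀ x : N, θ.h x} =>
      ∀ (M : Type) [AddCommGroup M] [Module R M] (w : M), x.1.h w → y.1.h w)
    (fun x M _ _ w hw => hw)
    (fun x y z h1 h2 M _ _ w hw => h2 M w (h1 M w hw))
    (fun x i z => z.1.h (B x.1 i)) hstep ⟨ζ0, hx0⟩
  have hmono : ∀ n n', n ≤ n' → ∀ (M : Type) [AddCommGroup M] [Module R M] (w : M),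
      (s n).1.h w → (s n').1.h w := by
    intro n n' hn
    induction n', hn using Nat.le_induction with
    | base => intro M _ _ w hw; exact hw
    | succ k hk ih => intro M _ _ w hw; exact hs1 k M w (ih M w hw)
  obtain ⟨M, _, _, hM, x, -, hx⟩ := cp Q 1 ∅ {φ | ∃ n, φ = (s n).1} (by
    intro F G hF hG
    refine ⟨N, inferInstance, inferInstance, hN.mem, ?_⟩
    have hb : ∃ n, ∀ τ ∈ G, ∀ w : N, τ.h w → (s n).1.h w := by
      clear hF
      induction G using Finset.induction_on with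
      | empty => exact ⟨0, by simp⟩
      | insert τ G hτ ih =>
        obtain ⟨n, hn⟩ := ih (fun σ hσ => hG (by simp only [Finset.coe_insert]; exact Or.inr hσ))
        obtain ⟨k, hk⟩ : τ ∈ {φ | ∃ n, φ = (s n).1} := hG (by simp)
        refine ⟨max n k, ?_⟩
        intro σ hσ w hw
        rcases Finset.mem_insert.1 hσ with rfl | hσ
        · rw [hk] at hw
          exact hmono _ _ (le_max_right n k) N w hw
        · exact hmono _ _ (le_max_left n k) N w (hn σ hσ w hw)
    obtain ⟨n, hn⟩ := hb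
    have hex := (s n).2
    push Not at hex
    obtain ⟨w, hw⟩ := hex
    refine ⟨fun _ => w, ?_, ?_⟩
    · intro σ hσ
      exact absurd (hF hσ) (Set.notMem_empty _)
    · intro τ hτ h
      exact hw (hn τ hτ w h))
  have ha : ∀ n, ¬ (s n).1.h (x 0) := by
    intro n h
    apply hx (s n).1 ⟨n, rfl⟩
    have e : x = fun _ : Fin 1 => x 0 := by
      funext j
      rw [Subsingleton.elim j 0]
    rw [e]
    exact h
  obtain ⟨c, -, hc, hmax⟩ := rl Q N hN (fun n => (s n).1) (fun i M _ _ w hw => hs1 i M w hw) M hM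
    (x 0) ha
  obtain ⟨m, hm⟩ := N5 Q N hN (fun n => (s n).1) (fun i M _ _ w hw => hs1 i M w hw) c hc hmax
  obtain ⟨F, f, t, ht, hct⟩ := hB2 (s m).1 c hm
  have hb : ∃ n, m ≤ n ∧ ∀ i ∈ F, (s n).1.h (B (s m).1 i) := by
    clear hct
    induction F using Finset.induction_on with
    | empty => exact ⟨m, le_rfl, by simp⟩
    | insert i F hi ih =>
      obtain ⟨n, hmn, hn⟩ := ih
      obtain ⟨k, hk⟩ := hs2 m i
      refine ⟨max n k, le_trans hmn (le_max_left _ _), ?_⟩
      intro j hj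
      rcases Finset.mem_insert.1 hj with rfl | hj
      · exact hmono _ _ (le_max_right n k) N _ hk
      · exact hmono _ _ (le_max_left n k) N _ (hn j hj)
  obtain ⟨n, hmn, hn⟩ := hb
  obtain ⟨W, hW⟩ := subm (R := R) (N := N) (s n).1
  apply hc n
  change (s n).1.h c
  rw [← hW, hct]
  refine W.add_mem (W.sum_mem ?_) ((hW t).2 (hmono m n hmn N t ht))
  intro i hi
  exact W.smul_mem (f i) ((hW _).2 (hn i hi))

end Pool.Agent.Helper232.RZ
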