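import Mathlib
import Pool.Agent.Helper232.RZ.N_main0
import Pool.Agent.Helper232.RZ.N_dim
import Pool.Agent.Helper232.RZ.N_K

set_option autoImplicit false

namespace Pool.Agent.Helper232.RZ


theorem full_sol2 {k R : Type} [CommRing k] [Ring R] [Algebra k R] (k0 : Subring k) (R0 : Subring R)
    (d : ℕ) (g : Fin d → R) (hD : Desc k0 R0 d g) (Q0 : Set (Σ n : ℕ, PP R0 n × PP R0 n)) (θ : PP R0 1)
    (m p : ℕ) (a : Fin m → Fin d → k) (b : Fin m → Fin p → Fin d → k)
    (hσ : ∀ (M : Type) [AddCommGroup M] [Module R M], (∀ q ∈ Q0, ∀ x : Fin q.1 → M, q.2.1.up.H x → q.2.2.up.H x) →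
      ∀ (y : M) (z : Fin p → M), (∀ i, (∑ j, algebraMap k R (a i j) * g j) • y +
        ∑ l, (∑ j, algebraMap k R (b i l j) * g j) • z l = 0) → θ.up.h y)
    (M0 : Type) [AddCommGroup M0] [Module R0 M0] (hM0 : AC R0 M0)
    (h : InD Q0 M0) (Y : k → M0) (Z : k → Fin p → M0)
    (hY : ∀ w w', Y (w + w') = Y w + Y w') (hZ : ∀ w w' l, Z (w + w') l = Z w l + Z w' l)
    (hY0 : ∀ (c : k0) (w : k), Y ((c : k) * w) = (⟨algebraMap k R c, hD.map c c.2⟩ : R0) • Y w)
    (hZ0 : ∀ (c : k0) (w : k) (l : Fin p),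
      Z ((c : k) * w) l = (⟨algebraMap k R c, hD.map c c.2⟩ : R0) • Z w l)
    (heq : ∀ (i : Fin m) (w : k), ∑ j, (⟨g j, hD.gmem j⟩ : R0) • Y (a i j * w) +
      ∑ l, ∑ j, (⟨g j, hD.gmem j⟩ : R0) • Z (b i l j * w) l = 0) : θ.h (Y 1) := by
  obtain ⟨M1, i1, i2, ev, hC⟩ := coind k0 R0 d g hD M0
  obtain ⟨y, hy⟩ := hC.lift Y hY hY0
  have hzex : ∀ l, ∃ f : M1, ∀ w, ev w f = Z w l := fun l =>
    hC.lift (fun w => Z w l) (fun w w' => hZ w w' l) (fun c w => hZ0 c w l)
  choose z hz using hzex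
  have key : ∀ (c : Fin d → k) (f : M1) (w : k),
      ev w ((∑ j, algebraMap k R (c j) * g j) • f) =
        ∑ j, (⟨g j, hD.gmem j⟩ : R0) • ev (c j * w) f := by
    intro c f w
    rw [Finset.sum_smul, map_sum]
    refine Finset.sum_congr rfl fun j _ => ?_
    rw [mul_smul, hC.zsm]
    have := hC.rsm (w * c j) (⟨g j, hD.gmem j⟩ : R0) f
    rw [mul_comm (c j) w, ← this]
  have heqs : ∀ i, (∑ j, algebraMap k R (a i j) * g j) • y +
        ∑ l, (∑ j, algebraMap k R (b i l j) * g j) • z l = 0 := by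
    intro i
    apply hC.ext
    intro w
    rw [map_add, map_sum, key]
    simp only [key, hy, hz]
    exact heq i w
  have hθ : θ.up.h y := hσ M1 (fun q hq => coind_mem k0 R0 d g hD M0 M1 ev hC hM0 q.2.1 q.2.2 (h q hq)) y z heqs
  obtain ⟨u, hu⟩ := hθ
  refine ⟨fun l => ev 1 (u l), fun i => ?_⟩
  have h1 := congrArg (ev 1) (hu i)
  rw [map_add, map_sum, map_sum, map_zero] at h1
  rw [← h1]
  congr 1
  · refine Finset.sum_congr rfl fun j _ => ?_
    rw [← hy 1]
    exact (hC.rsm 1 (θ.A i j) y).symm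
  · refine Finset.sum_congr rfl fun l _ => ?_
    exact (hC.rsm 1 (θ.B i l) (u l)).symm



theorem sys_cp2 {S : Type} [Ring S] (Q0 : Set (Σ n : ℕ, PP S n × PP S n)) (θ : PP S 1) (I J : Type)
    (α : J → I →₀ S) (Z0 : Set I) (i0 : I)
    (h : ∀ (M : Type) [AddCommGroup M] [Module S M], AC S M →
      InD Q0 M → ∀ u : I → M,
      (∀ j, ((α j).sum fun i r => r • u i) = 0) → (∀ i ∈ Z0, u i = 0) → θ.h (u i0)) :
    ∃ F : Finset J, ∀ (M : Type) [AddCommGroup M] [Module S M],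
      InD Q0 M → ∀ u : I → M,
      (∀ j ∈ F, ((α j).sum fun i r => r • u i) = 0) → (∀ i ∈ Z0, u i = 0) → θ.h (u i0) := by
  classical
  by_contra hcon
  push Not at hcon
  choose M iM iMod hφψ u hu hZ hθ using hcon
  letI : ∀ F, AddCommGroup (M F) := iM
  letI : ∀ F, Module S (M F) := iMod
  obtain ⟨Q, iQ, iQM, π, hπs, hπ⟩ := rp (R := S) (Finset J) Filter.atTop M
  obtain ⟨⟨ζ, hζ⟩, _⟩ := formulas (R := S)
  have hπ0 : ∀ x : ∀ F, M F, (∀ᶠ F in Filter.atTop, x F = 0) → π x = 0 := by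
    intro x hx
    apply (hζ Q (π x)).mp
    have h1 := (hπ 1 ζ (fun _ => x)).mpr (by
      filter_upwards [hx] with F hF
      exact (hζ (M F) (x F)).mpr hF)
    exact h1
  have hQφψ : InD Q0 Q := by
    intro q hq x hx
    choose x' hx' using fun i => hπs (x i)
    have e : x = fun i => π (x' i) := by
      funext i
      exact (hx' i).symm
    rw [e] at hx ⊢
    rw [hπ] at hx ⊢
    filter_upwards [hx] with F hF
    exact hφψ F q hq _ hF
  have hQeq : ∀ j, ((α j).sum fun i r => r • π (fun F => u F i)) = 0 := by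
    intro j
    have e1 : ((α j).sum fun i r => r • π (fun F => u F i))
        = π (fun F => (α j).sum fun i r => r • u F i) := by
      have e2 : (fun F => (α j).sum fun i r => r • u F i)
          = (α j).sum fun i r => r • (fun F => u F i : ∀ F, M F) := by
        funext F
        unfold Finsupp.sum
        rw [Finset.sum_apply]
        rfl
      rw [e2]
      unfold Finsupp.sum
      rw [map_sum]
      refine Finset.sum_congr rfl fun i _ => ?_
      rw [map_smul]
    rw [e1]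
    apply hπ0
    filter_upwards [Filter.eventually_ge_atTop ({j} : Finset J)] with F hF
    exact hu F j (hF (Finset.mem_singleton_self j))
  have hQZ : ∀ i ∈ Z0, π (fun F => u F i) = 0 := by
    intro i hi
    apply hπ0
    exact Filter.Eventually.of_forall fun F => hZ F i hi
  have hQθ : ¬ θ.h (π (fun F => u F i0)) := by
    intro hcon2
    have h1 := (hπ 1 θ (fun _ => fun F => u F i0)).mp hcon2
    obtain ⟨F, hF⟩ := h1.exists
    exact hθ F hF
  obtain ⟨M', iM', iMM', ι, hAC, hrefl, htr⟩ := pe (R := S) Q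
  have hfin := h M' hAC (fun q hq => htr q.1 q.2.1 q.2.2 (hQφψ q hq)) (fun i => ι (π (fun F => u F i)))
    (fun j => by
      have e3 : ((α j).sum fun i r => r • ι (π (fun F => u F i)))
          = ι ((α j).sum fun i r => r • π (fun F => u F i)) := by
        unfold Finsupp.sum
        rw [map_sum]
        refine Finset.sum_congr rfl fun i _ => ?_
        rw [map_smul]
      rw [e3, hQeq j, map_zero])
    (fun i hi => by
      show ι (π (fun F => u F i)) = 0
      rw [hQZ i hi, map_zero])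
  exact hQθ (hrefl 1 θ (fun _ => π (fun F => u F i0)) hfin)



private noncomputable def K2_eq {k R : Type} [CommRing k] [Ring R] [Algebra k R] (k0 : Subring k)
    (R0 : Subring R) (hm : ∀ c ∈ k0, algebraMap k R c ∈ R0) (d : ℕ) (g0 : Fin d → R0) (m p : ℕ)
    (c0 c1 : Fin m → Fin d → k) (b : Fin m → Fin p → Fin d → k) :
    ((k × k × (Fin 2 ⊕ Fin p)) ⊕ (k0 × k × (Fin 2 ⊕ Fin p))) ⊕ (Fin m × k) →
      ((k × (Fin 2 ⊕ Fin p)) →₀ R0)
  | Sum.inl (Sum.inl q) => Finsupp.single (q.1 + q.2.1, q.2.2) 1 - Finsupp.single (q.1, q.2.2) 1 -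
      Finsupp.single (q.2.1, q.2.2) 1
  | Sum.inl (Sum.inr q) => Finsupp.single ((q.1 : k) * q.2.1, q.2.2) 1 -
      Finsupp.single (q.2.1, q.2.2) (⟨algebraMap k R q.1, hm q.1 q.1.2⟩ : R0)
  | Sum.inr q => ∑ j, Finsupp.single (c0 q.1 j * q.2, Sum.inl 0) (g0 j) +
      ∑ j, Finsupp.single (c1 q.1 j * q.2, Sum.inl 1) (g0 j) +
      ∑ l, ∑ j, Finsupp.single (b q.1 l j * q.2, Sum.inr l) (g0 j)

private theorem K2_eq1 {k R : Type} [CommRing k] [Ring R] [Algebra k R] (k0 : Subring k)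
    (R0 : Subring R) (hm : ∀ c ∈ k0, algebraMap k R c ∈ R0) (d : ℕ) (g0 : Fin d → R0) (m p : ℕ)
    (c0 c1 : Fin m → Fin d → k) (b : Fin m → Fin p → Fin d → k)
    {M : Type} [AddCommGroup M] [Module R0 M] (u : k × (Fin 2 ⊕ Fin p) → M)
    (w w' : k) (κ : Fin 2 ⊕ Fin p) :
    ((K2_eq k0 R0 hm d g0 m p c0 c1 b (Sum.inl (Sum.inl (w, w', κ)))).sum fun i r => r • u i) =
      u (w + w', κ) - u (w, κ) - u (w', κ) := by
  have h := Finsupp.linearCombination_apply (R := R0) (v := u)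
    (K2_eq k0 R0 hm d g0 m p c0 c1 b (Sum.inl (Sum.inl (w, w', κ))))
  rw [← h]
  simp only [K2_eq, map_sub, Finsupp.linearCombination_single, one_smul]

private theorem K2_eq2 {k R : Type} [CommRing k] [Ring R] [Algebra k R] (k0 : Subring k)
    (R0 : Subring R) (hm : ∀ c ∈ k0, algebraMap k R c ∈ R0) (d : ℕ) (g0 : Fin d → R0) (m p : ℕ)
    (c0 c1 : Fin m → Fin d → k) (b : Fin m → Fin p → Fin d → k)
    {M : Type} [AddCommGroup M] [Module R0 M] (u : k × (Fin 2 ⊕ Fin p) → M)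
    (c : k0) (w : k) (κ : Fin 2 ⊕ Fin p) :
    ((K2_eq k0 R0 hm d g0 m p c0 c1 b (Sum.inl (Sum.inr (c, w, κ)))).sum fun i r => r • u i) =
      u ((c : k) * w, κ) - (⟨algebraMap k R c, hm c c.2⟩ : R0) • u (w, κ) := by
  have h := Finsupp.linearCombination_apply (R := R0) (v := u)
    (K2_eq k0 R0 hm d g0 m p c0 c1 b (Sum.inl (Sum.inr (c, w, κ))))
  rw [← h]
  simp only [K2_eq, map_sub, Finsupp.linearCombination_single, one_smul]

private theorem K2_eq3 {k R : Type} [CommRing k] [Ring R] [Algebra k R] (k0 : Subring k)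
    (R0 : Subring R) (hm : ∀ c ∈ k0, algebraMap k R c ∈ R0) (d : ℕ) (g0 : Fin d → R0) (m p : ℕ)
    (c0 c1 : Fin m → Fin d → k) (b : Fin m → Fin p → Fin d → k)
    {M : Type} [AddCommGroup M] [Module R0 M] (u : k × (Fin 2 ⊕ Fin p) → M)
    (i : Fin m) (w : k) :
    ((K2_eq k0 R0 hm d g0 m p c0 c1 b (Sum.inr (i, w))).sum fun i r => r • u i) =
      ∑ j, g0 j • u (c0 i j * w, Sum.inl 0) + ∑ j, g0 j • u (c1 i j * w, Sum.inl 1) +
        ∑ l, ∑ j, g0 j • u (b i l j * w, Sum.inr l) := by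
  have h := Finsupp.linearCombination_apply (R := R0) (v := u)
    (K2_eq k0 R0 hm d g0 m p c0 c1 b (Sum.inr (i, w)))
  rw [← h]
  simp only [K2_eq, map_add, map_sum, Finsupp.linearCombination_single]

theorem K2 {k R : Type} [CommRing k] [Ring R] [Algebra k R] (k0 : Subring k) (R0 : Subring R)
    (d : ℕ) (g : Fin d → R) (hD : Desc k0 R0 d g) (Q0 : Set (Σ n : ℕ, PP R0 n × PP R0 n)) (θ : PP R0 1)
    (σ : PP R 2)
    (hσ : ∀ (M : Type) [AddCommGroup M] [Module R M], (∀ q ∈ Q0, ∀ x : Fin q.1 → M, q.2.1.up.H x → q.2.2.up.H x) →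
      ∀ y : M, σ.H ![0, y] → θ.up.h y) :
    ∃ (r : ℕ) (w : Fin r → k) (τ : PP R0 (r + 1)),
      (∀ (M : Type) [AddCommGroup M] [Module R M] (x y : M), σ.H ![x, y] →
        τ.up.H (Matrix.vecCons y (fun i => algebraMap k R (w i) • x))) ∧
      ∀ (M : Type) [AddCommGroup M] [Module R0 M], InD Q0 M →
        ∀ y : M, τ.H (Matrix.vecCons y (fun _ => (0 : M))) → θ.h y := by
  classical
  choose cf hcf using hD.gen
  let g0 : Fin d → R0 := fun j => ⟨g j, hD.gmem j⟩
  let c0 : Fin σ.m → Fin d → k := fun i j => cf (σ.A i 0) j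
  let c1 : Fin σ.m → Fin d → k := fun i j => cf (σ.A i 1) j
  let b : Fin σ.m → Fin σ.p → Fin d → k := fun i l j => cf (σ.B i l) j
  let Z0 : Set (k × (Fin 2 ⊕ Fin σ.p)) := {i | i.2 = Sum.inl 0}
  let i0 : k × (Fin 2 ⊕ Fin σ.p) := (1, Sum.inl 1)
  have hi0 : i0 ∉ Z0 := by
    intro h
    have h1 : (Sum.inl 1 : Fin 2 ⊕ Fin σ.p) = Sum.inl 0 := h
    have h2 := Sum.inl_injective h1
    exact absurd h2 (by decide)
  obtain ⟨F, hF⟩ := sys_cp2 Q0 θ (k × (Fin 2 ⊕ Fin σ.p)) _
    (K2_eq k0 R0 hD.map d g0 σ.m σ.p c0 c1 b) Z0 i0 (by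
      intro M _ _ hAC hM u hu hz
      refine full_sol2 k0 R0 d g hD Q0 θ σ.m σ.p c1 b ?_ M hAC hM (fun w => u (w, Sum.inl 1))
        (fun w l => u (w, Sum.inr l)) ?_ ?_ ?_ ?_ ?_
      · intro M' _ _ hM' y z hyz
        apply hσ M' hM' y
        refine ⟨z, fun i => ?_⟩
        rw [Fin.sum_univ_two]
        have h1 := hyz i
        have e1 : σ.A i 1 = ∑ j, algebraMap k R (c1 i j) * g j := hcf (σ.A i 1)
        have e2 : ∀ l, σ.B i l = ∑ j, algebraMap k R (b i l j) * g j := fun l => hcf (σ.B i l)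
        rw [e1]
        simp only [e2]
        show _ • (0 : M') + _ • y + _ = 0
        rw [smul_zero, zero_add]
        exact h1
      · intro w w'
        have h1 := hu (Sum.inl (Sum.inl (w, w', Sum.inl 1)))
        rw [K2_eq1] at h1
        rw [sub_sub, sub_eq_zero] at h1
        exact h1
      · intro w w' l
        have h1 := hu (Sum.inl (Sum.inl (w, w', Sum.inr l)))
        rw [K2_eq1] at h1
        rw [sub_sub, sub_eq_zero] at h1
        exact h1
      · intro c w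
        have h1 := hu (Sum.inl (Sum.inr (c, w, Sum.inl 1)))
        rw [K2_eq2] at h1
        exact sub_eq_zero.mp h1
      · intro c w l
        have h1 := hu (Sum.inl (Sum.inr (c, w, Sum.inr l)))
        rw [K2_eq2] at h1
        exact sub_eq_zero.mp h1
      · intro i w
        have h1 := hu (Sum.inr (i, w))
        rw [K2_eq3] at h1
        have h2 : ∑ j, g0 j • u (c0 i j * w, Sum.inl 0) = 0 := by
          apply Finset.sum_eq_zero
          intro j _
          rw [hz (c0 i j * w, Sum.inl 0) rfl, smul_zero]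
        rw [h2, zero_add] at h1
        exact h1)
  obtain ⟨r, w', τ, hwZ, h1, h2⟩ := to_formula (k × (Fin 2 ⊕ Fin σ.p)) _
    (K2_eq k0 R0 hD.map d g0 σ.m σ.p c0 c1 b) F Z0 i0 hi0
  refine ⟨r, fun l => (w' l).1, τ, ?_, ?_⟩
  · intro M _ _ x y hxy
    obtain ⟨z, hz⟩ := hxy
    rw [up_iff]
    let v : (Fin 2 ⊕ Fin σ.p) → M := fun κ => Sum.elim (fun t : Fin 2 => if t = 0 then x else y) z κ
    have hv0 : v (Sum.inl 0) = x := by simp [v]
    have hv1 : v (Sum.inl 1) = y := by simp [v]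
    have hv2 : ∀ l, v (Sum.inr l) = z l := fun l => by simp [v]
    have h3 := h1 M (fun q => algebraMap k R q.1 • v q.2) (by
      rintro ((⟨w, w2, κ⟩ | ⟨c, w, κ⟩) | ⟨i, w⟩)
      · intro _
        rw [K2_eq1]
        simp only [map_add, add_smul]
        abel
      · intro _
        rw [K2_eq2]
        simp only [map_mul, mul_smul]
        exact sub_self _
      · intro _
        rw [K2_eq3]
        simp only [hv0, hv1, hv2]
        have hcomm : ∀ (j : Fin d) (c : k) (t : M), g0 j • algebraMap k R (c * w) • t =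
            algebraMap k R w • ((algebraMap k R c * g j) • t) := by
          intro j c t
          show g j • algebraMap k R (c * w) • t = _
          rw [← mul_smul, ← mul_smul, ← Algebra.commutes, mul_comm c w, map_mul, mul_assoc]
        simp only [hcomm]
        rw [← Finset.smul_sum, ← Finset.smul_sum]
        simp only [← Finset.smul_sum]
        rw [← smul_add, ← smul_add]
        have h4 := hz i
        rw [Fin.sum_univ_two] at h4
        have e0 : σ.A i 0 = ∑ j, algebraMap k R (c0 i j) * g j := hcf (σ.A i 0)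
        have e1 : σ.A i 1 = ∑ j, algebraMap k R (c1 i j) * g j := hcf (σ.A i 1)
        have e2 : ∀ l, σ.B i l = ∑ j, algebraMap k R (b i l j) * g j := fun l => hcf (σ.B i l)
        have h5 : (∑ j, (algebraMap k R (c0 i j) * g j) • x) +
            (∑ j, (algebraMap k R (c1 i j) * g j) • y) +
            (∑ l, ∑ j, (algebraMap k R (b i l j) * g j) • z l) = 0 := by
          rw [← Finset.sum_smul, ← Finset.sum_smul, ← e0, ← e1]
          have e3 : ∀ l, ∑ j, (algebraMap k R (b i l j) * g j) • z l = σ.B i l • z l := by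
            intro l
            rw [← Finset.sum_smul, ← e2]
          simp only [e3]
          exact h4
        rw [h5, smul_zero])
    have e5 : (fun l => algebraMap k R (w' l).1 • v (w' l).2) =
        fun l => algebraMap k R (w' l).1 • x := by
      funext l
      have : (w' l).2 = Sum.inl 0 := hwZ l
      rw [this, hv0]
    have e6 : algebraMap k R i0.1 • v i0.2 = y := by
      show algebraMap k R 1 • v (Sum.inl 1) = y
      rw [map_one, one_smul, hv1]
    simp only [e6] at h3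
    rw [e5] at h3
    exact h3
  · intro M _ _ hM y hy
    obtain ⟨u, hu0, huz, huF⟩ := h2 M y hy
    have h3 := hF M hM u huF huz
    rwa [hu0] at h3



theorem dim2 {k R : Type} [CommRing k] [IsNoetherianRing k] [Ring R] [Algebra k R]
    [Module.Finite k R] (P : ℕ → Σ n : ℕ, PP R n × PP R n) (N : Type) [AddCommGroup N] [Module R N]
    (hN : Uniq (Set.range P) N) (θ : PP R 1) :
    ∃ B : ℕ → N, (∀ i, Vt θ (B i)) ∧ ∀ b : N, Vt θ b →
      ∃ (F : Finset ℕ) (f : ℕ → Module.End R N) (t : N), θ.h t ∧ b = ∑ i ∈ F, f i (B i) + t := by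
  classical
  let X : Set R := (⋃ i : ℕ, ((Set.range fun z : Fin (P i).2.1.m × Fin (P i).1 => (P i).2.1.A z.1 z.2) ∪
      (Set.range fun z : Fin (P i).2.1.m × Fin (P i).2.1.p => (P i).2.1.B z.1 z.2)) ∪
    ((Set.range fun z : Fin (P i).2.2.m × Fin (P i).1 => (P i).2.2.A z.1 z.2) ∪
      (Set.range fun z : Fin (P i).2.2.m × Fin (P i).2.2.p => (P i).2.2.B z.1 z.2))) ∪
    ((Set.range fun z : Fin θ.m × Fin 1 => θ.A z.1 z.2) ∪
    (Set.range fun z : Fin θ.m × Fin θ.p => θ.B z.1 z.2))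
  have hX : X.Countable :=
    (Set.countable_iUnion fun i => ((Set.countable_range _).union (Set.countable_range _)).union
      ((Set.countable_range _).union (Set.countable_range _))).union
      ((Set.countable_range _).union (Set.countable_range _))
  obtain ⟨k0, R0, d, g, -, hR0, hXR, hD⟩ := desc k R X hX
  have hP1 : ∀ i, ∃ ψ : PP R0 (P i).1, ψ.up = (P i).2.1 := fun i => down R0 (P i).2.1
    (fun a b => hXR (Or.inl (Set.mem_iUnion.2 ⟨i, Or.inl (Or.inl ⟨(a, b), rfl⟩)⟩)))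
    (fun a b => hXR (Or.inl (Set.mem_iUnion.2 ⟨i, Or.inl (Or.inr ⟨(a, b), rfl⟩)⟩)))
  have hP2 : ∀ i, ∃ ψ : PP R0 (P i).1, ψ.up = (P i).2.2 := fun i => down R0 (P i).2.2
    (fun a b => hXR (Or.inl (Set.mem_iUnion.2 ⟨i, Or.inr (Or.inl ⟨(a, b), rfl⟩)⟩)))
    (fun a b => hXR (Or.inl (Set.mem_iUnion.2 ⟨i, Or.inr (Or.inr ⟨(a, b), rfl⟩)⟩)))
  choose φ0 hφ0 using hP1
  choose ψ0 hψ0 using hP2
  obtain ⟨θ0, rfl⟩ := down R0 θ
    (fun i j => hXR (Or.inr (Or.inl ⟨(i, j), rfl⟩)))
    (fun i j => hXR (Or.inr (Or.inr ⟨(i, j), rfl⟩)))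
  let Q0 : Set (Σ n : ℕ, PP R0 n × PP R0 n) := Set.range fun i => ⟨(P i).1, (φ0 i, ψ0 i)⟩
  have : Countable R0 := hR0.to_subtype
  have := hN.ind.1
  obtain ⟨a, ha⟩ := exists_ne (0 : N)
  let T : Type := Σ r : ℕ, {τ : PP R0 (r + 1) //
    ∀ y : N, τ.H (Matrix.vecCons y (fun _ => (0 : N))) → θ0.h y}
  have hc1 : ∀ r : ℕ, Countable (PP R0 (r + 1)) := fun r => countPP R0 (r + 1)
  have hc2 : ∀ r : ℕ, Countable {τ : PP R0 (r + 1) //
    ∀ y : N, τ.H (Matrix.vecCons y (fun _ => (0 : N))) → θ0.h y} := fun r => inferInstance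
  have hT : Countable T := inferInstanceAs (Countable (Σ r : ℕ, {τ : PP R0 (r + 1) //
    ∀ y : N, τ.H (Matrix.vecCons y (fun _ => (0 : N))) → θ0.h y}))
  have hfg : ∀ t : T, ∃ (q : ℕ) (c : Fin q → N), (∀ i, Vt θ0.up (c i)) ∧
      ∀ (b : N) (w : Fin t.1 → k), Vt θ0.up b →
      t.2.1.up.H (Matrix.vecCons b (fun i => algebraMap k R (w i) • a)) →
      ∃ (f : Fin q → Module.End R N) (t : N), θ0.up.h t ∧ b = ∑ i, f i (c i) + t := by
    intro t
    apply fin_gen θ0.up a t.1 t.2.1.up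
    intro y hy
    rw [up_iff] at hy
    have := t.2.2 y hy
    exact (up_iff θ0 _).2 this
  choose q c hc hf using hfg
  let I : Type := Option (Σ t : T, Fin (q t))
  have : Countable I := inferInstanceAs (Countable (Option (Σ t : T, Fin (q t))))
  have : Nonempty I := ⟨none⟩
  obtain ⟨e, he⟩ := exists_surjective_nat I
  let v : I → N := fun i => match i with
    | none => 0
    | some z => c z.1 z.2
  refine ⟨fun i => v (e i), ?_, ?_⟩
  · intro i
    show Vt θ0.up (v (e i))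
    rcases e i with _ | z
    · intro f _
      show θ0.up.h (f 0)
      rw [map_zero]
      exact (h_add θ0.up (0 : N) 0).2.2.2
    · exact hc z.1 z.2
  · intro b hb
    obtain ⟨σ, hσ1, hσ2⟩ := L1 _ N hN θ0.up a b ha hb
    obtain ⟨r, w, τ, h1, h2⟩ := K2 k0 R0 d g hD Q0 θ0 σ (by
      intro M _ _ hM y hy
      apply hσ2 M _ y hy
      rintro q' ⟨i, rfl⟩ x hx
      have h5 := hM ⟨(P i).1, (φ0 i, ψ0 i)⟩ ⟨i, rfl⟩ x
      change (φ0 i).up.H x → (ψ0 i).up.H x at h5
      rw [hφ0, hψ0] at h5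
      exact h5 hx)
    have hNm : InD Q0 N := by
      rintro q' ⟨i, rfl⟩ x hx
      have h5 := hN.mem (P i) ⟨i, rfl⟩ x
      rw [← hφ0, ← hψ0] at h5
      exact (up_iff (ψ0 i) x).1 (h5 ((up_iff (φ0 i) x).2 hx))
    let t : T := ⟨r, ⟨τ, h2 N hNm⟩⟩
    obtain ⟨f, u, hu, hbu⟩ := hf t b w hb (h1 N a b hσ1)
    obtain ⟨s, hs⟩ := he.hasRightInverse
    have hinj : Function.Injective (fun i : Fin (q t) => s (some ⟨t, i⟩ : I)) := by
      intro i j hij
      have h3 := congrArg e hij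
      simp only at h3
      rw [hs, hs] at h3
      have h4 := Option.some.inj h3
      simpa using h4
    refine ⟨Finset.univ.image (fun i : Fin (q t) => s (some ⟨t, i⟩ : I)),
      Function.extend (fun i : Fin (q t) => s (some ⟨t, i⟩ : I)) f 0, u, hu, ?_⟩
    rw [Finset.sum_image (fun i _ j _ hij => hinj hij)]
    rw [hbu]
    congr 1
    refine Finset.sum_congr rfl fun i _ => ?_
    rw [hinj.extend_apply]
    show f i (c t i) = f i (v (e (s (some ⟨t, i⟩ : I))))
    rw [hs]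

end Pool.Agent.Helper232.RZ
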